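import Pool.Agent.Helper71.AKE.Ultra

/-!
# Cross-sections of ultrapowers of valued fields
-/

set_option autoImplicit false

universe u

namespace Pool.Agent.Helper71.AKE

open Filter

section Group

variable {G : Type u} [AddCommGroup G]

/-- one step of the construction of the pure hull of a rank one extension -/
theorem pure_step (V : AddSubgroup G) (hV : ∀ (n : ℕ) (g : G), 1 ≤ n → n • g ∈ V → g ∈ V)
    (g : G) (hg : ∀ a : ℤ, a • g ∈ V → a = 0) (n : ℕ) (hn : 1 ≤ n) :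
    ∃ (g' : G) (r : ℕ), (∀ a : ℤ, a • g' ∈ V → a = 0) ∧ g - r • g' ∈ V ∧
      ∀ e : G, (∃ a : ℤ, n • e - a • g ∈ V) → ∃ m : ℤ, e - m • g' ∈ V := by
  suffices h : ∃ (g' : G) (r : ℤ), (∀ a : ℤ, a • g' ∈ V → a = 0) ∧ g - r • g' ∈ V ∧
      ∀ e : G, (∃ a : ℤ, n • e - a • g ∈ V) → ∃ m : ℤ, e - m • g' ∈ V by
    obtain ⟨g', r, h1, h2, h3⟩ := h
    rcases Int.eq_nat_or_neg r with ⟨m, rfl | rfl⟩
    · exact ⟨g', m, h1, by rwa [natCast_zsmul] at h2, h3⟩
    · refine ⟨-g', m, fun a ha => ?_, ?_, fun e he => ?_⟩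
      · rw [smul_neg] at ha
        exact h1 a (by simpa using V.neg_mem ha)
      · rw [neg_smul, natCast_zsmul] at h2
        rwa [smul_neg]
      · obtain ⟨k, hk⟩ := h3 e he
        exact ⟨-k, by rwa [smul_neg, neg_smul, neg_neg]⟩
  let I : AddSubgroup ℤ :=
    { carrier := {a | ∃ e : G, n • e - a • g ∈ V}
      zero_mem' := ⟨0, by simp [V.zero_mem]⟩
      add_mem' := by
        rintro a b ⟨e, he⟩ ⟨f, hf⟩
        refine ⟨e + f, ?_⟩
        have h1 : n • (e + f) - (a + b) • g = (n • e - a • g) + (n • f - b • g) := by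
          rw [nsmul_add, add_smul]; abel
        rw [h1]
        exact V.add_mem he hf
      neg_mem' := by
        rintro a ⟨e, he⟩
        refine ⟨-e, ?_⟩
        have h1 : n • (-e) - (-a) • g = -(n • e - a • g) := by
          rw [smul_neg, neg_smul]; abel
        rw [h1]
        exact V.neg_mem he }
  obtain ⟨d, hd⟩ := Int.subgroup_cyclic I
  have hmem : ∀ a : ℤ, a ∈ I ↔ ∃ m : ℤ, m * d = a := by
    intro a
    rw [hd, AddSubgroup.mem_closure_singleton]
    simp [smul_eq_mul]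
  have hnI : (n : ℤ) ∈ I := ⟨g, by rw [natCast_zsmul, sub_self]; exact V.zero_mem⟩
  obtain ⟨r, hr⟩ := (hmem n).1 hnI
  have hd0 : d ≠ 0 := by
    rintro rfl
    rw [mul_zero] at hr
    omega
  obtain ⟨g', hg'⟩ : d ∈ I := (hmem d).2 ⟨1, one_mul d⟩
  refine ⟨g', r, fun a ha => ?_, ?_, ?_⟩
  · have h1 : (a * d) • g ∈ V := by
      have h2 : (a * d) • g = n • (a • g') - a • (n • g' - d • g) := by
        rw [smul_sub, mul_smul, smul_comm n a g']
        abel
      rw [h2]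
      exact V.sub_mem (V.nsmul_mem ha n) (V.zsmul_mem hg' a)
    exact (mul_eq_zero.1 (hg _ h1)).resolve_right hd0
  · apply hV n _ hn
    have h2 : n • (g - r • g') = -(r • (n • g' - d • g)) := by
      rw [smul_sub, smul_sub, ← natCast_zsmul g n, ← hr, mul_smul, smul_comm n r g']
      abel
    rw [h2]
    exact V.neg_mem (V.zsmul_mem hg' r)
  · rintro e ⟨a, ha⟩
    obtain ⟨m, hm⟩ := (hmem a).1 ⟨e, ha⟩
    refine ⟨m, hV n _ hn ?_⟩
    have h2 : n • (e - m • g') = (n • e - a • g) - m • (n • g' - d • g) := by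
      rw [smul_sub, smul_sub, ← hm, mul_smul, smul_comm n m g']
      abel
    rw [h2]
    exact V.sub_mem ha (V.zsmul_mem hg' m)

/-- the pure hull of a rank one extension -/
theorem pure_seq (V : AddSubgroup G) (hV : ∀ (n : ℕ) (g : G), 1 ≤ n → n • g ∈ V → g ∈ V)
    (γ : G) (hγ : ∀ a : ℤ, a • γ ∈ V → a = 0) :
    ∃ (g : ℕ → G) (r : ℕ → ℕ), g 0 = γ ∧ (∀ k, ∀ a : ℤ, a • g k ∈ V → a = 0) ∧
      (∀ k, g k - r k • g (k + 1) ∈ V) ∧
      ∀ (n : ℕ) (e : G) (k : ℕ) (a : ℤ), 1 ≤ n → n • e - a • g k ∈ V →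
        ∃ (l : ℕ) (m : ℤ), e - m • g l ∈ V := by
  let S : Type u := {g : G // ∀ a : ℤ, a • g ∈ V → a = 0}
  have hstep : ∀ (k : ℕ) (s : S), ∃ (s' : S) (r : ℕ), s.1 - r • s'.1 ∈ V ∧
      ∀ e : G, (∃ a : ℤ, (k.factorial) • e - a • s.1 ∈ V) → ∃ m : ℤ, e - m • s'.1 ∈ V := by
    intro k s
    obtain ⟨g', r, h1, h2, h3⟩ := pure_step V hV s.1 s.2 k.factorial (Nat.factorial_pos k)
    exact ⟨⟨g', h1⟩, r, h2, h3⟩
  choose nx r hr1 hr2 using hstep
  let gs : ℕ → S := fun k => Nat.rec ⟨γ, hγ⟩ (fun k s => nx k s) k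
  have hgs : ∀ k, gs (k + 1) = nx k (gs k) := fun k => rfl
  have hrel : ∀ k, (gs k).1 - r k (gs k) • (gs (k + 1)).1 ∈ V := fun k => hr1 k (gs k)
  refine ⟨fun k => (gs k).1, fun k => r k (gs k), rfl, fun k => (gs k).2, hrel, ?_⟩
  intro n e j a hn he
  have hup : ∀ l, ∃ a' : ℤ, n • e - a' • (gs (j + l)).1 ∈ V := by
    intro l
    induction l with
    | zero => exact ⟨a, he⟩
    | succ l ih =>
      obtain ⟨a', ha'⟩ := ih
      refine ⟨a' * (r (j + l) (gs (j + l)) : ℤ), ?_⟩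
      have h1 : n • e - (a' * (r (j + l) (gs (j + l)) : ℤ)) • (gs (j + (l + 1))).1 =
          (n • e - a' • (gs (j + l)).1) +
            a' • ((gs (j + l)).1 - r (j + l) (gs (j + l)) • (gs (j + l + 1)).1) := by
        rw [mul_smul, smul_sub, natCast_zsmul]
        show n • e - a' • (r (j + l) (gs (j + l)) • (gs (j + l + 1)).1) = _
        abel
      rw [h1]
      exact V.add_mem ha' (V.zsmul_mem (hrel _) a')
  obtain ⟨a', ha'⟩ := hup n
  have hdvd : n ∣ (j + n).factorial := Nat.dvd_factorial (by omega) (by omega)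
  obtain ⟨q, hq⟩ := hdvd
  obtain ⟨m, hm⟩ := hr2 (j + n) (gs (j + n)) e ⟨q * a', by
    have h1 : (j + n).factorial • e - ((q : ℤ) * a') • (gs (j + n)).1 =
        q • (n • e - a' • (gs (j + n)).1) := by
      rw [hq, smul_sub, mul_smul (q : ℤ), natCast_zsmul, mul_comm n q, mul_smul]
    rw [h1]
    exact V.nsmul_mem ha' q⟩
  exact ⟨j + n + 1, m, hm⟩

end Group

section Units

variable (N : ValField.{u})

/-- the values of units, as a homomorphism -/
noncomputable def vu : N.Kˣ →* Multiplicative N.G where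
  toFun x := Multiplicative.ofAdd (N.vg (x : N.K))
  map_one' := by
    rw [Units.val_one, N.vg_eq_of (g := 0) (by rw [N.v_one]; rfl)]
    rfl
  map_mul' x y := by
    rw [Units.val_mul, N.vg_mul x.ne_zero y.ne_zero]
    rfl

/-- the values of units -/
noncomputable def uval (x : N.Kˣ) : N.G := N.vg (x : N.K)

theorem uval_mul (x y : N.Kˣ) : uval N (x * y) = uval N x + uval N y :=
  congrArg Multiplicative.toAdd (map_mul (vu N) x y)

theorem uval_one : uval N 1 = 0 := congrArg Multiplicative.toAdd (map_one (vu N))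

theorem uval_inv (x : N.Kˣ) : uval N x⁻¹ = - uval N x :=
  congrArg Multiplicative.toAdd (map_inv (vu N) x)

theorem uval_zpow (x : N.Kˣ) (a : ℤ) : uval N (x ^ a) = a • uval N x :=
  congrArg Multiplicative.toAdd (map_zpow (vu N) x a)

theorem uval_pow (x : N.Kˣ) (a : ℕ) : uval N (x ^ a) = a • uval N x :=
  congrArg Multiplicative.toAdd (map_pow (vu N) x a)

/-- partial cross-sections with a pure domain, by their ranges -/
def GoodW (W : Subgroup N.Kˣ) : Prop :=
  (∀ w ∈ W, uval N w = 0 → w = 1) ∧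
    ∀ (n : ℕ) (g : N.G), 1 ≤ n → ∀ w ∈ W, uval N w = n • g → ∃ w' ∈ W, uval N w' = g

/-- the group of values -/
noncomputable def valW (W : Subgroup N.Kˣ) : AddSubgroup N.G where
  carrier := {g | ∃ w ∈ W, uval N w = g}
  zero_mem' := ⟨1, W.one_mem, uval_one N⟩
  add_mem' := by
    rintro _ _ ⟨w, hw, rfl⟩ ⟨w', hw', rfl⟩
    exact ⟨w * w', W.mul_mem hw hw', uval_mul N w w'⟩
  neg_mem' := by
    rintro _ ⟨w, hw, rfl⟩
    exact ⟨w⁻¹, W.inv_mem hw, uval_inv N w⟩

end Units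

section Sat

variable {M N : ValField.{u}} (h : VU M N)

include h

/-- the saturation argument for roots -/
theorem root_sat (g : ℕ → N.G) (r : ℕ → ℕ) (w : ℕ → N.Kˣ)
    (hw : ∀ k, uval N (w k) = g k - r k • g (k + 1)) :
    ∃ x : ℕ → N.Kˣ, (∀ k, uval N (x k) = g k) ∧ ∀ k, x k = x (k + 1) ^ r k * w k := by
  have hfin : ∀ (J : ℕ) (z : N.Kˣ), uval N z = g J → ∃ X : ℕ → N.Kˣ, X J = z ∧
      ∀ j < J, uval N (X j) = g j ∧ X j = X (j + 1) ^ r j * w j := by
    intro J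
    induction J with
    | zero => exact fun z _ => ⟨fun _ => z, rfl, fun j hj => absurd hj (Nat.not_lt_zero j)⟩
    | succ J ih =>
      intro z hz
      obtain ⟨X, hX1, hX2⟩ := ih (z ^ r J * w J) (by
        rw [uval_mul, uval_pow, hz, hw]; abel)
      refine ⟨Function.update X (J + 1) z, Function.update_self _ _ _, fun j hj => ?_⟩
      by_cases hjJ : j = J
      · subst hjJ
        rw [Function.update_of_ne (by omega), Function.update_self, hX1]
        refine ⟨?_, rfl⟩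
        rw [uval_mul, uval_pow, hz, hw]; abel
      · rw [Function.update_of_ne (by omega), Function.update_of_ne (by omega)]
        exact hX2 j (by omega)
  choose g' hg' using fun k => h.G_surj (g k)
  choose w' hw' using fun k => h.K_surj (w k : N.K)
  have hval : ∀ (x : ℕ → M.K) (k : ℕ), N.v (h.K x) = (g k : WithTop N.G) ↔
      ∀ᶠ n in (UU : Filter ℕ), M.v (x n) = (g' k n : WithTop M.G) := by
    intro x k
    rw [h.v, ← hg' k, ← h.T_coe, h.T_eq]
  have hrel : ∀ (x y : ℕ → M.K) (k : ℕ), h.K x = h.K y ^ r k * (w k : N.K) ↔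
      ∀ᶠ n in (UU : Filter ℕ), x n = y n ^ r k * w' k n := by
    intro x y k
    rw [← hw', ← map_pow, ← map_mul, h.K_eq]
    rfl
  obtain ⟨y, hy⟩ := sat (X := ℕ → M.K) UU hUU
    (fun j n => {x | M.v (x j) = (g' j n : WithTop M.G) ∧ x j = x (j + 1) ^ r j * w' j n}) (by
      intro J
      obtain ⟨z, hz⟩ := N.v_surj (g J)
      have hz0 : z ≠ 0 := by
        rw [← N.v_ne_top, hz]
        exact WithTop.coe_ne_top
      obtain ⟨X, -, hX⟩ := hfin J (Units.mk0 z hz0) (N.vg_eq_of hz)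
      choose X' hX' using fun k => h.K_surj (X k : N.K)
      have h1 : ∀ᶠ n in (UU : Filter ℕ), ∀ j ∈ Finset.range J,
          M.v (X' j n) = (g' j n : WithTop M.G) ∧ X' j n = X' (j + 1) n ^ r j * w' j n := by
        rw [Filter.eventually_all_finset]
        intro j hj
        obtain ⟨h2, h3⟩ := hX j (Finset.mem_range.1 hj)
        have h4 : N.v (h.K (X' j)) = (g j : WithTop N.G) := by
          rw [hX', ← h2]
          exact (N.coe_vg (X j).ne_zero).symm
        have h5 : h.K (X' j) = h.K (X' (j + 1)) ^ r j * (w j : N.K) := by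
          rw [hX', hX']
          have := congrArg (fun u : N.Kˣ => (u : N.K)) h3
          simpa using this
        exact ((hval _ _).1 h4).and ((hrel _ _ _).1 h5)
      filter_upwards [h1] with n hn
      exact ⟨fun j => X' j n, fun j hj => hn j (Finset.mem_range.2 hj)⟩)
  have hv : ∀ k, N.v (h.K (fun n => y n k)) = (g k : WithTop N.G) :=
    fun k => (hval _ k).2 ((hy k).mono fun n hn => hn.1)
  have h0 : ∀ k, h.K (fun n => y n k) ≠ 0 := by
    intro k
    rw [← N.v_ne_top, hv]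
    exact WithTop.coe_ne_top
  refine ⟨fun k => Units.mk0 _ (h0 k), fun k => N.vg_eq_of (hv k), fun k => ?_⟩
  apply Units.ext
  have := (hrel (fun n => y n k) (fun n => y n (k + 1)) k).2 ((hy k).mono fun n hn => hn.2)
  simpa using this

theorem goodW_ext (W : Subgroup N.Kˣ) (hW : GoodW N W) (γ : N.G)
    (hγ : ¬ ∃ w ∈ W, uval N w = γ) :
    ∃ W' : Subgroup N.Kˣ, GoodW N W' ∧ W ≤ W' ∧ ∃ w ∈ W', uval N w = γ := by
  have hpure : ∀ (n : ℕ) (g : N.G), 1 ≤ n → n • g ∈ valW N W → g ∈ valW N W := by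
    rintro n g hn ⟨w, hw, hwg⟩
    exact hW.2 n g hn w hw hwg
  have hinf : ∀ a : ℤ, a • γ ∈ valW N W → a = 0 := by
    intro a ha
    by_contra h0
    apply hγ
    have h1 : a.natAbs • γ ∈ valW N W := by
      rcases Int.natAbs_eq a with h2 | h2
      · rw [h2, natCast_zsmul] at ha
        exact ha
      · rw [h2, neg_smul, natCast_zsmul] at ha
        simpa using (valW N W).neg_mem ha
    exact hpure a.natAbs γ (by omega) h1
  obtain ⟨g, r, hg0, hg1, hg2, hg3⟩ := pure_seq (valW N W) hpure γ hinf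
  choose w hwW hwv using hg2
  obtain ⟨x, hx1, hx2⟩ := root_sat h g r w hwv
  have hup : ∀ (k : ℕ) (a : ℤ) (v : N.Kˣ), v ∈ W → ∀ l, ∃ v' ∈ W, ∃ a' : ℤ,
      v * x k ^ a = v' * x (k + l) ^ a' := by
    intro k a v hv l
    induction l with
    | zero => exact ⟨v, hv, a, rfl⟩
    | succ l ih =>
      obtain ⟨v', hv', a', h1⟩ := ih
      refine ⟨v' * w (k + l) ^ a', W.mul_mem hv' (W.zpow_mem (hwW _) _), r (k + l) * a', ?_⟩
      rw [h1]
      conv_lhs => rw [hx2 (k + l)]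
      rw [mul_zpow, zpow_mul, zpow_natCast, ← add_assoc k l 1, mul_assoc v' (w (k + l) ^ a'),
        mul_comm (w (k + l) ^ a')]
  let W' : Subgroup N.Kˣ :=
    { carrier := {u | ∃ k : ℕ, ∃ v ∈ W, ∃ a : ℤ, u = v * x k ^ a}
      one_mem' := ⟨0, 1, W.one_mem, 0, by simp⟩
      mul_mem' := by
        rintro _ _ ⟨k, v, hv, a, rfl⟩ ⟨k', v', hv', a', rfl⟩
        obtain ⟨v1, hv1, a1, e1⟩ := hup k a v hv k'
        obtain ⟨v2, hv2, a2, e2⟩ := hup k' a' v' hv' k
        refine ⟨k + k', v1 * v2, W.mul_mem hv1 hv2, a1 + a2, ?_⟩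
        rw [e1, e2, add_comm k' k, zpow_add, mul_mul_mul_comm]
      inv_mem' := by
        rintro _ ⟨k, v, hv, a, rfl⟩
        refine ⟨k, v⁻¹, W.inv_mem hv, -a, ?_⟩
        rw [mul_inv, zpow_neg] }
  have hWW' : W ≤ W' := fun v hv => ⟨0, v, hv, 0, by simp⟩
  refine ⟨W', ⟨?_, ?_⟩, hWW', x 0, ⟨0, 1, W.one_mem, 1, by simp⟩, by rw [hx1, hg0]⟩
  · rintro _ ⟨k, v, hv, a, rfl⟩ h0
    rw [uval_mul, uval_zpow, hx1] at h0
    have h1 : a = 0 := by
      apply hg1 k a
      have : a • g k = -uval N v := by rw [eq_neg_iff_add_eq_zero, add_comm]; exact h0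
      rw [this]
      exact (valW N W).neg_mem ⟨v, hv, rfl⟩
    rw [h1, zero_smul, add_zero] at h0
    rw [h1, zpow_zero, mul_one]
    exact hW.1 v hv h0
  · rintro n e hn _ ⟨k, v, hv, a, rfl⟩ h0
    rw [uval_mul, uval_zpow, hx1] at h0
    obtain ⟨l, m, w2, hw2, hlm⟩ := hg3 n e k a hn (by
      rw [← h0, add_sub_cancel_right]
      exact ⟨v, hv, rfl⟩)
    refine ⟨w2 * x l ^ m, ⟨l, w2, hw2, m, rfl⟩, ?_⟩
    rw [uval_mul, uval_zpow, hx1, hlm, sub_add_cancel]

/-- **Ultrapowers of valued fields have cross-sections.** -/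
theorem cs_exists : Nonempty (CS N) := by
  obtain ⟨W, -, hW⟩ := zorn_le_nonempty₀ {W : Subgroup N.Kˣ | GoodW N W} (by
    intro c hc hchain W1 hW1
    have hne : c.Nonempty := ⟨W1, hW1⟩
    have hdir : DirectedOn (· ≤ ·) c := hchain.directedOn
    have hmem : ∀ t, t ∈ sSup c ↔ ∃ S ∈ c, t ∈ S := fun t =>
      Subgroup.mem_sSup_of_directedOn hne hdir
    refine ⟨sSup c, ⟨?_, ?_⟩, fun S hS => le_sSup hS⟩
    · intro w hw h0
      obtain ⟨S, hS, hwS⟩ := (hmem w).1 hw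
      exact (hc hS).1 w hwS h0
    · intro n g hn w hw h0
      obtain ⟨S, hS, hwS⟩ := (hmem w).1 hw
      obtain ⟨w', hw', h1⟩ := (hc hS).2 n g hn w hwS h0
      exact ⟨w', (hmem w').2 ⟨S, hS, hw'⟩, h1⟩) ⊥ (by
    refine ⟨fun w hw _ => Subgroup.mem_bot.1 hw, fun n g hn w hw h0 => ?_⟩
    rw [Subgroup.mem_bot.1 hw, uval_one] at h0
    refine ⟨1, Subgroup.one_mem _, ?_⟩
    rw [uval_one]
    exact ((smul_eq_zero_iff_right (by omega)).1 h0.symm).symm)
  have hall : ∀ g : N.G, ∃ w ∈ W, uval N w = g := by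
    intro g
    by_contra hg
    obtain ⟨W', h1, h2, h3⟩ := goodW_ext h W hW.prop g hg
    obtain ⟨w, hw, hwg⟩ := h3
    exact hg ⟨w, hW.le_of_ge h1 h2 hw, hwg⟩
  choose s hs1 hs2 using hall
  refine ⟨⟨fun g => (s g : N.K), fun g => ?_, fun g g' => ?_⟩⟩
  · rw [← N.coe_vg (s g).ne_zero]
    exact congrArg _ (hs2 g)
  · have h1 : s (g + g') * (s g * s g')⁻¹ = 1 := by
      apply hW.prop.1 _ (W.mul_mem (hs1 _) (W.inv_mem (W.mul_mem (hs1 _) (hs1 _))))
      rw [uval_mul, uval_inv, uval_mul, hs2, hs2, hs2, add_neg_cancel]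
    rw [mul_inv_eq_one] at h1
    rw [h1, Units.val_mul]

end Sat

end Pool.Agent.Helper71.AKE
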