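import Mathlib

/-!
# Definitions: prenex formulas, valued fields, and their theories

* `Sig`: many-sorted signatures; `Str S`: structures.
* `Tm S m s`, `QF S m`: terms of sort `s` and quantifier-free formulas with `m t` free variables of
  the sort `t`, for each sort `t`.
* `Pre S l m`: prenex formulas with the list `l` of quantifier blocks (`true` is a block of
  existential, `false` a block of universal quantifiers; blocks may be empty).
* `Th l M`: the sentences with the list `l` of quantifier blocks which are true in `M`.
* `ValField`: valued fields; `ValField.Henselian`.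
* `ringStr`, `oagStr`, `valStr`: rings, ordered abelian groups and valued fields as structures.
-/

set_option autoImplicit false

universe u

namespace Pool.Agent.Helper71.AKE

/-! ### Logic -/

/-- A many-sorted first-order signature: sorts, function symbols with the sorts of their arguments
and values, and relation symbols with the sorts of their arguments. -/
structure Sig where
  Srt : Type
  Fn : Type
  Rl : Type
  far : Fn → ℕ
  fdom : (f : Fn) → Fin (far f) → Srt
  fcod : Fn → Srt
  rar : Rl → ℕ
  rdom : (R : Rl) → Fin (rar R) → Srt

/-- Terms of sort `s` with `m t` free variables of each sort `t`. -/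
inductive Tm (S : Sig) (m : S.Srt → ℕ) : S.Srt → Type
  | var (s : S.Srt) (i : Fin (m s)) : Tm S m s
  | app (f : S.Fn) (t : ∀ i, Tm S m (S.fdom f i)) : Tm S m (S.fcod f)

/-- Quantifier-free formulas. -/
inductive QF (S : Sig) (m : S.Srt → ℕ) : Type
  | tru : QF S m
  | eq (s : S.Srt) (t u : Tm S m s) : QF S m
  | rel (R : S.Rl) (t : ∀ i, Tm S m (S.rdom R i)) : QF S m
  | not (φ : QF S m) : QF S m
  | and (φ ψ : QF S m) : QF S m

/-- Prenex formulas with a given list of quantifier blocks; the block with the numbers `n` binds
`n s` variables of each sort `s`. -/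
inductive Pre (S : Sig) : List Bool → (S.Srt → ℕ) → Type
  | qf {m : S.Srt → ℕ} (φ : QF S m) : Pre S [] m
  | blk {l : List Bool} {m : S.Srt → ℕ} (q : Bool) (n : S.Srt → ℕ)
      (φ : Pre S l (fun s => m s + n s)) : Pre S (q :: l) m

/-- Structures for a signature. -/
structure Str (S : Sig) where
  A : S.Srt → Type u
  fn : (f : S.Fn) → (∀ i, A (S.fdom f i)) → A (S.fcod f)
  rl : (R : S.Rl) → (∀ i, A (S.rdom R i)) → Prop

variable {S : Sig}

/-- The value of a term under an assignment. -/
def Tm.ev (M : Str.{u} S) {m : S.Srt → ℕ} (e : ∀ s, Fin (m s) → M.A s) :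
    {s : S.Srt} → Tm S m s → M.A s
  | _, .var s i => e s i
  | _, .app f t => M.fn f (fun i => (t i).ev M e)

/-- Truth of a quantifier-free formula under an assignment. -/
def QF.Holds (M : Str.{u} S) {m : S.Srt → ℕ} (e : ∀ s, Fin (m s) → M.A s) : QF S m → Prop
  | .tru => True
  | .eq _ t u => t.ev M e = u.ev M e
  | .rel R t => M.rl R (fun i => (t i).ev M e)
  | .not φ => ¬ φ.Holds M e
  | .and φ ψ => φ.Holds M e ∧ ψ.Holds M e

/-- The assignment for a formula below a block of quantifiers. -/
def app2 {M : S.Srt → Type u} {m n : S.Srt → ℕ} (e : ∀ s, Fin (m s) → M s)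
    (x : ∀ s, Fin (n s) → M s) : ∀ s, Fin (m s + n s) → M s :=
  fun s => Fin.append (e s) (x s)

/-- Truth of a prenex formula under an assignment. -/
def Pre.Holds (M : Str.{u} S) : {l : List Bool} → {m : S.Srt → ℕ} → Pre S l m →
    (∀ s, Fin (m s) → M.A s) → Prop
  | _, _, .qf φ, e => φ.Holds M e
  | _, _, .blk true _ φ, e => ∃ x, φ.Holds M (app2 e x)
  | _, _, .blk false _ φ, e => ∀ x, φ.Holds M (app2 e x)

/-- The sentences with the list `l` of quantifier blocks which are true in `M`. -/
def Th (l : List Bool) (M : Str.{u} S) : Set (Pre S l (fun _ => 0)) :=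
  {φ | φ.Holds M (fun _ i => Fin.elim0 i)}

/-- The standard fragments: `std n` consists of `n` alternating quantifier blocks, the last one
existential. -/
def std : ℕ → List Bool
  | 0 => []
  | n + 1 => decide (Even n) :: std n

/-! ### Valued fields -/

/-- A valued field `(K, v)`, presented by its three sorts: the field `K`, the residue field `k`, and
the value group `G`, an ordered abelian group; `v x = ⊤` exactly for `x = 0`.  The residue map is
a surjective ring homomorphism on the valuation ring `{x | 0 ≤ v x}`, with kernel the maximal ideal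
`{x | 0 < v x}`, and it is `0` outside the valuation ring. -/
structure ValField where
  K : Type u
  k : Type u
  G : Type u
  [fieldK : Field K]
  [fieldk : Field k]
  [groupG : AddCommGroup G]
  [orderG : LinearOrder G]
  [ordG : IsOrderedAddMonoid G]
  v : K → WithTop G
  res : K → k
  v_top : ∀ x, v x = ⊤ ↔ x = 0
  v_mul : ∀ x y, v (x * y) = v x + v y
  v_add : ∀ x y, min (v x) (v y) ≤ v (x + y)
  v_surj : ∀ g : G, ∃ x, v x = g
  res_one : res 1 = 1
  res_add : ∀ x y, 0 ≤ v x → 0 ≤ v y → res (x + y) = res x + res y
  res_mul : ∀ x y, 0 ≤ v x → 0 ≤ v y → res (x * y) = res x * res y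
  res_surj : ∀ a, ∃ x, 0 ≤ v x ∧ res x = a
  res_ker : ∀ x, 0 ≤ v x → (res x = 0 ↔ 0 < v x)
  res_out : ∀ x, v x < 0 → res x = 0

attribute [instance] ValField.fieldK ValField.fieldk ValField.groupG ValField.orderG ValField.ordG

/-- Henselian: every monic polynomial over the valuation ring with a simple root modulo the
maximal ideal has a root congruent to it. -/
def ValField.Henselian (M : ValField.{u}) : Prop :=
  ∀ f : Polynomial M.K, f.Monic → (∀ i, 0 ≤ M.v (f.coeff i)) → ∀ a : M.K, 0 ≤ M.v a →
    0 < M.v (f.eval a) → M.v (f.derivative.eval a) = 0 →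
      ∃ b : M.K, 0 ≤ M.v b ∧ f.eval b = 0 ∧ 0 < M.v (b - a)

/-! ### Languages -/

/-- function symbols of the language of rings -/
inductive RFn
  | zero | one | add | neg | mul

/-- the numbers of arguments -/
def RFn.ar : RFn → ℕ
  | zero => 0
  | one => 0
  | add => 2
  | neg => 1
  | mul => 2

/-- The language of rings `{0, 1, +, -, *}`. -/
def ringSig : Sig where
  Srt := Unit
  Fn := RFn
  Rl := Empty
  far := RFn.ar
  fdom := fun _ _ => ()
  fcod := fun _ => ()
  rar := fun _ => 0
  rdom := fun _ _ => ()

/-- A ring as a structure for the language of rings. -/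
def ringStr (k : Type u) [Ring k] : Str.{u} ringSig where
  A := fun _ => k
  fn := fun f => match f with
    | .zero => fun _ => (0 : k)
    | .one => fun _ => (1 : k)
    | .add => fun (x : Fin 2 → k) => x 0 + x 1
    | .neg => fun (x : Fin 1 → k) => - x 0
    | .mul => fun (x : Fin 2 → k) => x 0 * x 1
  rl := fun _ _ => False

/-- function symbols of the language of ordered abelian groups -/
inductive OFn
  | zero | add | neg

/-- the numbers of arguments -/
def OFn.ar : OFn → ℕ
  | zero => 0
  | add => 2
  | neg => 1

/-- The language of ordered abelian groups `{0, +, -, <}`. -/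
def oagSig : Sig where
  Srt := Unit
  Fn := OFn
  Rl := Unit
  far := OFn.ar
  fdom := fun _ _ => ()
  fcod := fun _ => ()
  rar := fun _ => 2
  rdom := fun _ _ => ()

/-- An ordered abelian group as a structure for the language of ordered abelian groups. -/
def oagStr (G : Type u) [AddCommGroup G] [LinearOrder G] : Str.{u} oagSig where
  A := fun _ => G
  fn := fun f => match f with
    | .zero => fun _ => (0 : G)
    | .add => fun (x : Fin 2 → G) => x 0 + x 1
    | .neg => fun (x : Fin 1 → G) => - x 0
  rl := fun _ (x : Fin 2 → G) => x 0 < x 1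

/-- the three sorts: field, residue field, value group -/
inductive VSrt
  | F | R | G

/-- function symbols of the three-sorted language of valued fields -/
inductive VFn
  | fzero | fone | fadd | fneg | fmul
  | rzero | rone | radd | rneg | rmul
  | gzero | ginf | gadd | gneg
  | v | res

/-- the numbers of arguments -/
def VFn.ar : VFn → ℕ
  | fzero | fone | rzero | rone | gzero | ginf => 0
  | fneg | rneg | gneg | v | res => 1
  | fadd | fmul | radd | rmul | gadd => 2

/-- the sort of the arguments -/
def VFn.dom : VFn → VSrt
  | fzero | fone | fadd | fneg | fmul | v | res => .F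
  | rzero | rone | radd | rneg | rmul => .R
  | gzero | ginf | gadd | gneg => .G

/-- the sort of the values -/
def VFn.cod : VFn → VSrt
  | fzero | fone | fadd | fneg | fmul => .F
  | rzero | rone | radd | rneg | rmul | res => .R
  | gzero | ginf | gadd | gneg | v => .G

/-- The three-sorted language of valued fields: the language of rings on the field sort `F` and on
the residue-field sort `R`, the language of ordered abelian groups and the symbol `∞` on the
value-group sort `G`, the valuation `v : F → G` and the residue map `res : F → R`. -/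
def valSig : Sig where
  Srt := VSrt
  Fn := VFn
  Rl := Unit
  far := VFn.ar
  fdom := fun f _ => f.dom
  fcod := VFn.cod
  rar := fun _ => 2
  rdom := fun _ _ => .G

/-- the carriers of the sorts of a valued field; the value-group sort is `G ∪ {∞}` -/
def ValField.Car (M : ValField.{u}) : VSrt → Type u
  | .F => M.K
  | .R => M.k
  | .G => WithTop M.G

/-- A valued field as a structure for the three-sorted language.  As usual, `v 0 = ∞`, `- ∞ = ∞`,
`∞ + g = ∞`, `g < ∞` for `g ≠ ∞`, and the residue map is `0` outside the valuation ring. -/
noncomputable def valStr (M : ValField.{u}) : Str.{u} valSig where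
  A := M.Car
  fn := fun f => match f with
    | .fzero => fun _ => (0 : M.K)
    | .fone => fun _ => (1 : M.K)
    | .fadd => fun (x : Fin 2 → M.K) => x 0 + x 1
    | .fneg => fun (x : Fin 1 → M.K) => - x 0
    | .fmul => fun (x : Fin 2 → M.K) => x 0 * x 1
    | .rzero => fun _ => (0 : M.k)
    | .rone => fun _ => (1 : M.k)
    | .radd => fun (x : Fin 2 → M.k) => x 0 + x 1
    | .rneg => fun (x : Fin 1 → M.k) => - x 0
    | .rmul => fun (x : Fin 2 → M.k) => x 0 * x 1
    | .gzero => fun _ => (0 : WithTop M.G)
    | .ginf => fun _ => (⊤ : WithTop M.G)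
    | .gadd => fun (x : Fin 2 → WithTop M.G) => x 0 + x 1
    | .gneg => fun (x : Fin 1 → WithTop M.G) => - x 0
    | .v => fun (x : Fin 1 → M.K) => M.v (x 0)
    | .res => fun (x : Fin 1 → M.K) => M.res (x 0)
  rl := fun _ (x : Fin 2 → WithTop M.G) => x 0 < x 1

end Pool.Agent.Helper71.AKE
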