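import Pool.Agent.Helper71.AKE.VF

/-!
# Partial embeddings of valued fields and simple extensions
-/

set_option autoImplicit false

universe u

namespace Pool.Agent.Helper71.AKE

open Polynomial

/-- a cross-section of the valuation -/
structure CS (M : ValField.{u}) where
  s : M.G → M.K
  v_s : ∀ g, M.v (s g) = g
  s_add : ∀ g h, s (g + h) = s g * s h

namespace CS

variable {M : ValField.{u}} (c : CS M)

theorem ne_zero (g : M.G) : c.s g ≠ 0 := by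
  rw [← M.v_ne_top, c.v_s]
  exact WithTop.coe_ne_top

theorem vg_s (g : M.G) : M.vg (c.s g) = g := M.vg_eq_of (c.v_s g)

theorem s_zero : c.s 0 = 1 := by
  have h := c.s_add 0 0
  rw [add_zero] at h
  exact (mul_eq_left₀ (c.ne_zero 0)).1 h.symm

theorem s_nsmul (g : M.G) (n : ℕ) : c.s (n • g) = c.s g ^ n := by
  induction n with
  | zero => rw [zero_nsmul, pow_zero, s_zero]
  | succ n ih => rw [succ_nsmul, c.s_add, ih, pow_succ]

theorem s_neg (g : M.G) : c.s (-g) = (c.s g)⁻¹ := by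
  have h := c.s_add (-g) g
  rw [neg_add_cancel, s_zero] at h
  exact eq_inv_of_mul_eq_one_left h.symm

theorem s_sub (g h : M.G) : c.s (g - h) = c.s g * (c.s h)⁻¹ := by
  rw [sub_eq_add_neg, c.s_add, s_neg]

end CS

variable {P N : ValField.{u}}

section Rho

variable (ρ : P.G →+ N.G)

/-- the extension to infinity -/
def rh (g : WithTop P.G) : WithTop N.G := WithTop.map ρ g

theorem rh_add (a b : WithTop P.G) : rh ρ (a + b) = rh ρ a + rh ρ b :=
  (ρ.withTopMap).map_add a b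

theorem rh_zero : rh ρ 0 = 0 := (ρ.withTopMap).map_zero

theorem rh_coe (g : P.G) : rh ρ (g : WithTop P.G) = ((ρ g : N.G) : WithTop N.G) := rfl

theorem rh_top : rh ρ ⊤ = ⊤ := rfl

theorem rh_eq_top {a : WithTop P.G} : rh ρ a = ⊤ ↔ a = ⊤ := WithTop.map_eq_top_iff

variable {ρ}

theorem rh_lt (hρ : StrictMono ρ) {a b : WithTop P.G} : rh ρ a < rh ρ b ↔ a < b :=
  (WithTop.strictMono_map_iff.2 hρ).lt_iff_lt

theorem rh_le (hρ : StrictMono ρ) {a b : WithTop P.G} : rh ρ a ≤ rh ρ b ↔ a ≤ b :=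
  (WithTop.strictMono_map_iff.2 hρ).le_iff_le

theorem rh_inj (hρ : StrictMono ρ) {a b : WithTop P.G} : rh ρ a = rh ρ b ↔ a = b :=
  (WithTop.strictMono_map_iff.2 hρ).injective.eq_iff

theorem rh_nonneg (hρ : StrictMono ρ) {a : WithTop P.G} : 0 ≤ rh ρ a ↔ 0 ≤ a := by
  rw [← rh_zero ρ, rh_le hρ]

theorem rh_pos (hρ : StrictMono ρ) {a : WithTop P.G} : 0 < rh ρ a ↔ 0 < a := by
  rw [← rh_zero ρ, rh_lt hρ]

theorem rh_nsmul (a : WithTop P.G) (n : ℕ) : rh ρ (n • a) = n • rh ρ a :=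
  (ρ.withTopMap).map_nsmul n a

end Rho

/-- the first coordinate, on the subring `T` -/
def i1 (T : Subring (P.K × N.K)) : ↥T →+* P.K := (RingHom.fst P.K N.K).comp T.subtype

/-- the second coordinate, on the subring `T` -/
def i2 (T : Subring (P.K × N.K)) : ↥T →+* N.K := (RingHom.snd P.K N.K).comp T.subtype

/-- partial embeddings of valued fields with given maps of residue fields and value groups, which
respect cross-sections -/
structure Nice (cP : CS P) (cN : CS N) (σ : P.k →+* N.k) (ρ : P.G →+ N.G)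
    (T : Subring (P.K × N.K)) : Prop where
  inv : ∀ t ∈ T, (t.1⁻¹, t.2⁻¹) ∈ T
  val : ∀ t ∈ T, N.v t.2 = rh ρ (P.v t.1)
  res : ∀ t ∈ T, 0 ≤ P.v t.1 → N.res t.2 = σ (P.res t.1)
  cs : ∀ t ∈ T, t.1 ≠ 0 → (cP.s (P.vg t.1), cN.s (ρ (P.vg t.1))) ∈ T

theorem zero_iff_of_val {ρ : P.G →+ N.G} {x : P.K} {y : N.K} (h : N.v y = rh ρ (P.v x)) :
    x = 0 ↔ y = 0 := by
  rw [← P.v_top, ← N.v_top, h, rh_eq_top]

theorem eval_i1 {T : Subring (P.K × N.K)} (p : Polynomial ↥T) (x : P.K) :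
    p.eval₂ (i1 T) x = (p.map (i1 T)).eval x := (eval_map _ _).symm

theorem eval_i2 {T : Subring (P.K × N.K)} (p : Polynomial ↥T) (y : N.K) :
    p.eval₂ (i2 T) y = (p.map (i2 T)).eval y := (eval_map _ _).symm

/-- the field generated by `T` and `(x, y)` -/
def adj (T : Subring (P.K × N.K)) (x : P.K) (y : N.K)
    (h0 : ∀ p : Polynomial ↥T, p.eval₂ (i1 T) x = 0 ↔ p.eval₂ (i2 T) y = 0) :
    Subring (P.K × N.K) where
  carrier := {w | ∃ p q : Polynomial ↥T, q.eval₂ (i1 T) x ≠ 0 ∧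
    w.1 = p.eval₂ (i1 T) x / q.eval₂ (i1 T) x ∧ w.2 = p.eval₂ (i2 T) y / q.eval₂ (i2 T) y}
  one_mem' := ⟨1, 1, by simp, by simp, by simp⟩
  zero_mem' := ⟨0, 1, by simp, by simp, by simp⟩
  mul_mem' := by
    rintro a b ⟨p, q, h1, h2, h3⟩ ⟨p', q', h1', h2', h3'⟩
    refine ⟨p * p', q * q', ?_, ?_, ?_⟩
    · rw [eval₂_mul]; exact mul_ne_zero h1 h1'
    · rw [Prod.fst_mul, h2, h2', eval₂_mul, eval₂_mul, div_mul_div_comm]
    · rw [Prod.snd_mul, h3, h3', eval₂_mul, eval₂_mul, div_mul_div_comm]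
  add_mem' := by
    rintro a b ⟨p, q, h1, h2, h3⟩ ⟨p', q', h1', h2', h3'⟩
    have g1 : q.eval₂ (i2 T) y ≠ 0 := fun h => h1 ((h0 q).2 h)
    have g1' : q'.eval₂ (i2 T) y ≠ 0 := fun h => h1' ((h0 q').2 h)
    refine ⟨p * q' + q * p', q * q', ?_, ?_, ?_⟩
    · rw [eval₂_mul]; exact mul_ne_zero h1 h1'
    · rw [Prod.fst_add, h2, h2', eval₂_mul, eval₂_add, eval₂_mul, eval₂_mul,
        div_add_div _ _ h1 h1']
    · rw [Prod.snd_add, h3, h3', eval₂_mul, eval₂_add, eval₂_mul, eval₂_mul,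
        div_add_div _ _ g1 g1']
  neg_mem' := by
    rintro a ⟨p, q, h1, h2, h3⟩
    refine ⟨-p, q, h1, ?_, ?_⟩
    · rw [Prod.fst_neg, h2, eval₂_neg, neg_div]
    · rw [Prod.snd_neg, h3, eval₂_neg, neg_div]

section adj

variable {T : Subring (P.K × N.K)} {x : P.K} {y : N.K} {ρ : P.G →+ N.G}

theorem h0_of (hA : ∀ p : Polynomial ↥T, N.v (p.eval₂ (i2 T) y) = rh ρ (P.v (p.eval₂ (i1 T) x)))
    (p : Polynomial ↥T) : p.eval₂ (i1 T) x = 0 ↔ p.eval₂ (i2 T) y = 0 := zero_iff_of_val (hA p)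

theorem val_div {a b : P.K} {a' b' : N.K} (ha : N.v a' = rh ρ (P.v a))
    (hb : N.v b' = rh ρ (P.v b)) (h : b ≠ 0) : N.v (a' / b') = rh ρ (P.v (a / b)) := by
  have h' : b' ≠ 0 := fun h1 => h ((zero_iff_of_val hb).2 h1)
  have h1 : N.v b' + N.v (a' / b') = N.v b' + rh ρ (P.v (a / b)) := by
    rw [← N.v_mul, mul_div_cancel₀ a' h', ha, hb, ← rh_add, ← P.v_mul, mul_div_cancel₀ a h]
  exact WithTop.add_left_cancel (N.v_ne_top.2 h') h1

variable (hA : ∀ p : Polynomial ↥T, N.v (p.eval₂ (i2 T) y) = rh ρ (P.v (p.eval₂ (i1 T) x)))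

theorem adj_val (w : P.K × N.K) (hw : w ∈ adj T x y (h0_of hA)) :
    N.v w.2 = rh ρ (P.v w.1) := by
  obtain ⟨p, q, h1, h2, h3⟩ := hw
  rw [h2, h3]
  exact val_div (hA p) (hA q) h1

theorem adj_inv (w : P.K × N.K) (hw : w ∈ adj T x y (h0_of hA)) :
    (w.1⁻¹, w.2⁻¹) ∈ adj T x y (h0_of hA) := by
  by_cases h : w.1 = 0
  · have h' := (zero_iff_of_val (adj_val hA w hw)).1 h
    rw [h, h', inv_zero, inv_zero]
    exact (adj T x y (h0_of hA)).zero_mem
  · obtain ⟨p, q, h1, h2, h3⟩ := hw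
    refine ⟨q, p, ?_, ?_, ?_⟩
    · intro h4
      rw [h4, zero_div] at h2
      exact h h2
    · show w.1⁻¹ = _
      rw [h2, inv_div]
    · show w.2⁻¹ = _
      rw [h3, inv_div]

theorem le_adj (h0 : ∀ p : Polynomial ↥T, p.eval₂ (i1 T) x = 0 ↔ p.eval₂ (i2 T) y = 0) :
    T ≤ adj T x y h0 := by
  intro t ht
  refine ⟨C ⟨t, ht⟩, 1, by simp, ?_, ?_⟩
  · simp [i1]
  · simp [i2]

theorem mem_adj (h0 : ∀ p : Polynomial ↥T, p.eval₂ (i1 T) x = 0 ↔ p.eval₂ (i2 T) y = 0) :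
    (x, y) ∈ adj T x y h0 := by
  refine ⟨X, 1, by simp, ?_, ?_⟩ <;> simp

end adj

section mod

variable {T : Subring (P.K × N.K)} {x : P.K} {y : N.K}

/-- reduction modulo a monic polynomial with the root `(x, y)` -/
theorem eval_mod {μ : Polynomial ↥T} (h1 : μ.eval₂ (i1 T) x = 0)
    (h2 : μ.eval₂ (i2 T) y = 0) (p : Polynomial ↥T) :
    (p %ₘ μ).eval₂ (i1 T) x = p.eval₂ (i1 T) x ∧ (p %ₘ μ).eval₂ (i2 T) y = p.eval₂ (i2 T) y := by
  have h := modByMonic_add_div p μ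
  constructor
  · conv_rhs => rw [← h]
    rw [eval₂_add, eval₂_mul, h1, zero_mul, add_zero]
  · conv_rhs => rw [← h]
    rw [eval₂_add, eval₂_mul, h2, zero_mul, add_zero]

end mod

/-- If the residue field of `T` is everything, then compatibility with the residue map follows from
compatibility with the valuation. -/
theorem res_of_full {σ : P.k →+* N.k} {ρ : P.G →+ N.G} (hρ : StrictMono ρ)
    {cP : CS P} {cN : CS N} {T : Subring (P.K × N.K)} (hT : Nice cP cN σ ρ T)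
    (hfull : ∀ a : P.k, ∃ t ∈ T, 0 ≤ P.v t.1 ∧ P.res t.1 = a)
    {T' : Subring (P.K × N.K)} (hTT' : T ≤ T') (hval : ∀ t ∈ T', N.v t.2 = rh ρ (P.v t.1))
    (w : P.K × N.K) (hw : w ∈ T') (h : 0 ≤ P.v w.1) : N.res w.2 = σ (P.res w.1) := by
  obtain ⟨t, ht, h1, h2⟩ := hfull (P.res w.1)
  have h3 := hval _ (T'.sub_mem hw (hTT' ht))
  have h4 : 0 < P.v (w.1 - t.1) := (P.res_eq_iff h h1).1 h2.symm
  have h5 : 0 < N.v (w.2 - t.2) := by
    have : N.v (w.2 - t.2) = rh ρ (P.v (w.1 - t.1)) := h3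
    rw [this, rh_pos hρ]
    exact h4
  have h6 : 0 ≤ N.v w.2 := by rw [hval w hw, rh_nonneg hρ]; exact h
  have h7 : 0 ≤ N.v t.2 := by rw [hval t (hTT' ht), rh_nonneg hρ]; exact h1
  rw [(N.res_eq_iff h6 h7).2 h5, hT.res t ht h1, h2]

end Pool.Agent.Helper71.AKE
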