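import Pool.Agent.Helper71.AKE.ExtR

/-!
# Extending partial embeddings: the value group
-/

set_option autoImplicit false

universe u

namespace Pool.Agent.Helper71.AKE

open Polynomial

variable {P N : ValField.{u}} {cP : CS P} {cN : CS N} {σ : P.k →+* N.k} {ρ : P.G →+ N.G}
  {T : Subring (P.K × N.K)}

/-- a polynomial whose value at `x` is the value of a monomial -/
def RegG (T : Subring (P.K × N.K)) (x : P.K) (y : N.K) (p : Polynomial ↥T) : Prop :=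
  (p.eval₂ (i1 T) x = 0 ∧ p.eval₂ (i2 T) y = 0) ∨
  ∃ (c : ↥T) (i : ℕ), c.1.1 ≠ 0 ∧ P.v (p.eval₂ (i1 T) x) = P.v (c.1.1 * x ^ i) ∧
    N.v (p.eval₂ (i2 T) y) = N.v (c.1.2 * y ^ i)

theorem v_mono (hT : Nice cP cN σ ρ T) (γ : P.G) (c : ↥T) (i : ℕ) :
    N.v (c.1.2 * cN.s (ρ γ) ^ i) = rh ρ (P.v (c.1.1 * cP.s γ ^ i)) := by
  rw [N.v_mul, N.v_pow, cN.v_s, P.v_mul, P.v_pow, cP.v_s, rh_add, rh_nsmul, rh_coe,
    hT.val _ c.2]

theorem nice_of_regG (hρ : StrictMono ρ) (hT : Nice cP cN σ ρ T)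
    (hfull : ∀ a : P.k, ∃ t ∈ T, 0 ≤ P.v t.1 ∧ P.res t.1 = a) (γ : P.G)
    (h : ∀ p : Polynomial ↥T, RegG T (cP.s γ) (cN.s (ρ γ)) p) :
    ∃ T' : Subring (P.K × N.K), Nice cP cN σ ρ T' ∧ T ≤ T' ∧ (cP.s γ, cN.s (ρ γ)) ∈ T' := by
  have hA : ∀ p : Polynomial ↥T,
      N.v (p.eval₂ (i2 T) (cN.s (ρ γ))) = rh ρ (P.v (p.eval₂ (i1 T) (cP.s γ))) := by
    intro p
    rcases h p with ⟨h1, h2⟩ | ⟨c, i, h1, h2, h3⟩
    · rw [h1, h2, P.v_zero, N.v_zero]; rfl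
    · rw [h2, h3, v_mono hT]
  set T' := adj T (cP.s γ) (cN.s (ρ γ)) (h0_of hA) with hT'
  have hle : T ≤ T' := le_adj _
  have hmem : (cP.s γ, cN.s (ρ γ)) ∈ T' := mem_adj _
  have hinv : ∀ w ∈ T', (w.1⁻¹, w.2⁻¹) ∈ T' := adj_inv hA
  have hval : ∀ w ∈ T', N.v w.2 = rh ρ (P.v w.1) := adj_val hA
  refine ⟨T', ⟨hinv, hval, ?_, ?_⟩, hle, hmem⟩
  · exact fun w hw hw0 => res_of_full hρ hT hfull hle hval w hw hw0
  · intro w hw hw0
    obtain ⟨p, q, h1, h2, h3⟩ := hw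
    rcases h p with ⟨hp1, hp2⟩ | ⟨c, i, hp1, hp2, hp3⟩
    · exact absurd (by rw [h2, hp1, zero_div]) hw0
    rcases h q with ⟨hq1, hq2⟩ | ⟨d, j, hq1, hq2, hq3⟩
    · exact absurd hq1 h1
    have hp0 : p.eval₂ (i1 T) (cP.s γ) ≠ 0 := by
      intro h4
      rw [h4, zero_div] at h2
      exact hw0 h2
    have ep : P.vg (p.eval₂ (i1 T) (cP.s γ)) = P.vg c.1.1 + i • γ := by
      apply P.vg_eq_of
      rw [hp2, P.v_mul, P.v_pow, cP.v_s, WithTop.coe_add, P.coe_vg hp1, WithTop.coe_nsmul]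
    have eq : P.vg (q.eval₂ (i1 T) (cP.s γ)) = P.vg d.1.1 + j • γ := by
      apply P.vg_eq_of
      rw [hq2, P.v_mul, P.v_pow, cP.v_s, WithTop.coe_add, P.coe_vg hq1, WithTop.coe_nsmul]
    have ew : P.vg w.1 = (P.vg c.1.1 + i • γ) - (P.vg d.1.1 + j • γ) := by
      have h4 : P.vg (w.1 * q.eval₂ (i1 T) (cP.s γ)) =
          P.vg w.1 + P.vg (q.eval₂ (i1 T) (cP.s γ)) := P.vg_mul hw0 h1
      rw [h2, div_mul_cancel₀ _ h1, ep, eq, ← h2] at h4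
      exact eq_sub_of_add_eq h4.symm
    have mc := hle (hT.cs _ c.2 hp1)
    have md := hle (hT.cs _ d.2 hq1)
    have m1 := T'.mul_mem mc (T'.pow_mem hmem i)
    have m2 := hinv _ (T'.mul_mem md (T'.pow_mem hmem j))
    have m3 := T'.mul_mem m1 m2
    rw [ew]
    have e1 : cP.s ((P.vg c.1.1 + i • γ) - (P.vg d.1.1 + j • γ)) =
        cP.s (P.vg c.1.1) * cP.s γ ^ i * (cP.s (P.vg d.1.1) * cP.s γ ^ j)⁻¹ := by
      rw [cP.s_sub, cP.s_add, cP.s_add, cP.s_nsmul, cP.s_nsmul]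
    have e2 : cN.s (ρ ((P.vg c.1.1 + i • γ) - (P.vg d.1.1 + j • γ))) =
        cN.s (ρ (P.vg c.1.1)) * cN.s (ρ γ) ^ i * (cN.s (ρ (P.vg d.1.1)) * cN.s (ρ γ) ^ j)⁻¹ := by
      rw [map_sub, map_add, map_add, map_nsmul, map_nsmul, cN.s_sub, cN.s_add, cN.s_add,
        cN.s_nsmul, cN.s_nsmul]
    rw [e1, e2]
    exact m3

theorem regG_of (hρ : StrictMono ρ) (hT : Nice cP cN σ ρ T) (γ : P.G) (p : Polynomial ↥T)
    (hp : p ≠ 0)
    (H : ∀ n, 1 ≤ n → n ≤ p.natDegree → ¬ ∃ t ∈ T, t.1 ≠ 0 ∧ P.vg t.1 = n • γ) :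
    RegG T (cP.s γ) (cN.s (ρ γ)) p := by
  classical
  right
  -- distinct values
  have hne : ∀ i, i ∈ p.support → (p.coeff i).1.1 ≠ 0 := by
    intro i hi h
    apply mem_support_iff.1 hi
    have h' := (zero_iff_of_val (hT.val _ (p.coeff i).2)).1 h
    exact Subtype.ext (Prod.ext h h')
  have hdist1 : ∀ i ∈ p.support, ∀ j ∈ p.support, i < j →
      P.v ((p.coeff i).1.1 * cP.s γ ^ i) ≠ P.v ((p.coeff j).1.1 * cP.s γ ^ j) := by
    intro i hi j hj hij h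
    refine H (j - i) (by omega) (le_trans (Nat.sub_le j i) (le_natDegree_of_mem_supp _ hj))
      ⟨_, T.mul_mem (p.coeff i).2 (hT.inv _ (p.coeff j).2), mul_ne_zero (hne i hi)
        (inv_ne_zero (hne j hj)), ?_⟩
    rw [P.v_mul, P.v_mul, P.v_pow, P.v_pow, cP.v_s, ← P.coe_vg (hne i hi), ← P.coe_vg (hne j hj)]
      at h
    have h2 : P.vg (p.coeff i).1.1 + i • γ = P.vg (p.coeff j).1.1 + j • γ := by
      exact_mod_cast h
    have h3 : P.vg ((p.coeff i).1.1 * (p.coeff j).1.1⁻¹) =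
        P.vg (p.coeff i).1.1 - P.vg (p.coeff j).1.1 := by
      have h4 := P.vg_mul (mul_ne_zero (hne i hi) (inv_ne_zero (hne j hj))) (hne j hj)
      rw [inv_mul_cancel_right₀ (hne j hj)] at h4
      exact eq_sub_of_add_eq h4.symm
    refine h3.trans ?_
    have h5 : j • γ = (j - i) • γ + i • γ := by
      rw [← add_nsmul, Nat.sub_add_cancel hij.le]
    rw [h5, ← add_assoc] at h2
    have h6 := add_right_cancel h2
    rw [h6, add_sub_cancel_left]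
  have hdist : ∀ i ∈ p.support, ∀ j ∈ p.support, i ≠ j →
      P.v ((p.coeff i).1.1 * cP.s γ ^ i) ≠ P.v ((p.coeff j).1.1 * cP.s γ ^ j) := by
    intro i hi j hj hij
    rcases lt_or_gt_of_ne hij with h | h
    · exact hdist1 i hi j hj h
    · exact (hdist1 j hj i hi h).symm
  obtain ⟨i, hi, hmin⟩ := Finset.exists_min_image p.support
    (fun i => P.v ((p.coeff i).1.1 * cP.s γ ^ i))
    (by rwa [Finset.nonempty_iff_ne_empty, ne_eq, Polynomial.support_eq_empty])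
  have hmin' : ∀ j ∈ p.support, j ≠ i →
      P.v ((p.coeff i).1.1 * cP.s γ ^ i) < P.v ((p.coeff j).1.1 * cP.s γ ^ j) :=
    fun j hj hji => lt_of_le_of_ne (hmin j hj) (hdist i hi j hj hji.symm)
  refine ⟨p.coeff i, i, hne i hi, ?_, ?_⟩
  · rw [eval₂_eq_sum, sum_def]
    exact P.v_sum_min hi hmin'
  · rw [eval₂_eq_sum, sum_def]
    refine N.v_sum_min hi fun j hj hji => ?_
    have e : ∀ j, N.v ((i2 T) (p.coeff j) * cN.s (ρ γ) ^ j) =
        rh ρ (P.v ((p.coeff j).1.1 * cP.s γ ^ j)) := fun j => v_mono hT γ (p.coeff j) j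
    rw [e, e, rh_lt hρ]
    exact hmin' j hj hji

/-- **Extension of the value group.** -/
theorem ext_grp (hρ : StrictMono ρ) (hT : Nice cP cN σ ρ T)
    (hfull : ∀ a : P.k, ∃ t ∈ T, 0 ≤ P.v t.1 ∧ P.res t.1 = a) (γ : P.G) :
    ∃ T' : Subring (P.K × N.K), Nice cP cN σ ρ T' ∧ T ≤ T' ∧
      ∃ t ∈ T', t.1 ≠ 0 ∧ P.vg t.1 = γ := by
  classical
  suffices h : ∀ p : Polynomial ↥T, RegG T (cP.s γ) (cN.s (ρ γ)) p by
    obtain ⟨T', h1, h2, h3⟩ := nice_of_regG hρ hT hfull γ h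
    exact ⟨T', h1, h2, _, h3, cP.ne_zero γ, cP.vg_s γ⟩
  by_cases h : ∃ n, 1 ≤ n ∧ ∃ t ∈ T, t.1 ≠ 0 ∧ P.vg t.1 = n • γ
  · have hd := Nat.find_spec h
    have hlt : ∀ n, n < Nat.find h → 1 ≤ n → ¬ ∃ t ∈ T, t.1 ≠ 0 ∧ P.vg t.1 = n • γ :=
      fun n hn h1 h2 => Nat.find_min h hn ⟨h1, h2⟩
    obtain ⟨hd1, t, ht, ht0, htd⟩ := hd
    generalize Nat.find h = d at *
    have hcs := hT.cs t ht ht0
    rw [htd] at hcs
    set μ : Polynomial ↥T := X ^ d - C ⟨_, hcs⟩ with hμ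
    have hmon : μ.Monic := monic_X_pow_sub_C _ (by omega)
    have hdeg : μ.natDegree = d := natDegree_X_pow_sub_C
    have h1 : μ.eval₂ (i1 T) (cP.s γ) = 0 := by
      rw [hμ, eval₂_sub, eval₂_X_pow, eval₂_C]
      show cP.s γ ^ d - cP.s (d • γ) = 0
      rw [cP.s_nsmul, sub_self]
    have h2 : μ.eval₂ (i2 T) (cN.s (ρ γ)) = 0 := by
      rw [hμ, eval₂_sub, eval₂_X_pow, eval₂_C]
      show cN.s (ρ γ) ^ d - cN.s (ρ (d • γ)) = 0
      rw [map_nsmul, cN.s_nsmul, sub_self]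
    intro p
    have hmod := eval_mod h1 h2 p
    by_cases hp0 : p %ₘ μ = 0
    · left
      rw [← hmod.1, ← hmod.2, hp0, eval₂_zero, eval₂_zero]
      exact ⟨rfl, rfl⟩
    · have hltd : (p %ₘ μ).natDegree < μ.natDegree := by
        refine natDegree_modByMonic_lt p hmon ?_
        intro h3
        rw [h3, natDegree_one] at hdeg
        omega
      have h4 := regG_of hρ hT γ (p %ₘ μ) hp0 fun n hn1 hn2 => hlt n (by omega) hn1
      unfold RegG at h4 ⊢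
      rw [hmod.1, hmod.2] at h4
      exact h4
  · intro p
    by_cases hp : p = 0
    · left
      rw [hp, eval₂_zero, eval₂_zero]
      exact ⟨rfl, rfl⟩
    · exact regG_of hρ hT γ p hp fun n hn _ h' => h ⟨n, hn, h'⟩

end Pool.Agent.Helper71.AKE
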