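import Pool.Agent.Helper71.AKE.Pc

/-!
# Extending partial embeddings: immediate extensions, and the relative embedding theorem
-/

set_option autoImplicit false

universe u

namespace Pool.Agent.Helper71.AKE

open Polynomial

variable {P N : ValField.{u}} {cP : CS P} {cN : CS N} {σ : P.k →+* N.k} {ρ : P.G →+ N.G}
  {T : Subring (P.K × N.K)}

/-- A form of countable saturation for systems of conditions on distances. -/
def BallSat (N : ValField.{u}) : Prop :=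
  ∀ (b d : ℕ → N.K), (∀ n, ∃ y, ∀ i ≤ n, N.v (y - b i) = N.v (d i)) →
    ∃ y, ∀ i, N.v (y - b i) = N.v (d i)

/-- the filter of good approximations -/
def FT (T : Subring (P.K × N.K)) (x0 : P.K) : Filter ↥T where
  sets := {S | ∃ c0 : ↥T, ∀ c : ↥T, P.v (x0 - c0.1.1) < P.v (x0 - c.1.1) → c ∈ S}
  univ_sets := ⟨0, fun _ _ => Set.mem_univ _⟩
  sets_of_superset := by
    rintro S S' ⟨c0, h⟩ hS
    exact ⟨c0, fun c hc => hS (h c hc)⟩
  inter_sets := by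
    rintro S S' ⟨c0, h⟩ ⟨c1, h'⟩
    rcases le_total (P.v (x0 - c0.1.1)) (P.v (x0 - c1.1.1)) with hle | hle
    · exact ⟨c1, fun c hc => ⟨h c (lt_of_le_of_lt hle hc), h' c hc⟩⟩
    · exact ⟨c0, fun c hc => ⟨h c hc, h' c (lt_of_le_of_lt hle hc)⟩⟩

theorem FT_ev (T : Subring (P.K × N.K)) (x0 : P.K) (c0 : ↥T) :
    ∀ᶠ c in FT T x0, P.v (x0 - c0.1.1) < P.v (x0 - c.1.1) := ⟨c0, fun _ hc => hc⟩

theorem no_max
    (hfull : ∀ a : P.k, ∃ t ∈ T, 0 ≤ P.v t.1 ∧ P.res t.1 = a)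
    (hfullG : ∀ γ : P.G, ∃ t ∈ T, t.1 ≠ 0 ∧ P.vg t.1 = γ) {x0 : P.K}
    (hx : ∀ t ∈ T, t.1 ≠ x0) (c : ↥T) : ∃ c' : ↥T, P.v (x0 - c.1.1) < P.v (x0 - c'.1.1) := by
  have h0 : x0 - c.1.1 ≠ 0 := sub_ne_zero.2 (hx _ c.2).symm
  obtain ⟨t, ht, ht0, htv⟩ := hfullG (P.vg (x0 - c.1.1))
  have hv : P.v t.1 = P.v (x0 - c.1.1) := by rw [← P.coe_vg ht0, htv, P.coe_vg h0]
  have hq : P.v ((x0 - c.1.1) / t.1) = 0 := by
    have h1 : P.v t.1 + P.v ((x0 - c.1.1) / t.1) = P.v t.1 + 0 := by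
      rw [← P.v_mul, mul_div_cancel₀ _ ht0, add_zero, hv]
    exact WithTop.add_left_cancel (P.v_ne_top.2 ht0) h1
  obtain ⟨w, hw, hw1, hw2⟩ := hfull (P.res ((x0 - c.1.1) / t.1))
  refine ⟨⟨c.1 + t * w, T.add_mem c.2 (T.mul_mem ht hw)⟩, ?_⟩
  have h2 : x0 - (c.1 + t * w).1 = t.1 * ((x0 - c.1.1) / t.1 - w.1) := by
    rw [mul_sub, mul_div_cancel₀ _ ht0, Prod.fst_add, Prod.fst_mul]
    ring
  have h3 : 0 < P.v ((x0 - c.1.1) / t.1 - w.1) := (P.res_eq_iff hq.ge hw1).1 hw2.symm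
  show P.v (x0 - c.1.1) < P.v (x0 - (c.1 + t * w).1)
  rw [h2, P.v_mul, hv]
  have h4 : P.v (x0 - c.1.1) + 0 < P.v (x0 - c.1.1) + P.v ((x0 - c.1.1) / t.1 - w.1) :=
    WithTop.add_lt_add_left (P.v_ne_top.2 h0) h3
  rwa [add_zero] at h4

theorem FT_neBot
    (hfull : ∀ a : P.k, ∃ t ∈ T, 0 ≤ P.v t.1 ∧ P.res t.1 = a)
    (hfullG : ∀ γ : P.G, ∃ t ∈ T, t.1 ≠ 0 ∧ P.vg t.1 = γ) {x0 : P.K}
    (hx : ∀ t ∈ T, t.1 ≠ x0) : (FT T x0).NeBot := by
  constructor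
  intro h
  rw [← Filter.empty_mem_iff_bot] at h
  obtain ⟨c0, hc0⟩ := h
  obtain ⟨c, hc⟩ := no_max hfull hfullG hx c0
  exact hc0 c hc

theorem nice_of_val (hρ : StrictMono ρ) (hT : Nice cP cN σ ρ T)
    (hfull : ∀ a : P.k, ∃ t ∈ T, 0 ≤ P.v t.1 ∧ P.res t.1 = a)
    (hfullG : ∀ γ : P.G, ∃ t ∈ T, t.1 ≠ 0 ∧ P.vg t.1 = γ) {x : P.K} {y : N.K}
    (hA : ∀ p : Polynomial ↥T, N.v (p.eval₂ (i2 T) y) = rh ρ (P.v (p.eval₂ (i1 T) x))) :
    ∃ T' : Subring (P.K × N.K), Nice cP cN σ ρ T' ∧ T ≤ T' ∧ (x, y) ∈ T' := by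
  have hle : T ≤ adj T x y (h0_of hA) := le_adj _
  refine ⟨adj T x y (h0_of hA), ⟨adj_inv hA, adj_val hA, ?_, ?_⟩, hle, mem_adj _⟩
  · exact fun w hw hw0 => res_of_full hρ hT hfull hle (adj_val hA) w hw hw0
  · intro w _ _
    obtain ⟨t, ht, ht0, htv⟩ := hfullG (P.vg w.1)
    have := hT.cs t ht ht0
    rw [htv] at this
    exact hle this

theorem eval_pt1 (q : Polynomial ↥T) (c : ↥T) :
    (q.map (i1 T)).eval c.1.1 = (q.eval c).1.1 := by
  rw [eval_map]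
  exact eval₂_at_apply (i1 T) c

theorem eval_pt2 (q : Polynomial ↥T) (c : ↥T) :
    (q.map (i2 T)).eval c.1.2 = (q.eval c).1.2 := by
  rw [eval_map]
  exact eval₂_at_apply (i2 T) c

theorem stab_transfer (hT : Nice cP cN σ ρ T) {F : Filter ↥T} {q : Polynomial ↥T}
    {β : WithTop P.G} (h : ∀ᶠ c in F, P.v ((q.map (i1 T)).eval c.1.1) = β) :
    ∀ᶠ c in F, N.v ((q.map (i2 T)).eval c.1.2) = rh ρ β := by
  filter_upwards [h] with c hc
  rw [eval_pt1] at hc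
  rw [eval_pt2, hT.val _ (q.eval c).2, hc]

theorem stab_iff (hρ : StrictMono ρ) (hT : Nice cP cN σ ρ T) {F : Filter ↥T} [F.NeBot]
    (q : Polynomial ↥T) : Stab P F (fun c : ↥T => c.1.1) (q.map (i1 T)) ↔
      Stab N F (fun c : ↥T => c.1.2) (q.map (i2 T)) := by
  constructor
  · rintro ⟨β, hβ⟩
    exact ⟨rh ρ β, stab_transfer hT hβ⟩
  · rintro ⟨β', hβ'⟩
    obtain ⟨c0, hc0⟩ := hβ'.exists
    refine ⟨P.v (q.eval c0).1.1, ?_⟩
    filter_upwards [hβ'] with c hc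
    rw [eval_pt2, hT.val _ (q.eval _).2] at hc hc0
    rw [eval_pt1, ← rh_inj hρ, hc, hc0]

/-- **Immediate extensions.** -/
theorem ext_imm [CharZero P.k] [Countable P.K] (hP : P.Henselian) (hN : N.Henselian)
    (hS : BallSat N) (hρ : StrictMono ρ) (hT : Nice cP cN σ ρ T)
    (hfull : ∀ a : P.k, ∃ t ∈ T, 0 ≤ P.v t.1 ∧ P.res t.1 = a)
    (hfullG : ∀ γ : P.G, ∃ t ∈ T, t.1 ≠ 0 ∧ P.vg t.1 = γ) {x0 : P.K}
    (hx : ∀ t ∈ T, t.1 ≠ x0) :
    ∃ T' : Subring (P.K × N.K), Nice cP cN σ ρ T' ∧ T ≤ T' ∧ ¬ T' ≤ T := by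
  classical
  have hNk : CharZero N.k := charZero_of_injective_ringHom σ.injective
  have hNB : (FT T x0).NeBot := FT_neBot hfull hfullG hx
  have hinj : Function.Injective (fun t : ↥T => t.1.1) := by
    intro a b hab
    have h1 : (a - b).1.1 = 0 := sub_eq_zero.2 hab
    have h2 := (zero_iff_of_val (hT.val _ (a - b).2)).1 h1
    exact Subtype.ext (Prod.ext hab (sub_eq_zero.1 h2))
  have hcT : Countable ↥T := hinj.countable
  -- a pseudo-limit in `N`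
  obtain ⟨y0, hy0⟩ : ∃ y0 : N.K, ∀ c : ↥T, N.v (y0 - c.1.2) = rh ρ (P.v (x0 - c.1.1)) := by
    obtain ⟨e, he⟩ := exists_surjective_nat ↥T
    have hd : ∀ c : ↥T, ∃ d : N.K, N.v d = rh ρ (P.v (x0 - c.1.1)) := by
      intro c
      obtain ⟨t, ht, ht0, htv⟩ := hfullG (P.vg (x0 - c.1.1))
      refine ⟨t.2, ?_⟩
      rw [hT.val t ht, ← P.coe_vg ht0, htv, P.coe_vg (sub_ne_zero.2 (hx _ c.2).symm)]
    choose d hd using hd
    obtain ⟨y, hy⟩ := hS (fun i => (e i).1.2) (fun i => d (e i)) (by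
      intro n
      have hev : ∀ᶠ c in FT T x0, ∀ i ∈ Finset.range (n + 1),
          P.v (x0 - (e i).1.1) < P.v (x0 - c.1.1) := by
        rw [Filter.eventually_all_finset]
        exact fun i _ => FT_ev T x0 (e i)
      obtain ⟨c, hc⟩ := hev.exists
      refine ⟨c.1.2, fun i hi => ?_⟩
      have h1 := hc i (Finset.mem_range.2 (by omega))
      have h2 := hT.val _ (c - e i).2
      have h3 : P.v (c - e i).1.1 = P.v (x0 - (e i).1.1) := by
        have : (c - e i).1.1 = (x0 - (e i).1.1) - (x0 - c.1.1) := by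
          show c.1.1 - (e i).1.1 = _
          ring
        rw [this, P.v_sub_left h1]
      rw [h3] at h2
      rw [hd]
      exact h2)
    refine ⟨y, fun c => ?_⟩
    obtain ⟨i, rfl⟩ := he c
    rw [hy, hd]
  have hPLof1 : ∀ x : P.K, (∀ c : ↥T, P.v (x - c.1.1) = P.v (x0 - c.1.1)) →
      PL P (FT T x0) (fun c : ↥T => c.1.1) x := by
    intro x hx i
    filter_upwards [FT_ev T x0 i] with c hc
    rw [hx, hx]
    exact hc
  have hPLof2 : ∀ y : N.K, (∀ c : ↥T, N.v (y - c.1.2) = rh ρ (P.v (x0 - c.1.1))) →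
      PL N (FT T x0) (fun c : ↥T => c.1.2) y := by
    intro y hy i
    filter_upwards [FT_ev T x0 i] with c hc
    rw [hy, hy, rh_lt hρ]
    exact hc
  have hreg : ∀ (x : P.K) (y : N.K), (∀ c : ↥T, P.v (x - c.1.1) = P.v (x0 - c.1.1)) →
      (∀ c : ↥T, N.v (y - c.1.2) = rh ρ (P.v (x0 - c.1.1))) → ∀ q : Polynomial ↥T,
      Stab P (FT T x0) (fun c : ↥T => c.1.1) (q.map (i1 T)) →
      N.v (q.eval₂ (i2 T) y) = rh ρ (P.v (q.eval₂ (i1 T) x)) := by
    intro x y hx hy q hq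
    obtain ⟨β, hβ⟩ := hq
    have h1 := stab_val (hPLof1 x hx) hβ
    have h2 := stab_val (hPLof2 y hy) (stab_transfer hT hβ)
    rw [eval_i1, eval_i2, h1, h2]
  -- it is enough to find a regular pair
  suffices h : ∃ (x : P.K) (y : N.K), (∀ c : ↥T, P.v (x - c.1.1) = P.v (x0 - c.1.1)) ∧
      ∀ p : Polynomial ↥T, N.v (p.eval₂ (i2 T) y) = rh ρ (P.v (p.eval₂ (i1 T) x)) by
    obtain ⟨x, y, h1, h2⟩ := h
    obtain ⟨T', hT', hle, hmem⟩ := nice_of_val hρ hT hfull hfullG h2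
    refine ⟨T', hT', hle, fun hle' => ?_⟩
    have h3 := h1 ⟨_, hle' hmem⟩
    have h4 : P.v (x0 - x) = ⊤ := by
      rw [← h3]
      show P.v (x - x) = ⊤
      rw [sub_self, P.v_zero]
    have h5 := (P.v_top _).1 h4
    exact hx _ (hle' hmem) (sub_eq_zero.1 h5).symm
  by_cases hall : ∀ q : Polynomial ↥T, Stab P (FT T x0) (fun c : ↥T => c.1.1) (q.map (i1 T))
  · exact ⟨x0, y0, fun _ => rfl, fun q => hreg x0 y0 (fun _ => rfl) hy0 q (hall q)⟩
  · push Not at hall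
    have hex : ∃ n, ∃ q : Polynomial ↥T, q.natDegree = n ∧
        ¬ Stab P (FT T x0) (fun c : ↥T => c.1.1) (q.map (i1 T)) := by
      obtain ⟨q, hq⟩ := hall
      exact ⟨_, q, rfl, hq⟩
    have hmin : ∀ q : Polynomial ↥T, q.natDegree < Nat.find hex →
        Stab P (FT T x0) (fun c : ↥T => c.1.1) (q.map (i1 T)) := by
      intro q hq
      by_contra h1
      exact Nat.find_min hex hq ⟨q, rfl, h1⟩
    obtain ⟨μ1, hμ1, hns⟩ := Nat.find_spec hex
    generalize Nat.find hex = n at *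
    have hμ10 : μ1 ≠ 0 := by
      rintro rfl
      apply hns
      rw [Polynomial.map_zero]
      exact ⟨⊤, Filter.Eventually.of_forall fun j => by rw [eval_zero, P.v_zero]⟩
    have hlc0 : μ1.leadingCoeff.1.1 ≠ 0 := by
      intro h
      apply leadingCoeff_ne_zero.2 hμ10
      exact hinj h
    have hlc0' : μ1.leadingCoeff.1.2 ≠ 0 := hT.snd_ne_zero μ1.leadingCoeff.2 hlc0
    let w : ↥T := ⟨_, hT.inv _ μ1.leadingCoeff.2⟩
    have hw : w * μ1.leadingCoeff = 1 := by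
      apply Subtype.ext
      exact Prod.ext (inv_mul_cancel₀ hlc0) (inv_mul_cancel₀ hlc0')
    have hw' : μ1.leadingCoeff * w = 1 := by rw [mul_comm]; exact hw
    set μ : Polynomial ↥T := C w * μ1 with hμ
    have hmon : μ.Monic := monic_C_mul_of_mul_leadingCoeff_eq_one hw
    have hμdeg : μ.natDegree = n := by
      rw [← hμ1]
      refine le_antisymm (natDegree_C_mul_le _ _) ?_
      have : μ1 = C μ1.leadingCoeff * μ := by
        rw [hμ, ← mul_assoc, ← C_mul, hw', C_1, one_mul]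
      conv_lhs => rw [this]
      exact natDegree_C_mul_le _ _
    have hμns : ¬ Stab P (FT T x0) (fun c : ↥T => c.1.1) (μ.map (i1 T)) := by
      rintro ⟨β, hβ⟩
      apply hns
      refine ⟨P.v μ1.leadingCoeff.1.1 + β, ?_⟩
      filter_upwards [hβ] with c hc
      rw [← hc, eval_pt1, eval_pt1, ← P.v_mul]
      have : μ1.eval c = μ1.leadingCoeff * μ.eval c := by
        rw [hμ, eval_mul, eval_C, ← mul_assoc, hw', one_mul]
      rw [this]
      rfl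
    have hn0 : n ≠ 0 := by
      intro h0
      rw [h0] at hμdeg
      have h1 := hmon.natDegree_eq_zero.1 hμdeg
      apply hμns
      rw [h1, Polynomial.map_one]
      exact ⟨0, Filter.Eventually.of_forall fun j => by rw [eval_one, P.v_one]⟩
    have hder : Stab P (FT T x0) (fun c : ↥T => c.1.1) ((derivative μ).map (i1 T)) := by
      apply hmin
      rw [← hμdeg]
      exact natDegree_derivative_lt (by rw [hμdeg]; exact hn0)
    have hμns2 : ¬ Stab N (FT T x0) (fun c : ↥T => c.1.2) (μ.map (i2 T)) :=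
      fun h => hμns ((stab_iff hρ hT μ).2 h)
    have hder2 : Stab N (FT T x0) (fun c : ↥T => c.1.2) ((derivative μ).map (i2 T)) :=
      (stab_iff hρ hT _).1 hder
    rw [← derivative_map] at hder hder2
    obtain ⟨x, hx1, hx2⟩ := pl_root hP (hPLof1 x0 fun _ => rfl) hμns hder
    obtain ⟨y, hy1, hy2⟩ := pl_root hN (hPLof2 y0 hy0) hμns2 hder2
    rw [← eval_i1] at hx1
    rw [← eval_i2] at hy1
    refine ⟨x, y, hx2, fun p => ?_⟩
    have hmod := eval_mod hx1 hy1 p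
    rw [← hmod.1, ← hmod.2]
    refine hreg x y hx2 (fun c => by rw [hy2, hy0]) _ (hmin _ ?_)
    rw [← hμdeg]
    refine natDegree_modByMonic_lt p hmon ?_
    intro h3
    rw [h3, natDegree_one] at hμdeg
    exact hn0 hμdeg.symm

/-- **The relative embedding theorem.** -/
theorem rel_embed [CharZero P.k] [Countable P.K] (hP : P.Henselian) (hN : N.Henselian)
    (hS : BallSat N) (hρ : StrictMono ρ) (hT : Nice cP cN σ ρ T) :
    ∃ T' : Subring (P.K × N.K), Nice cP cN σ ρ T' ∧ T ≤ T' ∧ ∀ x : P.K, ∃ t ∈ T', t.1 = x := by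
  obtain ⟨M, hTM, hM⟩ := zorn_le_nonempty₀ {T' : Subring (P.K × N.K) | Nice cP cN σ ρ T'} (by
    intro c hc hchain T1 hT1
    have hne : c.Nonempty := ⟨T1, hT1⟩
    have hdir : DirectedOn (· ≤ ·) c := hchain.directedOn
    have hmem : ∀ t, t ∈ sSup c ↔ ∃ S ∈ c, t ∈ S := fun t =>
      Subring.mem_sSup_of_directedOn hne hdir
    refine ⟨sSup c, ⟨?_, ?_, ?_, ?_⟩, fun S hS => le_sSup hS⟩
    · intro t ht
      obtain ⟨S, hS, htS⟩ := (hmem t).1 ht
      exact (hmem _).2 ⟨S, hS, (hc hS).inv t htS⟩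
    · intro t ht
      obtain ⟨S, hS, htS⟩ := (hmem t).1 ht
      exact (hc hS).val t htS
    · intro t ht h0
      obtain ⟨S, hS, htS⟩ := (hmem t).1 ht
      exact (hc hS).res t htS h0
    · intro t ht h0
      obtain ⟨S, hS, htS⟩ := (hmem t).1 ht
      exact (hmem _).2 ⟨S, hS, (hc hS).cs t htS h0⟩) T hT
  have hMn : Nice cP cN σ ρ M := hM.prop
  have hmax : ∀ T', Nice cP cN σ ρ T' → M ≤ T' → T' ≤ M := fun T' h1 h2 => hM.le_of_ge h1 h2
  have hfull : ∀ a : P.k, ∃ t ∈ M, 0 ≤ P.v t.1 ∧ P.res t.1 = a := by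
    intro a
    obtain ⟨T', h1, h2, t, ht, h3⟩ := ext_res hP hN hρ hMn a
    exact ⟨t, hmax T' h1 h2 ht, h3⟩
  have hfullG : ∀ γ : P.G, ∃ t ∈ M, t.1 ≠ 0 ∧ P.vg t.1 = γ := by
    intro γ
    obtain ⟨T', h1, h2, t, ht, h3⟩ := ext_grp hρ hMn hfull γ
    exact ⟨t, hmax T' h1 h2 ht, h3⟩
  refine ⟨M, hMn, hTM, fun x => ?_⟩
  by_contra hx
  push Not at hx
  obtain ⟨T', h1, h2, h3⟩ := ext_imm hP hN hS hρ hMn hfull hfullG hx
  exact h3 (hmax T' h1 h2)

end Pool.Agent.Helper71.AKE
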