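import Pool.Agent.Helper71.AKE.Ext1

/-!
# Extending partial embeddings: the residue field
-/

set_option autoImplicit false

universe u

namespace Pool.Agent.Helper71.AKE

open Polynomial

variable {P N : ValField.{u}} {cP : CS P} {cN : CS N} {σ : P.k →+* N.k} {ρ : P.G →+ N.G}
  {T : Subring (P.K × N.K)}

theorem Nice.snd_ne_zero (hT : Nice cP cN σ ρ T) {t : P.K × N.K} (ht : t ∈ T) (h : t.1 ≠ 0) :
    t.2 ≠ 0 := fun h' => h ((zero_iff_of_val (hT.val t ht)).2 h')

/-- the residue field of `T` -/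
def kT (hT : Nice cP cN σ ρ T) : Subfield P.k where
  carrier := {a | ∃ t ∈ T, 0 ≤ P.v t.1 ∧ P.res t.1 = a}
  one_mem' := ⟨1, T.one_mem, P.v_one.ge, P.res_one⟩
  zero_mem' := ⟨0, T.zero_mem, by rw [Prod.fst_zero, P.v_zero]; exact le_top, P.res_zero⟩
  mul_mem' := by
    rintro _ _ ⟨t, ht, h1, rfl⟩ ⟨t', ht', h1', rfl⟩
    exact ⟨t * t', T.mul_mem ht ht', P.v_mul_nonneg h1 h1', P.res_mul _ _ h1 h1'⟩
  add_mem' := by
    rintro _ _ ⟨t, ht, h1, rfl⟩ ⟨t', ht', h1', rfl⟩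
    exact ⟨t + t', T.add_mem ht ht', P.v_add_nonneg h1 h1', P.res_add _ _ h1 h1'⟩
  neg_mem' := by
    rintro _ ⟨t, ht, h1, rfl⟩
    exact ⟨-t, T.neg_mem ht, by rw [Prod.fst_neg, P.v_neg]; exact h1, P.res_neg _⟩
  inv_mem' := by
    rintro _ ⟨t, ht, h1, rfl⟩
    by_cases h : P.res t.1 = 0
    · exact ⟨0, T.zero_mem, by rw [Prod.fst_zero, P.v_zero]; exact le_top, by
        rw [h, inv_zero]; exact P.res_zero⟩
    · have h2 := (P.res_ne_zero_iff h1).1 h
      exact ⟨_, hT.inv t ht, by rw [P.v_inv, h2, neg_zero], P.res_inv h2⟩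

/-- the integral elements of `T` -/
def TO (T : Subring (P.K × N.K)) : Subring ↥T where
  carrier := {t | 0 ≤ P.v t.1.1}
  one_mem' := P.v_one.ge
  zero_mem' := by
    show 0 ≤ P.v (0 : P.K)
    rw [P.v_zero]; exact le_top
  mul_mem' := fun h1 h2 => P.v_mul_nonneg h1 h2
  add_mem' := fun h1 h2 => P.v_add_nonneg h1 h2
  neg_mem' := by
    intro t h
    show 0 ≤ P.v (-t.1.1)
    rw [P.v_neg]; exact h

/-- the residue homomorphism of the integral elements -/
def rTO (T : Subring (P.K × N.K)) : ↥(TO T) →+* P.k where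
  toFun t := P.res t.1.1.1
  map_one' := P.res_one
  map_zero' := P.res_zero
  map_mul' t t' := P.res_mul _ _ t.2 t'.2
  map_add' t t' := P.res_add _ _ t.2 t'.2

/-- integral polynomials -/
def IntPoly (p : Polynomial ↥T) : Prop := ∀ i, 0 ≤ P.v (p.coeff i).1.1

theorem IntPoly.map1 {p : Polynomial ↥T} (hp : IntPoly p) (i : ℕ) :
    0 ≤ P.v ((p.map (i1 T)).coeff i) := by
  rw [coeff_map]
  exact hp i

theorem IntPoly.map2 (hρ : StrictMono ρ) (hT : Nice cP cN σ ρ T) {p : Polynomial ↥T}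
    (hp : IntPoly p) (i : ℕ) : 0 ≤ N.v ((p.map (i2 T)).coeff i) := by
  rw [coeff_map]
  show 0 ≤ N.v (p.coeff i).1.2
  rw [hT.val _ (p.coeff i).2, rh_nonneg hρ]
  exact hp i

theorem rp_map2 (hT : Nice cP cN σ ρ T) {p : Polynomial ↥T} (hp : IntPoly p) :
    N.rp (p.map (i2 T)) = (P.rp (p.map (i1 T))).map σ := by
  ext i
  rw [N.coeff_rp, coeff_map, coeff_map, P.coeff_rp, coeff_map]
  exact hT.res _ (p.coeff i).2 (hp i)

theorem v_eval1 {p : Polynomial ↥T} (hp : IntPoly p) {x : P.K} (hx : 0 ≤ P.v x) :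
    0 ≤ P.v (p.eval₂ (i1 T) x) := by
  rw [eval_i1]
  exact P.v_eval_nonneg hp.map1 hx

theorem v_eval2 (hρ : StrictMono ρ) (hT : Nice cP cN σ ρ T) {p : Polynomial ↥T}
    (hp : IntPoly p) {y : N.K} (hy : 0 ≤ N.v y) : 0 ≤ N.v (p.eval₂ (i2 T) y) := by
  rw [eval_i2]
  exact N.v_eval_nonneg (hp.map2 hρ hT) hy

theorem res_eval2 (hρ : StrictMono ρ) (hT : Nice cP cN σ ρ T) {p : Polynomial ↥T}
    (hp : IntPoly p) {x : P.K} {y : N.K} (hx : 0 ≤ P.v x) (hy : 0 ≤ N.v y)
    (hxy : N.res y = σ (P.res x)) :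
    N.res (p.eval₂ (i2 T) y) = σ (P.res (p.eval₂ (i1 T) x)) := by
  rw [eval_i1, eval_i2, P.res_eval hp.map1 hx, N.res_eval (hp.map2 hρ hT) hy, rp_map2 hT hp, hxy,
    eval_map, eval₂_at_apply]

/-- normalisation of a nonzero polynomial -/
theorem normalise (hT : Nice cP cN σ ρ T) {p : Polynomial ↥T} (hp : p ≠ 0) :
    ∃ (c : ↥T) (p' : Polynomial ↥T), c.1.1 ≠ 0 ∧ p = C c * p' ∧ IntPoly p' ∧
      (∃ j, P.v (p'.coeff j).1.1 = 0) ∧ p'.natDegree ≤ p.natDegree := by
  obtain ⟨j, hj, hmin⟩ := Finset.exists_min_image p.support (fun i => P.v (p.coeff i).1.1)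
    (by rwa [Finset.nonempty_iff_ne_empty, ne_eq, Polynomial.support_eq_empty])
  have hcj : p.coeff j ≠ 0 := mem_support_iff.1 hj
  have hc1 : (p.coeff j).1.1 ≠ 0 := by
    intro h
    apply hcj
    have h' := (zero_iff_of_val (hT.val _ (p.coeff j).2)).1 h
    exact Subtype.ext (Prod.ext h h')
  have hc2 : (p.coeff j).1.2 ≠ 0 := hT.snd_ne_zero (p.coeff j).2 hc1
  let ci : ↥T := ⟨_, hT.inv _ (p.coeff j).2⟩
  have hci : p.coeff j * ci = 1 := by
    apply Subtype.ext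
    exact Prod.ext (mul_inv_cancel₀ hc1) (mul_inv_cancel₀ hc2)
  refine ⟨p.coeff j, C ci * p, hc1, ?_, ?_, ⟨j, ?_⟩, ?_⟩
  · rw [← mul_assoc, ← C_mul, hci, C_1, one_mul]
  · intro i
    rw [coeff_C_mul]
    show 0 ≤ P.v ((p.coeff j).1.1⁻¹ * (p.coeff i).1.1)
    rw [P.v_mul]
    by_cases hi : i ∈ p.support
    · have h1 := hmin i hi
      have h2 : P.v (p.coeff j).1.1 + (P.v (p.coeff j).1.1⁻¹ + P.v (p.coeff i).1.1) =
          P.v (p.coeff i).1.1 := by
        rw [← P.v_mul, ← P.v_mul, mul_inv_cancel_left₀ hc1]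
      by_contra h3
      push Not at h3
      have h4 : P.v (p.coeff j).1.1 + (P.v (p.coeff j).1.1⁻¹ + P.v (p.coeff i).1.1) <
          P.v (p.coeff j).1.1 + 0 := by
        exact WithTop.add_lt_add_left (P.v_ne_top.2 hc1) h3
      rw [h2, add_zero] at h4
      exact absurd h1 (not_le.2 h4)
    · have h5 : (p.coeff i).1.1 = 0 := by
        rw [notMem_support_iff.1 hi]
        rfl
      rw [h5, P.v_zero, add_top]
      exact le_top
  · rw [coeff_C_mul]
    show P.v ((p.coeff j).1.1⁻¹ * (p.coeff j).1.1) = 0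
    rw [inv_mul_cancel₀ hc1, P.v_one]
  · exact natDegree_C_mul_le _ _

/-- a polynomial which is a constant times a polynomial with unit value at `x` -/
def RegR (T : Subring (P.K × N.K)) (x : P.K) (y : N.K) (p : Polynomial ↥T) : Prop :=
  (p.eval₂ (i1 T) x = 0 ∧ p.eval₂ (i2 T) y = 0) ∨
  ∃ (c : ↥T) (p' : Polynomial ↥T), c.1.1 ≠ 0 ∧ p.eval₂ (i1 T) x = c.1.1 * p'.eval₂ (i1 T) x ∧
    p.eval₂ (i2 T) y = c.1.2 * p'.eval₂ (i2 T) y ∧ IntPoly p' ∧ P.v (p'.eval₂ (i1 T) x) = 0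

theorem nice_of_regR (hρ : StrictMono ρ) (hT : Nice cP cN σ ρ T) {x : P.K} {y : N.K}
    (hx : 0 ≤ P.v x) (hy : 0 ≤ N.v y) (hxy : N.res y = σ (P.res x))
    (h : ∀ p : Polynomial ↥T, RegR T x y p) :
    ∃ T' : Subring (P.K × N.K), Nice cP cN σ ρ T' ∧ T ≤ T' ∧ (x, y) ∈ T' := by
  have hunit : ∀ p' : Polynomial ↥T, IntPoly p' → P.v (p'.eval₂ (i1 T) x) = 0 →
      N.v (p'.eval₂ (i2 T) y) = 0 := by
    intro p' h1 h2
    have h3 := v_eval2 hρ hT h1 hy
    rw [← N.res_ne_zero_iff h3, res_eval2 hρ hT h1 hx hy hxy]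
    intro h4
    have h5 := σ.injective (h4.trans (map_zero σ).symm)
    exact (P.res_ne_zero_iff (v_eval1 h1 hx)).2 h2 h5
  have hA : ∀ p : Polynomial ↥T,
      N.v (p.eval₂ (i2 T) y) = rh ρ (P.v (p.eval₂ (i1 T) x)) := by
    intro p
    rcases h p with ⟨h1, h2⟩ | ⟨c, p', h1, h2, h3, h4, h5⟩
    · rw [h1, h2, P.v_zero, N.v_zero]; rfl
    · rw [h2, h3, P.v_mul, N.v_mul, h5, hunit p' h4 h5, add_zero, add_zero, hT.val _ c.2]
  refine ⟨adj T x y (h0_of hA), ⟨adj_inv hA, adj_val hA, ?_, ?_⟩, le_adj _, mem_adj _⟩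
  · intro w hw hw0
    have hwv := adj_val hA w hw
    obtain ⟨p, q, h1, h2, h3⟩ := hw
    rcases h p with ⟨hp1, hp2⟩ | ⟨c, p', hp1, hp2, hp3, hp4, hp5⟩
    · rw [h2, h3, hp1, hp2, zero_div, zero_div, P.res_zero, N.res_zero, map_zero]
    rcases h q with ⟨hq1, hq2⟩ | ⟨d, q', hq1, hq2, hq3, hq4, hq5⟩
    · exact absurd hq1 h1
    have hcd : (c.1.1 * d.1.1⁻¹, c.1.2 * d.1.2⁻¹) ∈ T := T.mul_mem c.2 (hT.inv _ d.2)
    have e1 : w.1 = (c.1.1 * d.1.1⁻¹) * (p'.eval₂ (i1 T) x / q'.eval₂ (i1 T) x) := by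
      rw [h2, hp2, hq2, mul_div_mul_comm, div_eq_mul_inv]
    have e2 : w.2 = (c.1.2 * d.1.2⁻¹) * (p'.eval₂ (i2 T) y / q'.eval₂ (i2 T) y) := by
      rw [h3, hp3, hq3, mul_div_mul_comm, div_eq_mul_inv]
    have u1 : P.v (p'.eval₂ (i1 T) x / q'.eval₂ (i1 T) x) = 0 := by
      rw [P.v_div, hp5, hq5, sub_zero]
    have u2 : N.v (p'.eval₂ (i2 T) y / q'.eval₂ (i2 T) y) = 0 := by
      rw [N.v_div, hunit p' hp4 hp5, hunit q' hq4 hq5, sub_zero]
    have c1 : 0 ≤ P.v (c.1.1 * d.1.1⁻¹) := by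
      have := hw0
      rw [e1, P.v_mul, u1, add_zero] at this
      exact this
    have c2 : 0 ≤ N.v (c.1.2 * d.1.2⁻¹) := by
      have := hT.val _ hcd
      rw [this, rh_nonneg hρ]
      exact c1
    rw [e1, e2, P.res_mul _ _ c1 u1.ge, N.res_mul _ _ c2 u2.ge, map_mul,
      P.res_div hp5.ge hq5, N.res_div (hunit p' hp4 hp5).ge (hunit q' hq4 hq5), map_div₀,
      res_eval2 hρ hT hp4 hx hy hxy, res_eval2 hρ hT hq4 hx hy hxy]
    have := hT.res _ hcd c1
    rw [← this]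
  · intro w hw hw0
    apply le_adj
    obtain ⟨p, q, h1, h2, h3⟩ := hw
    rcases h p with ⟨hp1, hp2⟩ | ⟨c, p', hp1, hp2, hp3, hp4, hp5⟩
    · exact absurd (by rw [h2, hp1, zero_div]) hw0
    rcases h q with ⟨hq1, hq2⟩ | ⟨d, q', hq1, hq2, hq3, hq4, hq5⟩
    · exact absurd hq1 h1
    have hcd : (c.1.1 * d.1.1⁻¹, c.1.2 * d.1.2⁻¹) ∈ T := T.mul_mem c.2 (hT.inv _ d.2)
    have e1 : w.1 = (c.1.1 * d.1.1⁻¹) * (p'.eval₂ (i1 T) x / q'.eval₂ (i1 T) x) := by
      rw [h2, hp2, hq2, mul_div_mul_comm, div_eq_mul_inv]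
    have hcd0 : c.1.1 * d.1.1⁻¹ ≠ 0 := mul_ne_zero hp1 (inv_ne_zero hq1)
    have e3 : P.vg w.1 = P.vg (c.1.1 * d.1.1⁻¹) := by
      apply P.vg_eq_of
      rw [P.coe_vg hcd0, e1, P.v_mul, P.v_div, hp5, hq5, sub_zero, add_zero]
    rw [e3]
    exact hT.cs _ hcd hcd0

/-- **Extension of the residue field.** -/
theorem ext_res [CharZero P.k] (hP : P.Henselian) (hN : N.Henselian) (hρ : StrictMono ρ)
    (hT : Nice cP cN σ ρ T) (a : P.k) :
    ∃ T' : Subring (P.K × N.K), Nice cP cN σ ρ T' ∧ T ≤ T' ∧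
      ∃ t ∈ T', 0 ≤ P.v t.1 ∧ P.res t.1 = a := by
  have hcz : CharZero (kT hT) := inferInstance
  -- lifting residue polynomials
  have hlift : ∀ p : Polynomial ↥T, IntPoly p →
      ∃ r : Polynomial (kT hT), r.map (kT hT).subtype = P.rp (p.map (i1 T)) := by
    intro p hp
    rw [← mem_lifts, lifts_iff_coeff_lifts]
    intro i
    rw [P.coeff_rp, coeff_map]
    exact ⟨⟨_, ⟨(p.coeff i).1, (p.coeff i).2, hp i, rfl⟩⟩, rfl⟩
  have key : ∀ (x : P.K) (y : N.K), 0 ≤ P.v x → 0 ≤ N.v y → P.res x = a → N.res y = σ a →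
      ∀ p : Polynomial ↥T, p ≠ 0 →
      (∀ r : Polynomial (kT hT), r ≠ 0 → r.natDegree ≤ p.natDegree → aeval a r ≠ 0) →
      RegR T x y p := by
    intro x y hx hy hxa hya p hp hr
    obtain ⟨c, p', h1, h2, h3, ⟨j, hj⟩, h5⟩ := normalise hT hp
    refine Or.inr ⟨c, p', h1, ?_, ?_, h3, ?_⟩
    · rw [h2, eval₂_mul, eval₂_C]; rfl
    · rw [h2, eval₂_mul, eval₂_C]; rfl
    · obtain ⟨r, hr'⟩ := hlift p' h3
      have h6 : r ≠ 0 := by
        rintro rfl
        rw [Polynomial.map_zero] at hr'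
        have h7 := congrArg (fun q => q.coeff j) hr'
        simp only [coeff_zero] at h7
        rw [P.coeff_rp, coeff_map] at h7
        exact (P.res_ne_zero_iff (h3 j)).2 hj h7.symm
      have h8 : r.natDegree ≤ p.natDegree := by
        have h9 : r.natDegree = (r.map (kT hT).subtype).natDegree :=
          (natDegree_map_eq_of_injective (kT hT).subtype.injective r).symm
        rw [h9, hr']
        refine le_trans ?_ h5
        rw [natDegree_le_iff_coeff_eq_zero]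
        intro i hi
        rw [P.coeff_rp, coeff_map, coeff_eq_zero_of_natDegree_lt hi]
        exact P.res_zero
      have h10 := hr r h6 h8
      rw [← P.res_ne_zero_iff (v_eval1 h3 hx), eval_i1, P.res_eval h3.map1 hx, ← hr', hxa,
        eval_map]
      exact h10
  by_cases halg : IsAlgebraic (kT hT) a
  · -- algebraic case
    have hint : IsIntegral (kT hT) a := halg.isIntegral
    set m := minpoly (kT hT) a with hm
    have hmon : m.Monic := minpoly.monic hint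
    have hml : m.map (kT hT).subtype ∈ lifts (rTO T) := by
      rw [lifts_iff_coeff_lifts]
      intro i
      rw [coeff_map]
      obtain ⟨t, ht, h1, h2⟩ := (m.coeff i).2
      exact ⟨⟨⟨t, ht⟩, h1⟩, h2⟩
    obtain ⟨μ0, hμ0, hdeg, hmon0⟩ := lifts_and_natDegree_eq_and_monic hml (hmon.map _)
    set μ : Polynomial ↥T := μ0.map (TO T).subtype with hμ
    have hμint : IntPoly μ := by
      intro i
      rw [hμ, coeff_map]
      exact (μ0.coeff i).2
    have hμmon : μ.Monic := hmon0.map _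
    have hμdeg : μ.natDegree = m.natDegree := by
      rw [hμ, hmon0.natDegree_map, hdeg, hmon.natDegree_map]
    have hrp1 : P.rp (μ.map (i1 T)) = m.map (kT hT).subtype := by
      ext i
      rw [P.coeff_rp, coeff_map, ← hμ0, coeff_map, coeff_map]
      rfl
    have hrp2 : N.rp (μ.map (i2 T)) = (m.map (kT hT).subtype).map σ := by
      rw [rp_map2 hT hμint, hrp1]
    have hroot : (m.map (kT hT).subtype).eval a = 0 := by
      rw [eval_map]
      exact minpoly.aeval _ _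
    have hder : (derivative (m.map (kT hT).subtype)).eval a ≠ 0 := by
      rw [derivative_map, eval_map]
      exact (minpoly.irreducible hint).separable.aeval_derivative_ne_zero (minpoly.aeval _ _)
    -- root in `P`
    obtain ⟨a0, ha0, ha0'⟩ := P.res_surj a
    obtain ⟨x, hx, hx1, hx2⟩ := hP (μ.map (i1 T)) (hμmon.map _) hμint.map1 a0 ha0 (by
        rw [← P.res_ker _ (P.v_eval_nonneg hμint.map1 ha0), P.res_eval hμint.map1 ha0, hrp1, ha0']
        exact hroot) (by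
        rw [← P.res_ne_zero_iff (P.v_eval_nonneg (P.v_coeff_derivative hμint.map1) ha0),
          P.res_eval (P.v_coeff_derivative hμint.map1) ha0, P.rp_derivative hμint.map1, hrp1,
          ha0']
        exact hder)
    have hxa : P.res x = a := by
      rw [← ha0']
      exact (P.res_eq_iff hx ha0).2 hx2
    -- root in `N`
    obtain ⟨b0, hb0, hb0'⟩ := N.res_surj (σ a)
    have hi2 := hμint.map2 hρ hT
    obtain ⟨y, hy, hy1, hy2⟩ := hN (μ.map (i2 T)) (hμmon.map _) hi2 b0 hb0 (by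
        rw [← N.res_ker _ (N.v_eval_nonneg hi2 hb0), N.res_eval hi2 hb0, hrp2, hb0',
          eval_map, eval₂_at_apply, hroot, map_zero]) (by
        rw [← N.res_ne_zero_iff (N.v_eval_nonneg (N.v_coeff_derivative hi2) hb0),
          N.res_eval (N.v_coeff_derivative hi2) hb0, N.rp_derivative hi2, hrp2,
          hb0', derivative_map, eval_map, eval₂_at_apply]
        intro h
        exact hder (σ.injective (h.trans (map_zero σ).symm)))
    have hya : N.res y = σ a := by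
      rw [← hb0']
      exact (N.res_eq_iff hy hb0).2 hy2
    have hx1' : μ.eval₂ (i1 T) x = 0 := by rw [eval_i1]; exact hx1
    have hy1' : μ.eval₂ (i2 T) y = 0 := by rw [eval_i2]; exact hy1
    obtain ⟨T', hT', hle, hmem⟩ := nice_of_regR hρ hT hx hy (by rw [hya, hxa]) (by
      intro p
      have hmod := eval_mod hx1' hy1' p
      by_cases hp0 : p %ₘ μ = 0
      · left
        rw [← hmod.1, ← hmod.2, hp0, eval₂_zero, eval₂_zero]
        exact ⟨rfl, rfl⟩
      · have hlt : (p %ₘ μ).natDegree < μ.natDegree := by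
          refine natDegree_modByMonic_lt p hμmon ?_
          intro h1
          rw [h1] at hμdeg
          rw [natDegree_one] at hμdeg
          exact absurd hμdeg.symm (minpoly.natDegree_pos hint).ne'
        have := key x y hx hy hxa hya (p %ₘ μ) hp0 (by
          intro r hr1 hr2 hr3
          have h1 := minpoly.degree_le_of_ne_zero (kT hT) a hr1 hr3
          have h2 := natDegree_le_natDegree h1
          rw [← hm, ← hμdeg] at h2
          omega)
        unfold RegR at this ⊢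
        rw [hmod.1, hmod.2] at this
        exact this)
    exact ⟨T', hT', hle, _, hmem, hx, hxa⟩
  · -- transcendental case
    obtain ⟨x, hx, hxa⟩ := P.res_surj a
    obtain ⟨y, hy, hya⟩ := N.res_surj (σ a)
    obtain ⟨T', hT', hle, hmem⟩ := nice_of_regR hρ hT hx hy (by rw [hya, hxa]) (by
      intro p
      by_cases hp : p = 0
      · left
        rw [hp, eval₂_zero, eval₂_zero]
        exact ⟨rfl, rfl⟩
      · exact key x y hx hy hxa hya p hp fun r hr _ h => halg ⟨r, hr, h⟩)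
    exact ⟨T', hT', hle, _, hmem, hx, hxa⟩

end Pool.Agent.Helper71.AKE
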