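import Pool.Agent.Helper71.AKE.Main

/-!
# The transfer theorem for alternating fragments
-/

set_option autoImplicit false

universe u v w

namespace Pool.Agent.Helper71.AKE

open Filter

theorem Th_ultra {S : Sig} {U : Ultrafilter ℕ} {B N : Str.{u} S} (h : IsUltra U B N)
    (hB : ∀ s, Nonempty (B.A s)) (l : List Bool) : Th l N = Th l B := by
  ext φ
  have h1 := h.los hB φ (fun _ i => Fin.elim0 i)
  have e1 : (fun s (i : Fin 0) => h.q s (Fin.elim0 (α := ℕ → B.A s) i)) =
      fun s (i : Fin 0) => Fin.elim0 (α := N.A s) i := by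
    funext s i
    exact i.elim0
  have e2 : ∀ n : ℕ, (fun s (i : Fin 0) => (Fin.elim0 (α := ℕ → B.A s) i) n) =
      fun s (i : Fin 0) => Fin.elim0 (α := B.A s) i := by
    intro n
    funext s i
    exact i.elim0
  show φ.Holds N (fun s i => Fin.elim0 i) ↔ φ.Holds B (fun s i => Fin.elim0 i)
  rw [← e1]
  refine h1.trans ?_
  constructor
  · intro h2
    obtain ⟨n, hn⟩ := h2.exists
    rwa [e2] at hn
  · intro h2
    refine Eventually.of_forall fun n => ?_
    rw [e2]
    exact h2

theorem good_of_Th {S : Sig} {l : List Bool} {M N : Str.{u} S} (h : Th l M ⊆ Th l N) :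
    Good l M N (ι := fun _ => Empty) (fun _ i => Empty.elim i) (fun _ i => Empty.elim i) := by
  intro m φ r hφ
  have key : ∀ (M : Str.{u} S), φ.Holds M (fun s i => Empty.elim (r s i)) ↔
      (φ.ren (m' := fun _ => 0) (fun s i => Empty.elim (r s i))) ∈ Th l M := by
    intro M
    show _ ↔ (φ.ren _).Holds M _
    rw [Pre.holds_ren]
    have : (fun s i => Empty.elim (r s i) : ∀ s, Fin (m s) → M.A s) =
        fun s i => Fin.elim0 (Empty.elim (r s i)) := by
      funext s i
      exact (r s i).elim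
    rw [this]
  exact (key N).2 (h ((key M).1 hφ))

section Rat

variable (M : ValField.{u}) [CharZero M.k]

theorem v_intCast {a : ℤ} (ha : a ≠ 0) : M.v (a : M.K) = 0 := by
  rcases Int.natAbs_eq a with h | h
  · rw [h, Int.cast_natCast, M.v_natCast (by omega)]
  · rw [h, Int.cast_neg, Int.cast_natCast, M.v_neg, M.v_natCast (by omega)]

theorem v_ratCast {q : ℚ} (hq : q ≠ 0) : M.v (q : M.K) = 0 := by
  rw [Rat.cast_def, M.v_div, v_intCast M (by simpa using hq), M.v_natCast q.den_nz, sub_zero]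

theorem v_ratCast_nonneg (q : ℚ) : 0 ≤ M.v (q : M.K) := by
  by_cases hq : q = 0
  · have := charZero_K (M := M)
    rw [hq, Rat.cast_zero, M.v_zero]
    exact le_top
  · exact (v_ratCast M hq).ge

theorem res_ratCast (q : ℚ) : M.res (q : M.K) = (q : M.k) := by
  have := charZero_K (M := M)
  let f : ℚ →+* M.k :=
    { toFun := fun q => M.res (q : M.K)
      map_one' := by rw [Rat.cast_one, M.res_one]
      map_zero' := by rw [Rat.cast_zero, M.res_zero]
      map_add' := fun a b => by
        rw [Rat.cast_add, M.res_add _ _ (v_ratCast_nonneg M a) (v_ratCast_nonneg M b)]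
      map_mul' := fun a b => by
        rw [Rat.cast_mul, M.res_mul _ _ (v_ratCast_nonneg M a) (v_ratCast_nonneg M b)] }
  have h : f = Rat.castHom M.k := Subsingleton.elim _ _
  exact congrArg (fun g : ℚ →+* M.k => g q) h

theorem vg_ratCast (q : ℚ) : M.vg (q : M.K) = 0 := by
  by_cases hq : q = 0
  · have := charZero_K (M := M)
    rw [hq, Rat.cast_zero, ValField.vg, M.v_zero]
    rfl
  · exact M.vg_eq_of (g := 0) (by rw [v_ratCast M hq]; rfl)

end Rat

/-- the rational numbers -/
def T0 (M N : ValField.{u}) [CharZero M.K] [CharZero N.K] : Subring (M.K × N.K) :=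
  ((Rat.castHom M.K).prod (Rat.castHom N.K)).range

theorem mem_T0 {M N : ValField.{u}} [CharZero M.K] [CharZero N.K] {t : M.K × N.K} :
    t ∈ T0 M N ↔ ∃ q : ℚ, ((q : M.K), (q : N.K)) = t := Iff.rfl

theorem bn_T0 {M N : ValField.{u}} [CharZero M.K] [CharZero N.K] [CharZero M.k] [CharZero N.k]
    (cM : CS M) (cN : CS N) : BN cM cN (T0 M N) where
  cnt := by
    have : (T0 M N : Set (M.K × N.K)) = Set.range (fun q : ℚ => ((q : M.K), (q : N.K))) := rfl
    rw [this]
    exact Set.countable_range _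
  inv := by
    intro t ht
    obtain ⟨q, rfl⟩ := mem_T0.1 ht
    exact mem_T0.2 ⟨q⁻¹, by rw [Rat.cast_inv, Rat.cast_inv]⟩
  zero := by
    intro t ht
    obtain ⟨q, rfl⟩ := mem_T0.1 ht
    show (q : M.K) = 0 ↔ (q : N.K) = 0
    rw [Rat.cast_eq_zero, Rat.cast_eq_zero]
  nn := by
    intro t ht
    obtain ⟨q, rfl⟩ := mem_T0.1 ht
    exact iff_of_true (v_ratCast_nonneg M q) (v_ratCast_nonneg N q)
  cs := by
    intro t ht _
    obtain ⟨q, rfl⟩ := mem_T0.1 ht
    refine mem_T0.2 ⟨1, ?_⟩
    show _ = (cM.s (M.vg (q : M.K)), cN.s (N.vg (q : N.K)))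
    rw [vg_ratCast, vg_ratCast, cM.s_zero, cN.s_zero, Rat.cast_one, Rat.cast_one]

theorem goodT_T0 {N0 M N : ValField.{u}} (hN : VU N0 N) [CharZero M.K] [CharZero N.K]
    [CharZero M.k] [CharZero N.k] {n : ℕ}
    (h1 : Th (alt (n + 1)) (ringStr M.k) ⊆ Th (alt (n + 1)) (ringStr N.k))
    (h2 : Th (alt (n + 1)) (oagStr M.G) ⊆ Th (alt (n + 1)) (oagStr N.G)) :
    GoodT (n + 1) (T0 M N) := by
  constructor
  · obtain ⟨y, hy⟩ := good_ext (S := ringSig) hUU (nonempty_ring M.k) (nonempty_ring N0.k)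
      hN.ringU (ι := fun _ => Empty) (κ := fun _ => ℚ) (good_of_Th h1)
      (fun _ (q : ℚ) => (q : M.k))
    obtain ⟨g, hg⟩ := good_ring (k' := N.k) (Rat.castHom M.k) (y ()) (hy.comp (fun _ a => Sum.inr a))
    have hg' : g = Rat.castHom N.k := Subsingleton.elim _ _
    have hyq : ∀ q : ℚ, y () q = (q : N.k) := by
      intro q
      rw [← hg, hg']
      rfl
    have hch : ∀ t : RI (T0 M N), ∃ q : ℚ, (q : M.k) = M.res t.1.1 ∧
        y () q = N.res t.1.2 := by
      rintro ⟨t, ht, h0⟩
      obtain ⟨q, rfl⟩ := mem_T0.1 ht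
      refine ⟨q, (res_ratCast M q).symm, ?_⟩
      rw [hyq]
      exact (res_ratCast N q).symm
    choose f hf1 hf2 using hch
    have h3 := hy.comp (ι' := fun _ => RI (T0 M N)) (fun _ t => Sum.inr (f t))
    have e1 : (fun (_ : ringSig.Srt) (t : RI (T0 M N)) => M.res t.1.1) =
        fun _ t => ((f t : ℚ) : M.k) := by
      funext _ t
      exact (hf1 t).symm
    have e2 : (fun (_ : ringSig.Srt) (t : RI (T0 M N)) => N.res t.1.2) =
        fun s t => y s (f t) := by
      funext s t
      exact (hf2 t).symm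
    intro m φ r hφ
    have h4 := h3 m φ r
    have e3 : (fun s i => (fun (_ : ringSig.Srt) (t : RI (T0 M N)) => M.res t.1.1) s (r s i)) =
        fun s i => ((f (r s i) : ℚ) : M.k) := by rw [e1]
    have e4 : (fun s i => (fun (_ : ringSig.Srt) (t : RI (T0 M N)) => N.res t.1.2) s (r s i)) =
        fun s i => y s (f (r s i)) := by rw [e2]
    rw [e3] at hφ
    rw [e4]
    exact h4 hφ
  · obtain ⟨z, hz⟩ := good_ext (S := oagSig) hUU (nonempty_oag M.G) (nonempty_oag N0.G)
      hN.oagU (ι := fun _ => Empty) (κ := fun _ => Unit) (good_of_Th h2)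
      (fun _ (_ : Unit) => (0 : M.G))
    have hz0 : z () () = (0 : N.G) := by
      have h3 : @HAdd.hAdd N.G N.G N.G _ (z () ()) (z () ()) = z () () :=
        (hz.qf addG (fun _ => ![Sum.inr (), Sum.inr (), Sum.inr ()])).1 (add_zero (0 : M.G))
      have key : ∀ a : N.G, a + a = a → a = 0 := fun a ha => add_eq_left.1 ha
      exact key _ h3
    have h3 := hz.comp (ι' := fun _ => GI (T0 M N)) (fun _ t => Sum.inr ())
    have e1 : (fun (_ : oagSig.Srt) (t : GI (T0 M N)) => M.vg t.1.1) =
        fun _ t => (0 : M.G) := by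
      funext _ t
      obtain ⟨q, hq⟩ := mem_T0.1 t.2.1
      rw [← hq]
      exact vg_ratCast M q
    have e2 : (fun (_ : oagSig.Srt) (t : GI (T0 M N)) => N.vg t.1.2) =
        fun s t => z s () := by
      funext s t
      obtain ⟨q, hq⟩ := mem_T0.1 t.2.1
      rw [← hq]
      exact (vg_ratCast N q).trans hz0.symm
    intro m φ r hφ
    have h4 := h3 m φ r
    have e3 : (fun s i => (fun (_ : oagSig.Srt) (t : GI (T0 M N)) => M.vg t.1.1) s (r s i)) =
        fun s i => (0 : M.G) := by rw [e1]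
    have e4 : (fun s i => (fun (_ : oagSig.Srt) (t : GI (T0 M N)) => N.vg t.1.2) s (r s i)) =
        fun s i => z s () := by rw [e2]
    rw [e3] at hφ
    rw [e4]
    exact h4 hφ

/-- The transfer theorem for the fragments whose first block is existential. -/
theorem core {K L : ValField.{u}} [CharZero K.k] [CharZero L.k] (hK : K.Henselian)
    (hL : L.Henselian) (n : ℕ)
    (h1 : Th (alt (n + 1)) (ringStr K.k) ⊆ Th (alt (n + 1)) (ringStr L.k))
    (h2 : Th (alt (n + 1)) (oagStr K.G) ⊆ Th (alt (n + 1)) (oagStr L.G)) :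
    Th (alt (n + 1)) (valStr K) ⊆ Th (alt (n + 1)) (valStr L) := by
  have vK := ultraVU K
  have vL := ultraVU L
  generalize ultra K = M at *
  generalize ultra L = N at *
  have cMk : CharZero M.k := vK.charZero
  have cNk : CharZero N.k := vL.charZero
  have cMK : CharZero M.K := charZero_K
  have cNK : CharZero N.K := charZero_K
  obtain ⟨cM⟩ := cs_exists vK
  obtain ⟨cN⟩ := cs_exists vL
  rw [← Th_ultra vK.ringU (nonempty_ring K.k), ← Th_ultra vL.ringU (nonempty_ring L.k)] at h1
  rw [← Th_ultra vK.oagU (nonempty_oag K.G), ← Th_ultra vL.oagU (nonempty_oag L.G)] at h2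
  rw [← Th_ultra vK.valU (nonempty_val K), ← Th_ultra vL.valU (nonempty_val L)]
  have hgame := game vK vL (vK.henselian hK) (vL.henselian hL) cM cN (bn_T0 cM cN)
    (goodT_T0 vL h1 h2)
  intro φ hφ
  exact hgame.holds (fun s i => Fin.elim0 i) φ hφ

theorem std_eq (n : ℕ) : std n = if Even n then (alt n).map (!·) else alt n := by
  induction n with
  | zero => rfl
  | succ n ih =>
    rw [std, ih, alt]
    by_cases h : Even n
    · have h' : ¬ Even (n + 1) := by rwa [Nat.even_add_one, not_not]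
      rw [if_pos h, if_neg h', decide_eq_true h]
    · have h' : Even (n + 1) := by rwa [Nat.even_add_one]
      rw [if_neg h, if_pos h', decide_eq_false h]
      simp [List.map_map, Function.comp_def]

theorem Th_neg {S : Sig} {l : List Bool} {M N : Str.{u} S} (h : Th l M ⊆ Th l N) :
    Th (l.map (!·)) N ⊆ Th (l.map (!·)) M := by
  intro φ hφ
  obtain ⟨χ, hχ⟩ := exists_neg.{u} φ
  have hll : (l.map (!·)).map (!·) = l := by simp [List.map_map, Function.comp_def]
  have key : Th ((l.map (!·)).map (!·)) M ⊆ Th ((l.map (!·)).map (!·)) N := by rw [hll]; exact h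
  by_contra hcon
  have h1 : χ ∈ Th _ M := (hχ M _).2 hcon
  exact (hχ N _).1 (key h1) hφ

/-- **Ax-Kochen/Ershov transfer for every standard fragment.** -/
theorem ake_std {K L : ValField.{u}} [CharZero K.k] [CharZero L.k] (hK : K.Henselian)
    (hL : L.Henselian) (n : ℕ) (hn : 1 ≤ n)
    (h1 : Th (std n) (ringStr K.k) ⊆ Th (std n) (ringStr L.k))
    (h2 : Th (std n) (oagStr K.G) ⊆ Th (std n) (oagStr L.G)) :
    Th (std n) (valStr K) ⊆ Th (std n) (valStr L) := by
  obtain ⟨m, rfl⟩ : ∃ m, n = m + 1 := ⟨n - 1, by omega⟩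
  have hll : ((alt (m + 1)).map (!·)).map (!·) = alt (m + 1) := by
    simp [List.map_map, Function.comp_def]
  by_cases h : Even (m + 1)
  · rw [std_eq, if_pos h] at *
    have h1' := Th_neg h1
    have h2' := Th_neg h2
    rw [hll] at h1' h2'
    exact Th_neg (core hL hK m h1' h2')
  · rw [std_eq, if_neg h] at *
    exact core hK hL m h1 h2

end Pool.Agent.Helper71.AKE
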