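import Pool.Agent.Helper71.AKE.Defs

/-!
# Many-sorted first-order logic: prenex formulas by quantifier blocks

* `Sig`: many-sorted signatures; `Str S`: structures.
* `Tm S m s`, `QF S m`: terms of sort `s` and quantifier-free formulas with `m t` free variables of
  the sort `t`, for each sort `t`.
* `Pre S l m`: prenex formulas with the list `l` of quantifier blocks (`true` is a block of
  existential, `false` a block of universal quantifiers; blocks may be empty).
-/

set_option autoImplicit false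

universe u

namespace Pool.Agent.Helper71.AKE

variable {S : Sig}

/-! ### Renaming of variables -/

def Tm.ren {m m' : S.Srt → ℕ} (r : ∀ s, Fin (m s) → Fin (m' s)) :
    {s : S.Srt} → Tm S m s → Tm S m' s
  | _, .var s i => .var s (r s i)
  | _, .app f t => .app f (fun i => (t i).ren r)

def QF.ren {m m' : S.Srt → ℕ} (r : ∀ s, Fin (m s) → Fin (m' s)) : QF S m → QF S m'
  | .tru => .tru
  | .eq s t u => .eq s (t.ren r) (u.ren r)
  | .rel R t => .rel R (fun i => (t i).ren r)
  | .not φ => .not (φ.ren r)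
  | .and φ ψ => .and (φ.ren r) (ψ.ren r)

def liftR {m m' : S.Srt → ℕ} (r : ∀ s, Fin (m s) → Fin (m' s)) (n : S.Srt → ℕ) :
    ∀ s, Fin (m s + n s) → Fin (m' s + n s) :=
  fun s => Fin.append (fun i => Fin.castAdd (n s) (r s i)) (fun j => Fin.natAdd (m' s) j)

def Pre.ren : {l : List Bool} → {m m' : S.Srt → ℕ} → (∀ s, Fin (m s) → Fin (m' s)) →
    Pre S l m → Pre S l m'
  | _, _, _, r, .qf φ => .qf (φ.ren r)
  | _, _, _, r, .blk q n φ => .blk q n (φ.ren (liftR r n))

theorem Tm.ev_ren (M : Str.{u} S) {m m' : S.Srt → ℕ} (r : ∀ s, Fin (m s) → Fin (m' s))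
    (e : ∀ s, Fin (m' s) → M.A s) {s : S.Srt} (t : Tm S m s) :
    (t.ren r).ev M e = t.ev M (fun s i => e s (r s i)) := by
  induction t with
  | var s i => rfl
  | app f t ih =>
    show M.fn f _ = M.fn f _
    congr 1
    funext i
    exact ih i

theorem QF.holds_ren (M : Str.{u} S) {m m' : S.Srt → ℕ} (r : ∀ s, Fin (m s) → Fin (m' s))
    (e : ∀ s, Fin (m' s) → M.A s) (φ : QF S m) :
    (φ.ren r).Holds M e ↔ φ.Holds M (fun s i => e s (r s i)) := by
  induction φ with
  | tru => exact Iff.rfl
  | eq s t u =>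
    show _ = _ ↔ _ = _
    rw [Tm.ev_ren, Tm.ev_ren]
  | rel R t =>
    show M.rl R _ ↔ M.rl R _
    simp only [Tm.ev_ren]
  | not φ ih => exact not_congr ih
  | and φ ψ ih1 ih2 => exact and_congr ih1 ih2

theorem app2_liftR {M : S.Srt → Type u} {m m' n : S.Srt → ℕ} (r : ∀ s, Fin (m s) → Fin (m' s))
    (e : ∀ s, Fin (m' s) → M s) (x : ∀ s, Fin (n s) → M s) :
    (fun s i => app2 e x s (liftR r n s i)) = app2 (fun s i => e s (r s i)) x := by
  funext s i
  refine Fin.addCases (fun i => ?_) (fun j => ?_) i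
  · simp [app2, liftR]
  · simp [app2, liftR]

theorem Pre.holds_ren (M : Str.{u} S) {l : List Bool} {m : S.Srt → ℕ} (φ : Pre S l m) :
    ∀ {m' : S.Srt → ℕ} (r : ∀ s, Fin (m s) → Fin (m' s)) (e : ∀ s, Fin (m' s) → M.A s),
    (φ.ren r).Holds M e ↔ φ.Holds M (fun s i => e s (r s i)) := by
  induction φ with
  | qf φ => exact fun r e => QF.holds_ren M r e φ
  | blk q n φ ih =>
    intro m' r e
    cases q with
    | true =>
      show (∃ x, _) ↔ (∃ x, _)
      refine exists_congr fun x => ?_
      rw [ih, app2_liftR]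
    | false =>
      show (∀ x, _) ↔ (∀ x, _)
      refine forall_congr' fun x => ?_
      rw [ih, app2_liftR]

/-! ### Negation, weakening, conjunction -/

theorem exists_neg {l : List Bool} {m : S.Srt → ℕ} (φ : Pre S l m) :
    ∃ χ : Pre S (l.map (!·)) m, ∀ (M : Str.{u} S) (e : ∀ s, Fin (m s) → M.A s),
      χ.Holds M e ↔ ¬ φ.Holds M e := by
  induction φ with
  | qf φ => exact ⟨.qf (.not φ), fun M e => Iff.rfl⟩
  | blk q n φ ih =>
    obtain ⟨χ, hχ⟩ := ih
    refine ⟨.blk (!q) n χ, fun M e => ?_⟩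
    cases q with
    | true =>
      show (∀ x, _) ↔ ¬ ∃ x, _
      push Not
      exact forall_congr' fun x => hχ M _
    | false =>
      show (∃ x, _) ↔ ¬ ∀ x, _
      push Not
      exact exists_congr fun x => hχ M _

/-- adding an empty block in front -/
theorem exists_weaken {l : List Bool} {m : S.Srt → ℕ} (q : Bool) (φ : Pre S l m) :
    ∃ χ : Pre S (q :: l) m, ∀ (M : Str.{u} S) (e : ∀ s, Fin (m s) → M.A s),
      χ.Holds M e ↔ φ.Holds M e := by
  refine ⟨.blk q (fun _ => 0) (φ.ren fun s i => Fin.castAdd 0 i), fun M e => ?_⟩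
  have h : ∀ x : (∀ s : S.Srt, Fin 0 → M.A s),
      (fun s i => app2 e x s (Fin.castAdd 0 i)) = e := by
    intro x
    funext s i
    exact Fin.append_left (e s) (x s) i
  cases q with
  | true =>
    show (∃ x, _) ↔ _
    constructor
    · rintro ⟨x, hx⟩
      rw [Pre.holds_ren, h] at hx
      exact hx
    · intro hx
      refine ⟨fun s i => i.elim0, ?_⟩
      rw [Pre.holds_ren, h]
      exact hx
  | false =>
    show (∀ x, _) ↔ _
    constructor
    · intro hx
      have := hx (fun s i => i.elim0)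
      rw [Pre.holds_ren, h] at this
      exact this
    · intro hx x
      rw [Pre.holds_ren, h]
      exact hx

theorem exists_ofQF (l : List Bool) {m : S.Srt → ℕ} (φ : QF S m) :
    ∃ χ : Pre S l m, ∀ (M : Str.{u} S) (e : ∀ s, Fin (m s) → M.A s),
      χ.Holds M e ↔ φ.Holds M e := by
  induction l with
  | nil => exact ⟨.qf φ, fun M e => Iff.rfl⟩
  | cons q l ih =>
    obtain ⟨χ, h⟩ := ih
    obtain ⟨χ', h'⟩ := exists_weaken.{u} q χ
    exact ⟨χ', fun M e => (h' M e).trans (h M e)⟩

theorem exists_conj (l : List Bool) : ∀ {m : S.Srt → ℕ} (φ ψ : Pre S l m),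
    ∃ χ : Pre S l m, ∀ (M : Str.{u} S) (_ : ∀ s, Nonempty (M.A s))
      (e : ∀ s, Fin (m s) → M.A s), χ.Holds M e ↔ φ.Holds M e ∧ ψ.Holds M e := by
  induction l with
  | nil =>
    intro m φ ψ
    cases φ with
    | qf φ =>
      cases ψ with
      | qf ψ => exact ⟨.qf (.and φ ψ), fun M _ e => Iff.rfl⟩
  | cons q l ih =>
    intro m φ ψ
    cases φ with
    | blk _ n φ =>
      cases ψ with
      | blk _ n' ψ =>
        obtain ⟨χ, hχ⟩ := ih
          (φ.ren (m' := fun s => m s + (n s + n' s)) (fun s =>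
            Fin.append (fun i => Fin.castAdd _ i) (fun j => Fin.natAdd _ (Fin.castAdd _ j))))
          (ψ.ren (m' := fun s => m s + (n s + n' s)) (fun s =>
            Fin.append (fun i => Fin.castAdd _ i) (fun j => Fin.natAdd _ (Fin.natAdd _ j))))
        refine ⟨.blk q (fun s => n s + n' s) χ, fun M hM e => ?_⟩
        have h1 : ∀ (x : ∀ s, Fin (n s + n' s) → M.A s),
            (fun s i => app2 e x s (Fin.append (fun i => Fin.castAdd _ i)
              (fun j => Fin.natAdd _ (Fin.castAdd _ j)) i : Fin (m s + (n s + n' s)))) =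
            app2 e (fun s i => x s (Fin.castAdd _ i)) := by
          intro x
          funext s i
          refine Fin.addCases (fun i => ?_) (fun j => ?_) i <;> simp [app2]
        have h2 : ∀ (x : ∀ s, Fin (n s + n' s) → M.A s),
            (fun s i => app2 e x s (Fin.append (fun i => Fin.castAdd _ i)
              (fun j => Fin.natAdd _ (Fin.natAdd _ j)) i : Fin (m s + (n s + n' s)))) =
            app2 e (fun s i => x s (Fin.natAdd _ i)) := by
          intro x
          funext s i
          refine Fin.addCases (fun i => ?_) (fun j => ?_) i <;> simp [app2]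
        have h3 : ∀ (x : ∀ s, Fin (n s + n' s) → M.A s), χ.Holds M (app2 e x) ↔
            φ.Holds M (app2 e (fun s i => x s (Fin.castAdd _ i))) ∧
            ψ.Holds M (app2 e (fun s i => x s (Fin.natAdd _ i))) := by
          intro x
          rw [hχ M hM, Pre.holds_ren, Pre.holds_ren, ← h1, ← h2]
        have h4 : ∀ (x : ∀ s, Fin (n s) → M.A s) (y : ∀ s, Fin (n' s) → M.A s),
            χ.Holds M (app2 e (fun s => Fin.append (x s) (y s))) ↔
            φ.Holds M (app2 e x) ∧ ψ.Holds M (app2 e y) := by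
          intro x y
          rw [h3]
          simp
        cases q with
        | true =>
          show (∃ x, _) ↔ (∃ x, _) ∧ (∃ x, _)
          constructor
          · rintro ⟨x, hx⟩
            rw [h3] at hx
            exact ⟨⟨_, hx.1⟩, ⟨_, hx.2⟩⟩
          · rintro ⟨⟨x, hx⟩, ⟨y, hy⟩⟩
            exact ⟨_, (h4 x y).2 ⟨hx, hy⟩⟩
        | false =>
          show (∀ x, _) ↔ (∀ x, _) ∧ (∀ x, _)
          constructor
          · intro hx
            refine ⟨fun x => ?_, fun y => ?_⟩
            · exact ((h4 x (fun s _ => (hM s).some)).1 (hx _)).1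
            · exact ((h4 (fun s _ => (hM s).some) y).1 (hx _)).2
          · rintro ⟨hx, hy⟩ x
            rw [h3]
            exact ⟨hx _, hy _⟩

/-- An existential block in front can be merged with an existential first block. -/
theorem exists_merge {l : List Bool} {m n : S.Srt → ℕ}
    (φ : Pre S (true :: l) (fun s => m s + n s)) :
    ∃ χ : Pre S (true :: l) m, ∀ (M : Str.{u} S) (e : ∀ s, Fin (m s) → M.A s),
      χ.Holds M e ↔ ∃ x : ∀ s, Fin (n s) → M.A s, φ.Holds M (app2 e x) := by
  cases φ with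
  | blk _ n' φ =>
    refine ⟨.blk true (fun s => n s + n' s) (φ.ren (fun s =>
      Fin.append (Fin.append (fun i => Fin.castAdd _ i) (fun j => Fin.natAdd _ (Fin.castAdd _ j)))
        (fun j => Fin.natAdd _ (Fin.natAdd _ j)))), fun M e => ?_⟩
    have h1 : ∀ (x : ∀ s, Fin (n s + n' s) → M.A s),
        (fun s i => app2 e x s (Fin.append
          (Fin.append (fun i => Fin.castAdd _ i) (fun j => Fin.natAdd _ (Fin.castAdd _ j)))
          (fun j => Fin.natAdd _ (Fin.natAdd _ j)) i : Fin (m s + (n s + n' s)))) =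
        app2 (app2 e (fun s i => x s (Fin.castAdd _ i))) (fun s i => x s (Fin.natAdd _ i)) := by
      intro x
      funext s i
      refine Fin.addCases (fun i => ?_) (fun j => ?_) i
      · refine Fin.addCases (fun i => ?_) (fun j => ?_) i <;> simp [app2]
      · simp [app2]
    show (∃ x, _) ↔ (∃ x, ∃ y, _)
    constructor
    · rintro ⟨x, hx⟩
      rw [Pre.holds_ren, h1] at hx
      exact ⟨_, _, hx⟩
    · rintro ⟨x, y, hxy⟩
      refine ⟨fun s => Fin.append (x s) (y s), ?_⟩
      rw [Pre.holds_ren, h1]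
      simpa using hxy

/-- a finite conjunction -/
theorem exists_conjs (l : List Bool) {m : S.Srt → ℕ} (L : List (Pre S l m)) :
    ∃ χ : Pre S l m, ∀ (M : Str.{u} S) (_ : ∀ s, Nonempty (M.A s))
      (e : ∀ s, Fin (m s) → M.A s), χ.Holds M e ↔ ∀ φ ∈ L, φ.Holds M e := by
  induction L with
  | nil =>
    obtain ⟨χ, hχ⟩ := exists_ofQF.{u} l (QF.tru : QF S m)
    exact ⟨χ, fun M _ e => (hχ M e).trans (by simp [QF.Holds])⟩
  | cons φ L ih =>
    obtain ⟨χ, hχ⟩ := ih
    obtain ⟨χ', hχ'⟩ := exists_conj.{u} l φ χ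
    refine ⟨χ', fun M hM e => (hχ' M hM e).trans ?_⟩
    rw [hχ M hM]
    simp

/-! ### Countability of the set of formulas -/

theorem countable_tm [Finite S.Srt] [Countable S.Fn] (m : S.Srt → ℕ) :
    Countable (Σ s, Tm S m s) := by
  classical
  let C : ℕ → Set (Σ s, Tm S m s) := fun n => Nat.rec
    (Set.range fun p : Σ s, Fin (m s) => ⟨p.1, Tm.var p.1 p.2⟩)
    (fun _ D => (Set.range fun p : Σ s, Fin (m s) => ⟨p.1, Tm.var p.1 p.2⟩) ∪
      ⋃ f : S.Fn, (fun t : (∀ i, Tm S m (S.fdom f i)) => (⟨S.fcod f, Tm.app f t⟩ : Σ s, Tm S m s))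
        '' {t | ∀ i, t i ∈ {u | (⟨_, u⟩ : Σ s, Tm S m s) ∈ D}}) n
  have hC : ∀ n, (C n).Countable := by
    intro n
    induction n with
    | zero => exact Set.countable_range _
    | succ n ih =>
      refine (Set.countable_range _).union (Set.countable_iUnion fun f => ?_)
      refine Set.Countable.image ?_ _
      refine Set.countable_pi fun i => ?_
      exact Set.Countable.preimage_of_injOn ih (fun a _ b _ h => by simpa using h)
  have hmono : ∀ n, C n ⊆ C (n + 1) := by
    intro n
    induction n with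
    | zero => exact Set.subset_union_left
    | succ n ih =>
      refine Set.union_subset_union_right _ (Set.iUnion_mono fun f => Set.image_mono ?_)
      exact fun t ht i => ih (ht i)
  have hmono' : ∀ a b, a ≤ b → C a ⊆ C b := by
    intro a b hab
    induction hab with
    | refl => exact subset_rfl
    | step _ ih => exact ih.trans (hmono _)
  have hall : ∀ (s : S.Srt) (t : Tm S m s), ∃ n, (⟨s, t⟩ : Σ s, Tm S m s) ∈ C n := by
    intro s t
    induction t with
    | var s i => exact ⟨0, ⟨⟨s, i⟩, rfl⟩⟩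
    | app f t ih =>
      choose g hg using ih
      refine ⟨(Finset.univ.sup g) + 1, Or.inr (Set.mem_iUnion.2 ⟨f, ⟨t, fun i => ?_, rfl⟩⟩)⟩
      exact hmono' _ _ (Finset.le_sup (Finset.mem_univ i)) (hg i)
  have : (Set.univ : Set (Σ s, Tm S m s)).Countable := by
    refine Set.Countable.mono ?_ (Set.countable_iUnion hC)
    rintro ⟨s, t⟩ -
    obtain ⟨n, hn⟩ := hall s t
    exact Set.mem_iUnion.2 ⟨n, hn⟩
  exact Set.countable_univ_iff.1 this

theorem countable_qf [Finite S.Srt] [Countable S.Fn] [Countable S.Rl] (m : S.Srt → ℕ) :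
    Countable (QF S m) := by
  classical
  have := countable_tm (S := S) m
  have : ∀ s, Countable (Tm S m s) := fun s =>
    Function.Injective.countable (f := fun t => (⟨s, t⟩ : Σ s, Tm S m s))
      (fun a b h => by simpa using h)
  let X : Type := Unit ⊕ (Σ s, Tm S m s × Tm S m s) ⊕ (Σ R : S.Rl, ∀ i, Tm S m (S.rdom R i))
  let base : Set (QF S m) := Set.range (fun x : X => match x with
    | .inl _ => QF.tru
    | .inr (.inl p) => .eq p.1 p.2.1 p.2.2
    | .inr (.inr p) => .rel p.1 p.2)
  let C : ℕ → Set (QF S m) := fun n => Nat.rec base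
    (fun _ D => D ∪ (QF.not '' D) ∪ ((fun p : QF S m × QF S m => .and p.1 p.2) '' (D ×ˢ D))) n
  have hC : ∀ n, (C n).Countable := by
    intro n
    induction n with
    | zero =>
      have : Countable X := inferInstance
      exact Set.countable_range _
    | succ n ih => exact (ih.union (ih.image _)).union ((ih.prod ih).image _)
  have hmono : ∀ n, C n ⊆ C (n + 1) := fun n x hx => Or.inl (Or.inl hx)
  have hmono' : ∀ a b, a ≤ b → C a ⊆ C b := by
    intro a b hab
    induction hab with
    | refl => exact subset_rfl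
    | step _ ih => exact ih.trans (hmono _)
  have hall : ∀ φ : QF S m, ∃ n, φ ∈ C n := by
    intro φ
    induction φ with
    | tru => exact ⟨0, ⟨.inl (), rfl⟩⟩
    | eq s t u => exact ⟨0, ⟨.inr (.inl ⟨s, t, u⟩), rfl⟩⟩
    | rel R t => exact ⟨0, ⟨.inr (.inr ⟨R, t⟩), rfl⟩⟩
    | not φ ih =>
      obtain ⟨n, hn⟩ := ih
      exact ⟨n + 1, Or.inl (Or.inr ⟨φ, hn, rfl⟩)⟩
    | and φ ψ ih1 ih2 =>
      obtain ⟨n, hn⟩ := ih1
      obtain ⟨k, hk⟩ := ih2
      exact ⟨max n k + 1, Or.inr ⟨(φ, ψ), ⟨hmono' _ _ (le_max_left _ _) hn,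
        hmono' _ _ (le_max_right _ _) hk⟩, rfl⟩⟩
  have : (Set.univ : Set (QF S m)).Countable := by
    refine Set.Countable.mono ?_ (Set.countable_iUnion hC)
    intro φ _
    exact Set.mem_iUnion.2 (hall φ)
  exact Set.countable_univ_iff.1 this

theorem countable_pre [Finite S.Srt] [Countable S.Fn] [Countable S.Rl] (l : List Bool) :
    ∀ m : S.Srt → ℕ, Countable (Pre S l m) := by
  induction l with
  | nil =>
    intro m
    have := countable_qf (S := S) m
    refine Function.Surjective.countable (f := fun φ : QF S m => Pre.qf φ) ?_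
    intro φ
    cases φ with
    | qf φ => exact ⟨φ, rfl⟩
  | cons q l ih =>
    intro m
    have := ih
    refine Function.Surjective.countable
      (f := fun p : (Σ n : S.Srt → ℕ, Pre S l (fun s => m s + n s)) => Pre.blk q p.1 p.2) ?_
    intro φ
    cases φ with
    | blk _ n φ => exact ⟨⟨n, φ⟩, rfl⟩

end Pool.Agent.Helper71.AKE
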