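import Pool.Agent.Helper71.AKE.Sigs

/-!
# Back and forth between saturated henselian valued fields, fragment by fragment
-/

set_option autoImplicit false

universe u v w

namespace Pool.Agent.Helper71.AKE

open Filter

/-- countable partial isomorphisms, closed under the cross-sections -/
structure BN {M N : ValField.{u}} (cM : CS M) (cN : CS N) (T : Subring (M.K × N.K)) : Prop where
  cnt : (T : Set (M.K × N.K)).Countable
  inv : ∀ t ∈ T, (t.1⁻¹, t.2⁻¹) ∈ T
  zero : ∀ t ∈ T, t.1 = 0 ↔ t.2 = 0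
  nn : ∀ t ∈ T, 0 ≤ M.v t.1 ↔ 0 ≤ N.v t.2
  cs : ∀ t ∈ T, t.1 ≠ 0 → (cM.s (M.vg t.1), cN.s (N.vg t.2)) ∈ T

/-- the elements with a residue -/
def RI {M N : ValField.{u}} (T : Subring (M.K × N.K)) : Type u :=
  {t : M.K × N.K // t ∈ T ∧ 0 ≤ M.v t.1}

/-- the nonzero elements -/
def GI {M N : ValField.{u}} (T : Subring (M.K × N.K)) : Type u :=
  {t : M.K × N.K // t ∈ T ∧ t.1 ≠ 0}

/-- formulas about residues and values are preserved -/
structure GoodT (n : ℕ) {M N : ValField.{u}} (T : Subring (M.K × N.K)) : Prop where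
  r : Good (alt n) (ringStr M.k) (ringStr N.k) (ι := fun _ => RI T)
    (fun _ (t : RI T) => M.res t.1.1) (fun _ (t : RI T) => N.res t.1.2)
  g : Good (alt n) (oagStr M.G) (oagStr N.G) (ι := fun _ => GI T)
    (fun _ (t : GI T) => M.vg t.1.1) (fun _ (t : GI T) => N.vg t.1.2)

/-- the relation of a partial isomorphism on the three sorts -/
def RT {M N : ValField.{u}} (T : Subring (M.K × N.K)) :
    ∀ s, (valStr M).A s → (valStr N).A s → Prop
  | .F => fun (a : M.K) (b : N.K) => (a, b) ∈ T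
  | .R => fun (a : M.k) (b : N.k) => ∃ t ∈ T, 0 ≤ M.v t.1 ∧ M.res t.1 = a ∧ N.res t.2 = b
  | .G => fun (a : WithTop M.G) (b : WithTop N.G) => ∃ t ∈ T, M.v t.1 = a ∧ N.v t.2 = b

section facts

variable {M N : ValField.{u}} {cM : CS M} {cN : CS N} {T : Subring (M.K × N.K)}

theorem v_lt_iff (hT : BN cM cN T) {n : ℕ} (hG : GoodT n T) {t t' : M.K × N.K} (ht : t ∈ T)
    (ht' : t' ∈ T) : M.v t.1 < M.v t'.1 ↔ N.v t.2 < N.v t'.2 := by
  by_cases h1 : t.1 = 0
  · rw [h1, (hT.zero t ht).1 h1, M.v_zero, N.v_zero]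
    exact iff_of_false not_top_lt not_top_lt
  · have h1' : t.2 ≠ 0 := fun h => h1 ((hT.zero t ht).2 h)
    by_cases h2 : t'.1 = 0
    · rw [h2, (hT.zero t' ht').1 h2, M.v_zero, N.v_zero]
      exact iff_of_true (lt_top_iff_ne_top.2 (M.v_ne_top.2 h1))
        (lt_top_iff_ne_top.2 (N.v_ne_top.2 h1'))
    · have h2' : t'.2 ≠ 0 := fun h => h2 ((hT.zero t' ht').2 h)
      rw [← M.coe_vg h1, ← M.coe_vg h2, ← N.coe_vg h1', ← N.coe_vg h2', WithTop.coe_lt_coe,
        WithTop.coe_lt_coe]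
      exact hG.g.qf ltG (fun _ => ![(⟨t, ht, h1⟩ : GI T), ⟨t', ht', h2⟩])

theorem v_eq_iff (hT : BN cM cN T) {n : ℕ} (hG : GoodT n T) {t t' : M.K × N.K} (ht : t ∈ T)
    (ht' : t' ∈ T) : M.v t.1 = M.v t'.1 ↔ N.v t.2 = N.v t'.2 := by
  have h1 := v_lt_iff hT hG ht ht'
  have h2 := v_lt_iff hT hG ht' ht
  rw [le_antisymm_iff, ← not_lt, ← not_lt, le_antisymm_iff (a := N.v t.2), ← not_lt, ← not_lt,
    h1, h2]

theorem res_eq_iff' {n : ℕ} (hG : GoodT n T) {t t' : M.K × N.K} (ht : t ∈ T)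
    (ht' : t' ∈ T) (h0 : 0 ≤ M.v t.1) (h0' : 0 ≤ M.v t'.1) :
    M.res t.1 = M.res t'.1 ↔ N.res t.2 = N.res t'.2 :=
  hG.r.qf (eqF (S := ringSig) ()) (fun _ => ![(⟨t, ht, h0⟩ : RI T), ⟨t', ht', h0'⟩])

theorem piso (hT : BN cM cN T) {n : ℕ} (hG : GoodT n T) :
    PIso (valStr M) (valStr N) (RT T) where
  fn := by
    intro f x y hR
    cases f with
    | fzero => exact T.zero_mem
    | fone => exact T.one_mem
    | fadd => exact T.add_mem (hR (0 : Fin 2)) (hR (1 : Fin 2))
    | fneg => exact T.neg_mem (hR (0 : Fin 1))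
    | fmul => exact T.mul_mem (hR (0 : Fin 2)) (hR (1 : Fin 2))
    | rzero =>
      exact ⟨0, T.zero_mem, by rw [Prod.fst_zero, M.v_zero]; exact le_top, M.res_zero, N.res_zero⟩
    | rone => exact ⟨1, T.one_mem, M.v_one.ge, M.res_one, N.res_one⟩
    | radd =>
      obtain ⟨t, ht, h1, h2, h3⟩ := hR (0 : Fin 2)
      obtain ⟨t', ht', h1', h2', h3'⟩ := hR (1 : Fin 2)
      refine ⟨t + t', T.add_mem ht ht', M.v_add_nonneg h1 h1', ?_, ?_⟩
      · refine (M.res_add _ _ h1 h1').trans ?_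
        rw [h2, h2']
        rfl
      · refine (N.res_add _ _ ((hT.nn t ht).1 h1) ((hT.nn t' ht').1 h1')).trans ?_
        rw [h3, h3']
        rfl
    | rneg =>
      obtain ⟨t, ht, h1, h2, h3⟩ := hR (0 : Fin 1)
      refine ⟨-t, T.neg_mem ht, by rw [Prod.fst_neg, M.v_neg]; exact h1, ?_, ?_⟩
      · refine (M.res_neg _).trans ?_
        rw [h2]
        rfl
      · refine (N.res_neg _).trans ?_
        rw [h3]
        rfl
    | rmul =>
      obtain ⟨t, ht, h1, h2, h3⟩ := hR (0 : Fin 2)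
      obtain ⟨t', ht', h1', h2', h3'⟩ := hR (1 : Fin 2)
      refine ⟨t * t', T.mul_mem ht ht', M.v_mul_nonneg h1 h1', ?_, ?_⟩
      · refine (M.res_mul _ _ h1 h1').trans ?_
        rw [h2, h2']
        rfl
      · refine (N.res_mul _ _ ((hT.nn t ht).1 h1) ((hT.nn t' ht').1 h1')).trans ?_
        rw [h3, h3']
        rfl
    | gzero => exact ⟨1, T.one_mem, M.v_one, N.v_one⟩
    | ginf => exact ⟨0, T.zero_mem, M.v_zero, N.v_zero⟩
    | gadd =>
      obtain ⟨t, ht, h2, h3⟩ := hR (0 : Fin 2)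
      obtain ⟨t', ht', h2', h3'⟩ := hR (1 : Fin 2)
      refine ⟨t * t', T.mul_mem ht ht', ?_, ?_⟩
      · refine (M.v_mul _ _).trans ?_
        rw [h2, h2']
        rfl
      · refine (N.v_mul _ _).trans ?_
        rw [h3, h3']
        rfl
    | gneg =>
      obtain ⟨t, ht, h2, h3⟩ := hR (0 : Fin 1)
      refine ⟨_, hT.inv t ht, ?_, ?_⟩
      · refine (M.v_inv _).trans ?_
        rw [h2]
        rfl
      · refine (N.v_inv _).trans ?_
        rw [h3]
        rfl
    | v => exact ⟨_, hR (0 : Fin 1), rfl, rfl⟩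
    | res =>
      have ht := hR (0 : Fin 1)
      by_cases h0 : 0 ≤ M.v (x (0 : Fin 1))
      · exact ⟨_, ht, h0, rfl, rfl⟩
      · have h1 : ¬ 0 ≤ N.v (y (0 : Fin 1)) := fun h => h0 ((hT.nn _ ht).2 h)
        refine ⟨0, T.zero_mem, by rw [Prod.fst_zero, M.v_zero]; exact le_top, ?_, ?_⟩
        · exact M.res_zero.trans (M.res_out _ (not_le.1 h0)).symm
        · exact N.res_zero.trans (N.res_out _ (not_le.1 h1)).symm
  rl := by
    intro Q x y hR
    obtain ⟨t, ht, h2, h3⟩ := hR (0 : Fin 2)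
    obtain ⟨t', ht', h2', h3'⟩ := hR (1 : Fin 2)
    show @LT.lt (WithTop M.G) _ (x (0 : Fin 2)) (x (1 : Fin 2)) ↔
      @LT.lt (WithTop N.G) _ (y (0 : Fin 2)) (y (1 : Fin 2))
    have := v_lt_iff hT hG ht ht'
    rw [h2, h3, h2', h3'] at this
    exact this
  eq := by
    intro s x y x' y' h h'
    cases s with
    | F =>
      have key : ∀ (a a' : M.K) (b b' : N.K), (a, b) ∈ T → (a', b') ∈ T →
          (a = a' ↔ b = b') := by
        intro a a' b b' h h'
        have h2 : a - a' = 0 ↔ b - b' = 0 := hT.zero _ (T.sub_mem h h')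
        rw [sub_eq_zero, sub_eq_zero] at h2
        exact h2
      exact key x x' y y' h h'
    | R =>
      obtain ⟨t, ht, h1, h2, h3⟩ := h
      obtain ⟨t', ht', h1', h2', h3'⟩ := h'
      have := res_eq_iff' hG ht ht' h1 h1'
      rw [h2, h3, h2', h3'] at this
      exact this
    | G =>
      obtain ⟨t, ht, h2, h3⟩ := h
      obtain ⟨t', ht', h2', h3'⟩ := h'
      have := v_eq_iff hT hG ht ht'
      rw [h2, h3, h2', h3'] at this
      exact this

/-- exchanging the two sides -/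
def sw (T : Subring (M.K × N.K)) : Subring (N.K × M.K) where
  carrier := {t | (t.2, t.1) ∈ T}
  one_mem' := T.one_mem
  zero_mem' := T.zero_mem
  mul_mem' := fun h1 h2 => T.mul_mem h1 h2
  add_mem' := fun h1 h2 => T.add_mem h1 h2
  neg_mem' := fun h => T.neg_mem h

theorem mem_sw {t : N.K × M.K} : t ∈ sw T ↔ (t.2, t.1) ∈ T := Iff.rfl

theorem BN.sw (hT : BN cM cN T) : BN cN cM (sw T) where
  cnt := by
    have : (AKE.sw T : Set (N.K × M.K)) ⊆ Prod.swap '' (T : Set (M.K × N.K)) := by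
      intro t ht
      exact ⟨(t.2, t.1), ht, rfl⟩
    exact (hT.cnt.image _).mono this
  inv := fun t ht => hT.inv _ ht
  zero := fun t ht => (hT.zero _ ht).symm
  nn := fun t ht => (hT.nn _ ht).symm
  cs := fun t ht h0 => hT.cs _ ht fun h => h0 ((hT.zero _ ht).1 h)

theorem GoodT.sw (hT : BN cM cN T) {n : ℕ} (hG : GoodT (n + 1) T) : GoodT n (AKE.sw T) where
  r := (hG.r.swap).comp (ι' := fun _ => RI (AKE.sw T))
    (fun _ (t : RI (AKE.sw T)) => (⟨(t.1.2, t.1.1), t.2.1, (hT.nn _ t.2.1).2 t.2.2⟩ : RI T))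
  g := (hG.g.swap).comp (ι' := fun _ => GI (AKE.sw T))
    (fun _ (t : GI (AKE.sw T)) =>
      (⟨(t.1.2, t.1.1), t.2.1, fun h => t.2.2 ((hT.zero _ t.2.1).1 h)⟩ : GI T))

end facts

/-- **The extension step.** -/
theorem step {N0 M N : ValField.{u}} (hN : VU N0 N) [CharZero M.k] (hMh : M.Henselian)
    (hNh : N.Henselian) (cM : CS M) (cN : CS N) {n : ℕ} {T : Subring (M.K × N.K)}
    (hT : BN cM cN T) (hG : GoodT (n + 1) T) (X : Set M.K) (hX : X.Countable) :
    ∃ T' : Subring (M.K × N.K), BN cM cN T' ∧ GoodT (n + 1) T' ∧ T ≤ T' ∧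
      ∀ x ∈ X, ∃ t ∈ T', t.1 = x := by
  obtain ⟨A, hXA, hA, hcl⟩ := exists_closed_subfield M cM
    (Prod.fst '' (T : Set (M.K × N.K)) ∪ X) ((hT.cnt.image _).union hX)
  have hTA : ∀ t ∈ T, t.1 ∈ A := fun t ht => hXA (Or.inl ⟨t, ht, rfl⟩)
  have hXA' : ∀ x ∈ X, x ∈ A := fun x hx => hXA (Or.inr hx)
  have cK : Countable (subVF M A).K := hA.to_subtype
  have ck : Countable (subVF M A).k := by
    have : Function.Surjective (fun x : (subVF M A).K => (subVF M A).res x) := by
      intro a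
      obtain ⟨x, _, hx⟩ := (subVF M A).res_surj a
      exact ⟨x, hx⟩
    exact this.countable
  have cG : Countable (subVF M A).G := by
    have : Function.Surjective (fun x : (subVF M A).K => (subVF M A).vg x) := by
      intro a
      obtain ⟨x, hx⟩ := (subVF M A).v_surj a
      exact ⟨x, (subVF M A).vg_eq_of hx⟩
    exact this.countable
  have cRI : Countable (RI T) := by
    have h1 : Countable ↥T := hT.cnt.to_subtype
    have : Function.Injective (fun t : RI T => (⟨t.1, t.2.1⟩ : ↥T)) := by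
      intro t t' h
      apply Subtype.ext
      exact congrArg (fun z : ↥T => z.1) h
    exact this.countable
  have cGI : Countable (GI T) := by
    have h1 : Countable ↥T := hT.cnt.to_subtype
    have : Function.Injective (fun t : GI T => (⟨t.1, t.2.1⟩ : ↥T)) := by
      intro t t' h
      apply Subtype.ext
      exact congrArg (fun z : ↥T => z.1) h
    exact this.countable
  -- residue fields
  obtain ⟨y, hy⟩ := good_ext (S := ringSig) hUU (nonempty_ring M.k) (nonempty_ring N0.k) hN.ringU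
    (ι := fun _ => RI T) (κ := fun _ => (subVF M A).k) hG.r
    (fun _ (a : (subVF M A).k) => inck M A a)
  obtain ⟨σ, hσ⟩ := good_ring (k' := N.k) (inck M A) (y ()) (hy.comp (fun _ a => Sum.inr a))
  have hσ' : ∀ (t : M.K × N.K) (ht : t ∈ T) (h0 : 0 ≤ M.v t.1) (a : (subVF M A).k),
      inck M A a = M.res t.1 → σ a = N.res t.2 := by
    intro t ht h0 a ha
    rw [hσ]
    exact (hy.qf (eqF (S := ringSig) ()) (fun _ => ![Sum.inr a, Sum.inl (⟨t, ht, h0⟩ : RI T)])).1 ha
  -- value groups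
  obtain ⟨z, hz⟩ := good_ext (S := oagSig) hUU (nonempty_oag M.G) (nonempty_oag N0.G) hN.oagU
    (ι := fun _ => GI T) (κ := fun _ => (subVF M A).G) hG.g
    (fun _ (a : (subVF M A).G) => incG M A a)
  obtain ⟨ρ, hρ, hρz⟩ := good_oag (G' := N.G) (incG M A) (incG_strictMono M A) (z ())
    (hz.comp (fun _ a => Sum.inr a))
  have hρ' : ∀ (t : M.K × N.K) (ht : t ∈ T) (h0 : t.1 ≠ 0) (a : (subVF M A).G),
      incG M A a = M.vg t.1 → ρ a = N.vg t.2 := by
    intro t ht h0 a ha
    rw [hρz]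
    exact (hz.qf (eqF (S := oagSig) ()) (fun _ => ![Sum.inr a, Sum.inl (⟨t, ht, h0⟩ : GI T)])).1 ha
  -- the restriction of `T`
  let TP : Subring ((subVF M A).K × N.K) :=
    T.comap (RingHom.prodMap (incK M A) (RingHom.id N.K))
  have hTPmem : ∀ t, t ∈ TP ↔ (incK M A t.1, t.2) ∈ T := fun t => Iff.rfl
  have hz0 : ∀ x : (subVF M A).K, incK M A x = 0 ↔ x = 0 := fun x =>
    ⟨fun h => incK_inj M A (h.trans (map_zero _).symm), fun h => by rw [h, map_zero]⟩
  have hNice : Nice (subCS hcl) cN σ ρ TP := by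
    refine ⟨?_, ?_, ?_, ?_⟩
    · intro t ht
      have := hT.inv _ ht
      rw [hTPmem]
      simpa using this
    · intro t ht
      by_cases h0 : t.1 = 0
      · have h1 : t.2 = 0 := (hT.zero _ ht).1 ((hz0 _).2 h0)
        rw [h0, h1, N.v_zero, (subVF M A).v_zero]
        rfl
      · have h0' : incK M A t.1 ≠ 0 := fun h => h0 ((hz0 _).1 h)
        have h1 : t.2 ≠ 0 := fun h => h0' ((hT.zero _ ht).2 h)
        rw [← N.coe_vg h1, ← (subVF M A).coe_vg h0, rh_coe,
          hρ' _ ht h0' _ (vg_incK M A t.1 h0).symm]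
        rfl
    · intro t ht h0
      refine (hσ' _ ht ?_ _ (res_incK M A t.1).symm).symm
      show 0 ≤ M.v (incK M A t.1)
      rw [v_incK, rh_nonneg (incG_strictMono M A)]
      exact h0
    · intro t ht h0
      have h0' : incK M A t.1 ≠ 0 := fun h => h0 ((hz0 _).1 h)
      have := hT.cs _ ht h0'
      rw [hTPmem]
      rw [hρ' _ ht h0' _ (vg_incK M A t.1 h0).symm, incK_s hcl, ← vg_incK M A t.1 h0]
      exact this
  obtain ⟨T1, hT1, hle, hfull⟩ := rel_embed (henselian_sub hcl hMh) hNh hN.ballSat hρ hNice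
  let T' : Subring (M.K × N.K) := T1.map (RingHom.prodMap (incK M A) (RingHom.id N.K))
  have hmem' : ∀ t, t ∈ T' ↔ ∃ p ∈ T1, (incK M A p.1, p.2) = t := fun t => Iff.rfl
  have hzp : ∀ p ∈ T1, p.1 = 0 ↔ p.2 = 0 := fun p hp => zero_iff_of_val (hT1.val p hp)
  refine ⟨T', ⟨?_, ?_, ?_, ?_, ?_⟩, ⟨?_, ?_⟩, ?_, ?_⟩
  · have hinj : Function.Injective (fun t : ↥T1 => t.1.1) := by
      intro a b hab
      have h1 : (a - b).1.1 = 0 := sub_eq_zero.2 hab
      have h2 := (hzp _ (a - b).2).1 h1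
      exact Subtype.ext (Prod.ext hab (sub_eq_zero.1 h2))
    have h1 : Countable ↥T1 := hinj.countable
    have h2 : (T1 : Set ((subVF M A).K × N.K)).Countable := Set.countable_coe_iff.1 h1
    exact h2.image _
  · intro t ht
    obtain ⟨p, hp, rfl⟩ := (hmem' t).1 ht
    refine (hmem' _).2 ⟨_, hT1.inv p hp, ?_⟩
    rw [map_inv₀]
  · intro t ht
    obtain ⟨p, hp, rfl⟩ := (hmem' t).1 ht
    rw [← hzp p hp]
    exact hz0 _
  · intro t ht
    obtain ⟨p, hp, rfl⟩ := (hmem' t).1 ht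
    show 0 ≤ M.v (incK M A p.1) ↔ 0 ≤ N.v p.2
    rw [v_incK, rh_nonneg (incG_strictMono M A), hT1.val p hp, rh_nonneg hρ]
  · intro t ht h0
    obtain ⟨p, hp, rfl⟩ := (hmem' t).1 ht
    have h0' : p.1 ≠ 0 := fun h => h0 ((hz0 _).2 h)
    have h2 : p.2 ≠ 0 := fun h => h0' ((hzp p hp).2 h)
    have h3 : N.vg p.2 = ρ ((subVF M A).vg p.1) := by
      apply N.vg_eq_of
      rw [hT1.val p hp, ← (subVF M A).coe_vg h0', rh_coe]
    refine (hmem' _).2 ⟨_, hT1.cs p hp h0', ?_⟩
    show (incK M A ((subCS hcl).s ((subVF M A).vg p.1)), cN.s (ρ ((subVF M A).vg p.1))) =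
      (cM.s (M.vg (incK M A p.1)), cN.s (N.vg p.2))
    rw [h3, incK_s hcl, ← vg_incK M A p.1 h0']
  · have hch : ∀ t : RI T', ∃ a : (subVF M A).k, inck M A a = M.res t.1.1 ∧
        y () a = N.res t.1.2 := by
      rintro ⟨t, ht, h0⟩
      obtain ⟨p, hp, rfl⟩ := (hmem' t).1 ht
      refine ⟨(subVF M A).res p.1, rfl, ?_⟩
      rw [← hσ]
      refine (hT1.res p hp ?_).symm
      have h0' : 0 ≤ M.v (incK M A p.1) := h0
      rw [v_incK, rh_nonneg (incG_strictMono M A)] at h0'
      exact h0'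
    choose f hf1 hf2 using hch
    have h1 := hy.comp (ι' := fun _ => RI T') (fun _ t => Sum.inr (f t))
    have e1 : (fun (_ : ringSig.Srt) (t : RI T') => M.res t.1.1) =
        fun _ t => inck M A (f t) := by
      funext _ t
      exact (hf1 t).symm
    have e2 : (fun (_ : ringSig.Srt) (t : RI T') => N.res t.1.2) =
        fun s t => y s (f t) := by
      funext s t
      exact (hf2 t).symm
    intro m φ r hφ
    have h2 := h1 m φ r
    have e3 : (fun s i => (fun (_ : ringSig.Srt) (t : RI T') => M.res t.1.1) s (r s i)) =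
        fun s i => inck M A (f (r s i)) := by rw [e1]
    have e4 : (fun s i => (fun (_ : ringSig.Srt) (t : RI T') => N.res t.1.2) s (r s i)) =
        fun s i => y s (f (r s i)) := by rw [e2]
    rw [e3] at hφ
    rw [e4]
    exact h2 hφ
  · have hch : ∀ t : GI T', ∃ a : (subVF M A).G, incG M A a = M.vg t.1.1 ∧
        z () a = N.vg t.1.2 := by
      rintro ⟨t, ht, h0⟩
      obtain ⟨p, hp, rfl⟩ := (hmem' t).1 ht
      have h0' : p.1 ≠ 0 := fun h => h0 ((hz0 _).2 h)
      refine ⟨(subVF M A).vg p.1, (vg_incK M A p.1 h0').symm, ?_⟩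
      rw [← hρz]
      refine (N.vg_eq_of ?_).symm
      rw [hT1.val p hp, ← (subVF M A).coe_vg h0', rh_coe]
    choose f hf1 hf2 using hch
    have h1 := hz.comp (ι' := fun _ => GI T') (fun _ t => Sum.inr (f t))
    have e1 : (fun (_ : oagSig.Srt) (t : GI T') => M.vg t.1.1) =
        fun _ t => incG M A (f t) := by
      funext _ t
      exact (hf1 t).symm
    have e2 : (fun (_ : oagSig.Srt) (t : GI T') => N.vg t.1.2) =
        fun s t => z s (f t) := by
      funext s t
      exact (hf2 t).symm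
    intro m φ r hφ
    have h2 := h1 m φ r
    have e3 : (fun s i => (fun (_ : oagSig.Srt) (t : GI T') => M.vg t.1.1) s (r s i)) =
        fun s i => incG M A (f (r s i)) := by rw [e1]
    have e4 : (fun s i => (fun (_ : oagSig.Srt) (t : GI T') => N.vg t.1.2) s (r s i)) =
        fun s i => z s (f (r s i)) := by rw [e2]
    rw [e3] at hφ
    rw [e4]
    exact h2 hφ
  · intro t ht
    obtain ⟨p, hp⟩ := exists_incK M A (hTA t ht)
    refine (hmem' t).2 ⟨(p, t.2), hle ?_, ?_⟩
    · rw [hTPmem]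
      show (incK M A p, t.2) ∈ T
      rw [hp]
      exact ht
    · show (incK M A p, t.2) = t
      rw [hp]
  · intro x hx
    obtain ⟨p, hp⟩ := exists_incK M A (hXA' x hx)
    obtain ⟨q, hq, hqp⟩ := hfull p
    refine ⟨(incK M A q.1, q.2), (hmem' _).2 ⟨q, hq, rfl⟩, ?_⟩
    rw [hqp, hp]

/-- **The game.** -/
theorem game {n : ℕ} : ∀ {M0 N0 M N : ValField.{u}} (_ : VU M0 M) (_ : VU N0 N)
    [CharZero M.k] [CharZero N.k] (_ : M.Henselian) (_ : N.Henselian) (cM : CS M) (cN : CS N)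
    {T : Subring (M.K × N.K)} (_ : BN cM cN T) (_ : GoodT n T),
    Game n (valStr M) (valStr N) (RT T) := by
  induction n with
  | zero => exact fun _ _ _ _ _ _ _ _ _ hT hG => piso hT hG
  | succ n ih =>
    intro M0 N0 M N hM hN _ _ hMh hNh cM cN T hT hG
    refine ⟨piso hT hG, fun k x => ?_⟩
    choose lR hlR1 hlR2 using M.res_surj
    have hlG : ∀ g : WithTop M.G, ∃ x, M.v x = g := by
      intro g
      cases g with
      | top => exact ⟨0, M.v_zero⟩
      | coe g => exact M.v_surj g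
    choose lG hlG using hlG
    let xF : Fin (k .F) → M.K := fun i => x .F i
    let xR : Fin (k .R) → M.k := fun i => x .R i
    let xG : Fin (k .G) → WithTop M.G := fun i => x .G i
    obtain ⟨T', hT', hG', hle, hcov⟩ := step hN hMh hNh cM cN hT hG
      (Set.range xF ∪ Set.range (fun i => lR (xR i)) ∪ Set.range (fun i => lG (xG i)))
      (((Set.countable_range _).union (Set.countable_range _)).union (Set.countable_range _))
    refine ⟨RT T', ?_, ?_, ?_⟩
    · intro s a b hab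
      cases s with
      | F => exact hle hab
      | R =>
        obtain ⟨t, ht, h⟩ := hab
        exact ⟨t, hle ht, h⟩
      | G =>
        obtain ⟨t, ht, h⟩ := hab
        exact ⟨t, hle ht, h⟩
    · intro s i
      cases s with
      | F =>
        obtain ⟨t, ht, h⟩ := hcov (xF i) (Or.inl (Or.inl ⟨i, rfl⟩))
        refine ⟨t.2, ?_⟩
        have : (xF i, t.2) ∈ T' := by
          rw [← h]
          exact ht
        exact this
      | R =>
        obtain ⟨t, ht, h⟩ := hcov (lR (xR i)) (Or.inl (Or.inr ⟨i, rfl⟩))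
        refine ⟨N.res t.2, t, ht, ?_, ?_, rfl⟩
        · rw [h]; exact hlR1 _
        · rw [h]; exact hlR2 _
      | G =>
        obtain ⟨t, ht, h⟩ := hcov (lG (xG i)) (Or.inr ⟨i, rfl⟩)
        refine ⟨N.v t.2, t, ht, ?_, rfl⟩
        rw [h]; exact hlG _
    · have hsw := ih hN hM hNh hMh cN cM hT'.sw (GoodT.sw hT' hG')
      have e : (fun s (b : (valStr N).A s) (a : (valStr M).A s) => RT T' s a b) = RT (sw T') := by
        funext s b a
        cases s with
        | F => rfl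
        | R =>
          apply propext
          constructor
          · rintro ⟨t, ht, h1, h2, h3⟩
            exact ⟨(t.2, t.1), ht, (hT'.nn t ht).1 h1, h3, h2⟩
          · rintro ⟨t, ht, h1, h2, h3⟩
            exact ⟨(t.2, t.1), ht, (hT'.nn (t.2, t.1) ht).2 h1, h3, h2⟩
        | G =>
          apply propext
          constructor
          · rintro ⟨t, ht, h2, h3⟩
            exact ⟨(t.2, t.1), ht, h3, h2⟩
          · rintro ⟨t, ht, h2, h3⟩
            exact ⟨(t.2, t.1), ht, h3, h2⟩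
      rw [e]
      exact hsw

end Pool.Agent.Helper71.AKE
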