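import Pool.Agent.Helper71.AKE.ExtG

/-!
# Pseudo-limits and Hensel's lemma
-/

set_option autoImplicit false

universe u

namespace Pool.Agent.Helper71.AKE

open Polynomial

/-- `z` is a pseudo-limit of the family `c` along the filter `F` -/
def PL (M : ValField.{u}) {ι : Type*} (F : Filter ι) (c : ι → M.K) (z : M.K) : Prop :=
  ∀ i, ∀ᶠ j in F, M.v (z - c i) < M.v (z - c j)

/-- the value of `q` stabilises along the family -/
def Stab (M : ValField.{u}) {ι : Type*} (F : Filter ι) (c : ι → M.K) (q : M.K[X]) : Prop :=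
  ∃ β : WithTop M.G, ∀ᶠ j in F, M.v (q.eval (c j)) = β

theorem exists_ev_min {ι α L : Type*} [LinearOrder L] {F : Filter ι} (f : α → ι → L)
    (S : Finset α) (hS : S.Nonempty)
    (htri : ∀ a ∈ S, ∀ b ∈ S, a ≠ b → (∀ᶠ j in F, f a j < f b j) ∨ (∀ᶠ j in F, f b j < f a j)) :
    ∃ a ∈ S, ∀ b ∈ S, b ≠ a → ∀ᶠ j in F, f a j < f b j := by
  classical
  induction hS using Finset.Nonempty.cons_induction with
  | singleton a =>
    refine ⟨a, Finset.mem_singleton_self a, fun b hb hba => ?_⟩
    exact absurd (Finset.mem_singleton.1 hb) hba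
  | cons a S ha hS ih =>
    obtain ⟨m, hm, hmin⟩ := ih fun x hx y hy => htri x (Finset.mem_cons_of_mem hx) y
      (Finset.mem_cons_of_mem hy)
    have hma : a ≠ m := fun h => ha (h ▸ hm)
    rcases htri a (Finset.mem_cons_self a S) m (Finset.mem_cons_of_mem hm) hma with h | h
    · refine ⟨a, Finset.mem_cons_self a S, fun b hb hba => ?_⟩
      rcases Finset.mem_cons.1 hb with h1 | h1
      · exact absurd h1 hba
      by_cases hbm : b = m
      · rw [hbm]; exact h
      · filter_upwards [h, hmin b h1 hbm] with j h2 h3 using h2.trans h3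
    · refine ⟨m, Finset.mem_cons_of_mem hm, fun b hb hbm => ?_⟩
      rcases Finset.mem_cons.1 hb with h1 | h1
      · rw [h1]; exact h
      · exact hmin b h1 hbm

section Dich

variable {M : ValField.{u}} {ι : Type*} {F : Filter ι} {c : ι → M.K} {z : M.K}

theorem v_term {t e : M.K} (ht : t ≠ 0) (he : e ≠ 0) (i : ℕ) :
    M.v (t * e ^ i) = ((M.vg t + i • M.vg e : M.G) : WithTop M.G) := by
  rw [M.v_mul, M.v_pow, WithTop.coe_add, M.coe_vg ht, WithTop.coe_nsmul, M.coe_vg he]

variable [F.NeBot]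

theorem PL.ne (h : PL M F c z) (j : ι) : c j ≠ z := by
  rintro rfl
  obtain ⟨k, hk⟩ := (h j).exists
  rw [sub_self, M.v_zero] at hk
  exact not_top_lt hk

theorem v_pow_sub (a b : M.K) (i : ℕ) (t : M.K) :
    M.v (t * (a - b) ^ i) = M.v (t * (b - a) ^ i) := by
  rw [M.v_mul, M.v_mul, M.v_pow, M.v_pow, M.v_sub_swap]

theorem vg_lt {a b : M.K} (ha : a ≠ 0) (hb : b ≠ 0) : M.v a < M.v b ↔ M.vg a < M.vg b := by
  rw [← M.coe_vg ha, ← M.coe_vg hb, WithTop.coe_lt_coe]

theorem pair_cmp (h : PL M F c z) {t t' : M.K} (ht : t ≠ 0) (ht' : t' ≠ 0) {i i' : ℕ}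
    (hi : i < i') : (∀ᶠ j in F, M.v (t * (c j - z) ^ i) < M.v (t' * (c j - z) ^ i')) ∨
      (∀ᶠ j in F, M.v (t' * (c j - z) ^ i') < M.v (t * (c j - z) ^ i)) := by
  by_cases hex : ∃ j0, M.v (t * (c j0 - z) ^ i) ≤ M.v (t' * (c j0 - z) ^ i')
  · left
    obtain ⟨j0, hj0⟩ := hex
    filter_upwards [h j0] with j hj
    have e0 : c j0 - z ≠ 0 := sub_ne_zero.2 (h.ne j0)
    have e1 : c j - z ≠ 0 := sub_ne_zero.2 (h.ne j)
    rw [v_term ht e0, v_term ht' e0, WithTop.coe_le_coe] at hj0
    rw [v_term ht e1, v_term ht' e1, WithTop.coe_lt_coe]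
    rw [M.v_sub_swap z, M.v_sub_swap z, vg_lt e0 e1] at hj
    set δ0 := M.vg (c j0 - z)
    set δ := M.vg (c j - z)
    have h1 : δ = δ0 + (δ - δ0) := by rw [add_sub_cancel]
    have h2 : 0 < δ - δ0 := sub_pos.2 hj
    have h3 : i • (δ - δ0) < i' • (δ - δ0) := nsmul_lt_nsmul_left h2 hi
    rw [h1, nsmul_add, nsmul_add, ← add_assoc, ← add_assoc]
    exact add_lt_add_of_le_of_lt hj0 h3
  · right
    push Not at hex
    exact Filter.Eventually.of_forall hex

/-- The dominant Taylor coefficient. -/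
theorem dich (h : PL M F c z) {q : M.K[X]} (hq : q ≠ 0) :
    ∃ k, (taylor z q).coeff k ≠ 0 ∧ ∀ᶠ j in F, ∀ i, i ≠ k →
      M.v ((taylor z q).coeff k * (c j - z) ^ k) < M.v ((taylor z q).coeff i * (c j - z) ^ i) := by
  classical
  have hT : (taylor z q) ≠ 0 := by
    intro h1
    exact hq ((taylor_injective z) (by rw [h1, map_zero]))
  obtain ⟨k, hk, hmin⟩ := exists_ev_min (F := F)
    (fun i j => M.v ((taylor z q).coeff i * (c j - z) ^ i)) (taylor z q).support
    (by rwa [Finset.nonempty_iff_ne_empty, ne_eq, Polynomial.support_eq_empty])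
    (by
      intro a ha b hb hab
      rcases lt_or_gt_of_ne hab with h1 | h1
      · exact pair_cmp h (mem_support_iff.1 ha) (mem_support_iff.1 hb) h1
      · exact (pair_cmp h (mem_support_iff.1 hb) (mem_support_iff.1 ha) h1).symm)
  have hk0 := mem_support_iff.1 hk
  refine ⟨k, hk0, ?_⟩
  have hall : ∀ᶠ j in F, ∀ i ∈ (taylor z q).support, i ≠ k →
      M.v ((taylor z q).coeff k * (c j - z) ^ k) < M.v ((taylor z q).coeff i * (c j - z) ^ i) := by
    rw [Filter.eventually_all_finset]
    intro i hi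
    by_cases hik : i = k
    · exact Filter.Eventually.of_forall fun j h1 => absurd hik h1
    · filter_upwards [hmin i hi hik] with j hj _ using hj
  filter_upwards [hall] with j hj i hik
  by_cases hi : i ∈ (taylor z q).support
  · exact hj i hi hik
  · rw [notMem_support_iff.1 hi, zero_mul, M.v_zero, lt_top_iff_ne_top, M.v_ne_top]
    exact mul_ne_zero hk0 (pow_ne_zero _ (sub_ne_zero.2 (h.ne j)))

theorem eval_taylor_sum (q : M.K[X]) (z x : M.K) :
    q.eval x = ∑ i ∈ (taylor z q).support, (taylor z q).coeff i * (x - z) ^ i := by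
  have h1 : (taylor z q).eval (x - z) = q.eval x := by
    rw [taylor_eval, sub_add_cancel]
  rw [← h1, eval_eq_sum, sum_def]

theorem dich_val {q : M.K[X]} {k : ℕ} (hk : (taylor z q).coeff k ≠ 0) {x : M.K}
    (h : ∀ i, i ≠ k →
      M.v ((taylor z q).coeff k * (x - z) ^ k) < M.v ((taylor z q).coeff i * (x - z) ^ i)) :
    M.v (q.eval x) = M.v ((taylor z q).coeff k * (x - z) ^ k) := by
  classical
  rw [eval_taylor_sum q z x]
  exact M.v_sum_min (mem_support_iff.2 hk) fun j _ hj => h j hj

theorem not_stab (h : PL M F c z) {q : M.K[X]} {k : ℕ} (hk : 1 ≤ k)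
    (hk0 : (taylor z q).coeff k ≠ 0)
    (hv : ∀ᶠ j in F, M.v (q.eval (c j)) = M.v ((taylor z q).coeff k * (c j - z) ^ k)) :
    ¬ Stab M F c q := by
  rintro ⟨β, hβ⟩
  obtain ⟨j0, h1, h2⟩ := (hv.and hβ).exists
  obtain ⟨j1, ⟨h3, h4⟩, h5⟩ := ((hv.and hβ).and (h j0)).exists
  have e0 : c j0 - z ≠ 0 := sub_ne_zero.2 (h.ne j0)
  have e1 : c j1 - z ≠ 0 := sub_ne_zero.2 (h.ne j1)
  rw [M.v_sub_swap z, M.v_sub_swap z, vg_lt e0 e1] at h5
  have h6 : M.v ((taylor z q).coeff k * (c j0 - z) ^ k) =
      M.v ((taylor z q).coeff k * (c j1 - z) ^ k) := by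
    rw [← h1, ← h3, h2, h4]
  rw [v_term hk0 e0, v_term hk0 e1] at h6
  have h7 : k • M.vg (c j0 - z) = k • M.vg (c j1 - z) := by
    have := WithTop.coe_injective h6
    exact add_left_cancel this
  have h8 : k • M.vg (c j0 - z) < k • M.vg (c j1 - z) :=
    nsmul_lt_nsmul_right (by omega) h5
  exact absurd h7 h8.ne

theorem stab_val (h : PL M F c z) {q : M.K[X]} {β : WithTop M.G}
    (hβ : ∀ᶠ j in F, M.v (q.eval (c j)) = β) : M.v (q.eval z) = β := by
  by_cases hq : q = 0
  · obtain ⟨j, hj⟩ := hβ.exists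
    rw [hq, eval_zero] at hj ⊢
    exact hj
  obtain ⟨k, hk0, hk⟩ := dich h hq
  have hv : ∀ᶠ j in F, M.v (q.eval (c j)) = M.v ((taylor z q).coeff k * (c j - z) ^ k) := by
    filter_upwards [hk] with j hj using dich_val hk0 hj
  rcases Nat.eq_zero_or_pos k with hk1 | hk1
  · subst hk1
    obtain ⟨j, h1, h2⟩ := (hv.and hβ).exists
    rw [h2, pow_zero, mul_one, taylor_coeff_zero] at h1
    exact h1.symm
  · exact absurd ⟨β, hβ⟩ (not_stab h hk1 hk0 hv)

end Dich

/-! ### Hensel -/

section Hensel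

variable {M : ValField.{u}}

theorem hensel_unit (hM : M.Henselian) (n : ℕ) (r : M.K) (a : ℕ → M.K) (hr : 0 < M.v r)
    (ha : ∀ i, 0 < M.v (a i)) :
    ∃ u, M.v u = M.v r ∧ r + u + ∑ i ∈ Finset.range n, a i * u ^ (i + 2) = 0 := by
  classical
  by_cases hr0 : r = 0
  · refine ⟨0, by rw [hr0], ?_⟩
    rw [hr0, add_zero, zero_add]
    refine Finset.sum_eq_zero fun i _ => ?_
    rw [zero_pow (by omega), mul_zero]
  set b : ℕ → M.K := fun i => a i * (-r) ^ (i + 2) / r with hb
  have hbv : ∀ i, 0 < M.v (b i) := by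
    intro i
    have h1 : b i = a i * ((-r) ^ (i + 1) * (-1)) := by
      rw [hb]
      simp only
      rw [pow_succ (-r) (i + 1)]
      field_simp
    rw [h1, M.v_mul, M.v_mul, M.v_neg, M.v_one, add_zero, M.v_pow, M.v_neg]
    exact add_pos_of_pos_of_nonneg (ha i) (nsmul_nonneg hr.le _)
  set l : M.K[X] := ∑ i ∈ Finset.range n, C (b i) * X ^ (n - 1 - i) with hl
  have hlc : ∀ j, 0 < M.v (l.coeff j) := by
    intro j
    rw [hl, finsetSum_coeff]
    refine M.v_sum_gt WithTop.zero_ne_top fun i _ => ?_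
    rw [coeff_C_mul, coeff_X_pow]
    split_ifs
    · rw [mul_one]; exact hbv i
    · rw [mul_zero, M.v_zero]; exact WithTop.coe_lt_top 0
  have hldeg : l.degree < ((n + 1 : ℕ) : WithBot ℕ) := by
    rw [hl]
    refine lt_of_le_of_lt (degree_sum_le _ _) ?_
    rw [Finset.sup_lt_iff (by exact_mod_cast WithBot.bot_lt_coe (n + 1))]
    intro i _
    refine lt_of_le_of_lt (degree_C_mul_X_pow_le _ _) ?_
    norm_cast
    omega
  set g : M.K[X] := X ^ (n + 1) + (-X ^ n + l) with hg
  have hmon : g.Monic := by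
    refine monic_X_pow_add ?_
    refine lt_of_le_of_lt (degree_add_le _ _) (max_lt ?_ hldeg)
    rw [degree_neg, degree_X_pow]
    norm_cast
    omega
  have hint : ∀ i, 0 ≤ M.v (g.coeff i) := by
    intro i
    rw [hg, coeff_add, coeff_add, coeff_neg, coeff_X_pow, coeff_X_pow]
    refine M.v_add_nonneg ?_ (M.v_add_nonneg ?_ (hlc i).le)
    · split_ifs
      · exact M.v_one.ge
      · rw [M.v_zero]; exact le_top
    · rw [M.v_neg]
      split_ifs
      · exact M.v_one.ge
      · rw [M.v_zero]; exact le_top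
  have he1 : g.eval 1 = l.eval 1 := by
    rw [hg, eval_add, eval_add, eval_neg, eval_pow, eval_pow, eval_X, one_pow, one_pow]
    ring
  have hl1 : 0 < M.v (l.eval 1) := by
    rw [eval_eq_sum, sum_def]
    refine M.v_sum_gt WithTop.zero_ne_top fun i _ => ?_
    rw [one_pow, mul_one]
    exact hlc i
  have he2 : (derivative g).eval 1 = 1 + (derivative l).eval 1 := by
    rw [hg]
    simp only [derivative_X_pow, derivative_neg, eval_add, eval_neg, eval_mul,
      eval_natCast, eval_pow, eval_X, one_pow, mul_one, Nat.cast_add, Nat.cast_one, map_add,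
      map_natCast, map_one, eval_one]
    ring
  have hl2 : 0 < M.v ((derivative l).eval 1) := by
    rw [eval_eq_sum, sum_def]
    refine M.v_sum_gt WithTop.zero_ne_top fun i _ => ?_
    rw [one_pow, mul_one, coeff_derivative]
    have h : ((i : M.K) + 1) = ((i + 1 : ℕ) : M.K) := by push_cast; rfl
    rw [h, M.v_mul]
    exact add_pos_of_pos_of_nonneg (hlc _) (M.v_natCast_nonneg _)
  obtain ⟨y, hy0, hy1, hy2⟩ := hM g hmon hint 1 M.v_one.ge (by rw [he1]; exact hl1) (by
    rw [he2]
    have : M.v (1 : M.K) < M.v ((derivative l).eval 1) := by rw [M.v_one]; exact hl2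
    rw [M.v_add_left this, M.v_one])
  have hyv : M.v y = 0 := by
    have h1 : y = 1 + (y - 1) := by ring
    have : M.v (1 : M.K) < M.v (y - 1) := by rw [M.v_one]; exact hy2
    rw [h1, M.v_add_left this, M.v_one]
  have hyne : y ≠ 0 := by
    rw [← M.v_ne_top, hyv]
    exact WithTop.zero_ne_top
  refine ⟨-r / y, ?_, ?_⟩
  · rw [M.v_div, M.v_neg, hyv, sub_zero]
  · have key : (r + -r / y + ∑ i ∈ Finset.range n, a i * (-r / y) ^ (i + 2)) * y ^ (n + 1) =
        r * g.eval y := by
      rw [hg, eval_add, eval_add, eval_neg, eval_pow, eval_pow, eval_X, hl, eval_finsetSum,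
        add_mul, add_mul, mul_add, mul_add, Finset.sum_mul, Finset.mul_sum]
      have h1 : ∀ i ∈ Finset.range n, a i * (-r / y) ^ (i + 2) * y ^ (n + 1) =
          r * eval y (C (b i) * X ^ (n - 1 - i)) := by
        intro i hi
        have hi' := Finset.mem_range.1 hi
        have h2 : n + 1 = (n - 1 - i) + (i + 2) := by omega
        rw [eval_mul, eval_C, eval_pow, eval_X, hb]
        simp only
        rw [h2, div_pow]
        have h3 : (n - 1 - i) + (i + 2) - 1 - 1 - i = n - 1 - i := by omega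
        generalize n - 1 - i = m
        field_simp
        ring
      rw [Finset.sum_congr rfl h1, pow_succ]
      field_simp
      ring
    rw [hy1, mul_zero] at key
    exact (mul_eq_zero.1 key).resolve_right (pow_ne_zero _ hyne)

/-- A root near an approximate root, if the linear Taylor coefficient dominates. -/
theorem near_root (hM : M.Henselian) (q : M.K[X]) (z e : M.K) (he : e ≠ 0)
    (h1 : (taylor z q).coeff 1 ≠ 0)
    (h : ∀ i, i ≠ 1 → M.v ((taylor z q).coeff 1 * e ^ 1) < M.v ((taylor z q).coeff i * e ^ i)) :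
    ∃ x, q.eval x = 0 ∧ M.v ((taylor z q).coeff 1 * (x - z)) = M.v ((taylor z q).coeff 0) := by
  set t : ℕ → M.K := fun i => (taylor z q).coeff i with ht
  have ht1 : t 1 ≠ 0 := h1
  have h0 : t 1 * e ≠ 0 := mul_ne_zero h1 he
  have hdiv : ∀ x : M.K, M.v (t 1 * e) < M.v x → 0 < M.v (x / (t 1 * e)) := by
    intro x hx
    rw [M.v_div]
    have h2 : M.v x = M.v (x / (t 1 * e)) + M.v (t 1 * e) := by
      rw [← M.v_mul, div_mul_cancel₀ _ h0]
    rw [← M.v_div]
    rw [h2] at hx
    by_contra h3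
    push Not at h3
    have h4 : M.v (x / (t 1 * e)) + M.v (t 1 * e) ≤ 0 + M.v (t 1 * e) := by gcongr
    rw [zero_add] at h4
    exact absurd hx (not_lt.2 h4)
  have h' : ∀ i, i ≠ 1 → M.v (t 1 * e) < M.v (t i * e ^ i) := by
    intro i hi
    have := h i hi
    rw [pow_one] at this
    exact this
  set r := t 0 / (t 1 * e) with hr
  set a : ℕ → M.K := fun i => t (i + 2) * e ^ (i + 2) / (t 1 * e) with ha
  obtain ⟨u, hu1, hu2⟩ := hensel_unit hM q.natDegree r a (by
    have := h' 0 (by omega)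
    rw [pow_zero, mul_one] at this
    exact hdiv _ this) (fun i => hdiv _ (h' (i + 2) (by omega)))
  refine ⟨z + e * u, ?_, ?_⟩
  · have e1 : q.eval (z + e * u) = (taylor z q).eval (e * u) := by
      rw [taylor_eval, add_comm]
    rw [e1, eval_eq_sum_range' (n := q.natDegree + 2) (by rw [natDegree_taylor]; omega),
      Finset.sum_range_succ', Finset.sum_range_succ']
    have e2 : ∑ k ∈ Finset.range q.natDegree, (taylor z q).coeff (k + 1 + 1) *
        (e * u) ^ (k + 1 + 1) = (t 1 * e) * ∑ i ∈ Finset.range q.natDegree, a i * u ^ (i + 2) := by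
      rw [Finset.mul_sum]
      refine Finset.sum_congr rfl fun i _ => ?_
      rw [ha]
      simp only
      rw [mul_pow]
      have : (taylor z q).coeff (i + 1 + 1) = t (i + 2) := rfl
      rw [this]
      field_simp
    rw [e2]
    have e3 : (taylor z q).coeff (0 + 1) * (e * u) ^ (0 + 1) = (t 1 * e) * u := by
      have : (taylor z q).coeff (0 + 1) = t 1 := rfl
      rw [this]
      ring
    have e4 : (taylor z q).coeff 0 * (e * u) ^ 0 = (t 1 * e) * r := by
      have : (taylor z q).coeff 0 = t 0 := rfl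
      rw [this, hr, mul_div_cancel₀ _ h0, pow_zero, mul_one]
    rw [e3, e4]
    have e5 : (t 1 * e) * ∑ i ∈ Finset.range q.natDegree, a i * u ^ (i + 2) + (t 1 * e) * u +
        (t 1 * e) * r = (t 1 * e) * (r + u + ∑ i ∈ Finset.range q.natDegree, a i * u ^ (i + 2)) := by
      ring
    rw [e5, hu2, mul_zero]
  · rw [add_sub_cancel_left, M.v_mul, M.v_mul, hu1, ← M.v_mul, ← M.v_mul, ← mul_assoc]
    show M.v (t 1 * e * r) = M.v (t 0)
    rw [hr, mul_div_cancel₀ _ h0]

end Hensel

section Root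

variable {M : ValField.{u}} {ι : Type*} {F : Filter ι} [F.NeBot] {c : ι → M.K} {z : M.K}

theorem charZero_K [CharZero M.k] : CharZero M.K := by
  refine charZero_of_inj_zero fun n hn => ?_
  by_contra h
  have := M.v_natCast h
  rw [hn, M.v_zero] at this
  exact absurd this WithTop.top_ne_zero

/-- In residue characteristic zero, a polynomial which does not stabilise and whose derivative
does has a root which is a pseudo-limit. -/
theorem pl_root [CharZero M.k] (hM : M.Henselian) (h : PL M F c z) {q : M.K[X]}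
    (hq : ¬ Stab M F c q) (hq' : Stab M F c (derivative q)) :
    ∃ x, q.eval x = 0 ∧ ∀ j, M.v (x - c j) = M.v (z - c j) := by
  have : CharZero M.K := charZero_K
  have hq0 : q ≠ 0 := by
    rintro rfl
    exact hq ⟨⊤, Filter.Eventually.of_forall fun j => by rw [eval_zero, M.v_zero]⟩
  obtain ⟨k, hk0, hk⟩ := dich h hq0
  have hv : ∀ᶠ j in F, M.v (q.eval (c j)) = M.v ((taylor z q).coeff k * (c j - z) ^ k) := by
    filter_upwards [hk] with j hj using dich_val hk0 hj
  have hkpos : 1 ≤ k := by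
    by_contra hk1
    have hk2 : k = 0 := by omega
    subst hk2
    apply hq
    refine ⟨M.v ((taylor z q).coeff 0), ?_⟩
    filter_upwards [hv] with j hj
    rw [hj, pow_zero, mul_one]
  have hder : ∀ i, (taylor z (derivative q)).coeff i = (i + 1 : ℕ) * (taylor z q).coeff (i + 1) := by
    intro i
    have : taylor z (derivative q) = derivative (taylor z q) := by
      rw [taylor_apply, taylor_apply, derivative_comp]
      simp
    rw [this, coeff_derivative]
    push_cast
    ring
  have hvder : ∀ i, M.v ((taylor z (derivative q)).coeff i) = M.v ((taylor z q).coeff (i + 1)) := by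
    intro i
    rw [hder, M.v_mul, M.v_natCast (by omega), zero_add]
  have hdq0 : derivative q ≠ 0 := by
    intro h0
    have := hder (k - 1)
    rw [h0, map_zero, coeff_zero, Nat.sub_add_cancel hkpos] at this
    rcases mul_eq_zero.1 this.symm with h1 | h1
    · have : k ≠ 0 := by omega
      exact this (by exact_mod_cast h1)
    · exact hk0 h1
  obtain ⟨k', hk0', hk'⟩ := dich h hdq0
  have hv' : ∀ᶠ j in F, M.v ((derivative q).eval (c j)) =
      M.v ((taylor z (derivative q)).coeff k' * (c j - z) ^ k') := by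
    filter_upwards [hk'] with j hj using dich_val hk0' hj
  have hk'0 : k' = 0 := by
    by_contra h0
    exact not_stab h (by omega) hk0' hv' hq'
  subst hk'0
  have hk1 : k = 1 := by
    by_contra hne
    obtain ⟨j, hj1, hj2⟩ := (hk.and hk').exists
    have g1 := hj1 1 (by omega)
    have g2 := hj2 (k - 1) (by omega)
    have e0 : c j - z ≠ 0 := sub_ne_zero.2 (h.ne j)
    have g3 : M.v ((taylor z q).coeff 1) <
        M.v ((taylor z q).coeff k * (c j - z) ^ (k - 1)) := by
      rw [M.v_mul, M.v_mul, hvder, hvder, pow_zero, M.v_one, add_zero, ← M.v_mul] at g2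
      have : k - 1 + 1 = k := by omega
      rw [this] at g2
      exact g2
    have g4 : M.v ((taylor z q).coeff 1 * (c j - z) ^ 1) <
        M.v ((taylor z q).coeff k * (c j - z) ^ k) := by
      have e1 : (taylor z q).coeff k * (c j - z) ^ k =
          ((taylor z q).coeff k * (c j - z) ^ (k - 1)) * (c j - z) := by
        rw [mul_assoc, ← pow_succ]
        congr 2
        omega
      rw [e1, pow_one, M.v_mul, M.v_mul _ (c j - z)]
      exact WithTop.add_lt_add_right (M.v_ne_top.2 e0) g3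
    exact absurd g1 (not_lt.2 g4.le)
  subst hk1
  obtain ⟨j0, hj0⟩ := hk.exists
  have e0 : c j0 - z ≠ 0 := sub_ne_zero.2 (h.ne j0)
  obtain ⟨x, hx1, hx2⟩ := near_root hM q z (c j0 - z) e0 hk0 hj0
  refine ⟨x, hx1, fun j => ?_⟩
  have hlt : M.v (z - c j) < M.v (x - z) := by
    obtain ⟨j1, h1, h2⟩ := (hk.and (h j)).exists
    have h3 := h1 0 (by omega)
    rw [pow_zero, mul_one, ← hx2, pow_one, M.v_mul, M.v_mul] at h3
    have h4 : M.v (c j1 - z) < M.v (x - z) := by
      by_contra h5
      push Not at h5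
      have h6 : M.v ((taylor z q).coeff 1) + M.v (x - z) ≤
          M.v ((taylor z q).coeff 1) + M.v (c j1 - z) := by gcongr
      exact absurd h3 (not_lt.2 h6)
    rw [M.v_sub_swap z (c j1)] at h2
    exact h2.trans h4
  have e1 : x - c j = (z - c j) + (x - z) := by ring
  rw [e1, M.v_add_left hlt]

end Root

end Pool.Agent.Helper71.AKE
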