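import Pool.Agent.Helper71.AKE.Logic

/-!
# Ultrapowers, saturation, and back-and-forth games for fragments
-/

set_option autoImplicit false

universe u v w

namespace Pool.Agent.Helper71.AKE

open Filter

variable {S : Sig}

/-- `N` is (isomorphic to) the ultrapower of `B`. -/
structure IsUltra (U : Ultrafilter ℕ) (B N : Str.{u} S) where
  q : ∀ s, (ℕ → B.A s) → N.A s
  surj : ∀ s, Function.Surjective (q s)
  eq_iff : ∀ s (x y : ℕ → B.A s), q s x = q s y ↔ ∀ᶠ n in (U : Filter ℕ), x n = y n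
  fn : ∀ (f : S.Fn) (x : ∀ i, ℕ → B.A (S.fdom f i)),
    N.fn f (fun i => q _ (x i)) = q _ (fun n => B.fn f (fun i => x i n))
  rl : ∀ (R : S.Rl) (x : ∀ i, ℕ → B.A (S.rdom R i)),
    N.rl R (fun i => q _ (x i)) ↔ ∀ᶠ n in (U : Filter ℕ), B.rl R (fun i => x i n)

namespace IsUltra

variable {U : Ultrafilter ℕ} {B N : Str.{u} S} (h : IsUltra U B N)

include h

theorem tm {m : S.Srt → ℕ} (x : ∀ s, Fin (m s) → ℕ → B.A s) {s : S.Srt} (t : Tm S m s) :
    t.ev N (fun s i => h.q s (x s i)) = h.q s (fun n => t.ev B (fun s i => x s i n)) := by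
  induction t with
  | var s i => rfl
  | app f t ih =>
    show N.fn f _ = _
    rw [show (fun i => Tm.ev N (fun s i => h.q s (x s i)) (t i)) =
      fun i => h.q _ (fun n => (t i).ev B (fun s i => x s i n)) from funext ih, h.fn]
    rfl

theorem qf {m : S.Srt → ℕ} (x : ∀ s, Fin (m s) → ℕ → B.A s) (φ : QF S m) :
    φ.Holds N (fun s i => h.q s (x s i)) ↔
      ∀ᶠ n in (U : Filter ℕ), φ.Holds B (fun s i => x s i n) := by
  induction φ with
  | tru => simp [QF.Holds]
  | eq s t u =>
    show _ = _ ↔ _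
    rw [h.tm, h.tm, h.eq_iff]
    rfl
  | rel R t =>
    show N.rl R _ ↔ _
    simp only [h.tm]
    rw [h.rl]
    rfl
  | not φ ih =>
    show ¬ _ ↔ _
    rw [ih]
    exact Ultrafilter.eventually_not.symm
  | and φ ψ ih1 ih2 =>
    show _ ∧ _ ↔ _
    rw [ih1, ih2]
    exact eventually_and.symm

theorem app2_eq {m k : S.Srt → ℕ} (x : ∀ s, Fin (m s) → ℕ → B.A s)
    (w : ∀ s, Fin (k s) → ℕ → B.A s) :
    app2 (fun s i => h.q s (x s i)) (fun s i => h.q s (w s i)) =
      fun s i => h.q s ((fun s i n => app2 (fun s i => x s i n) (fun s i => w s i n) s i) s i) := by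
  funext s i
  refine Fin.addCases (fun i => ?_) (fun j => ?_) i <;> simp [app2]

theorem los (hB : ∀ s, Nonempty (B.A s)) {l : List Bool} {m : S.Srt → ℕ} (φ : Pre S l m) :
    ∀ (x : ∀ s, Fin (m s) → ℕ → B.A s), φ.Holds N (fun s i => h.q s (x s i)) ↔
      ∀ᶠ n in (U : Filter ℕ), φ.Holds B (fun s i => x s i n) := by
  induction φ with
  | qf φ => exact fun x => h.qf x φ
  | blk q k φ ih =>
    intro x
    have key : ∀ w : (∀ s, Fin (k s) → ℕ → B.A s),
        φ.Holds N (app2 (fun s i => h.q s (x s i)) (fun s i => h.q s (w s i))) ↔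
        ∀ᶠ n in (U : Filter ℕ), φ.Holds B (app2 (fun s i => x s i n) (fun s i => w s i n)) := by
      intro w
      rw [h.app2_eq, ih]
    cases q with
    | true =>
      show (∃ z, _) ↔ ∀ᶠ n in (U : Filter ℕ), ∃ z, _
      constructor
      · rintro ⟨z, hz⟩
        choose w hw using fun s (i : Fin (k s)) => h.surj s (z s i)
        have hz' : z = fun s i => h.q s (w s i) := by
          funext s i
          exact (hw s i).symm
        rw [hz', key] at hz
        exact hz.mono fun n hn => ⟨_, hn⟩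
      · intro hx
        classical
        let w : ∀ n : ℕ, ∀ s, Fin (k s) → B.A s := fun n =>
          if hn : ∃ z, φ.Holds B (app2 (fun s i => x s i n) z) then hn.choose
          else fun s _ => (hB s).some
        refine ⟨fun s i => h.q s (fun n => w n s i), ?_⟩
        rw [key fun s i n => w n s i]
        refine hx.mono fun n hn => ?_
        have : w n = hn.choose := dif_pos hn
        show φ.Holds B (app2 (fun s i => x s i n) (w n))
        rw [this]
        exact hn.choose_spec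
    | false =>
      show (∀ z, _) ↔ ∀ᶠ n in (U : Filter ℕ), ∀ z, _
      constructor
      · intro hx
        by_contra hcon
        rw [← Ultrafilter.eventually_not] at hcon
        have hcon' : ∀ᶠ n in (U : Filter ℕ), ∃ z, ¬ φ.Holds B (app2 (fun s i => x s i n) z) :=
          hcon.mono fun n hn => by
            by_contra h'
            push Not at h'
            exact hn h'
        classical
        let w : ∀ n : ℕ, ∀ s, Fin (k s) → B.A s := fun n =>
          if hn : ∃ z, ¬ φ.Holds B (app2 (fun s i => x s i n) z) then hn.choose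
          else fun s _ => (hB s).some
        have h1 := hx (fun s i => h.q s (fun n => w n s i))
        rw [key fun s i n => w n s i] at h1
        have h2 : ∀ᶠ n in (U : Filter ℕ), ¬ φ.Holds B (app2 (fun s i => x s i n) (w n)) := by
          refine hcon'.mono fun n hn => ?_
          have : w n = hn.choose := dif_pos hn
          rw [this]
          exact hn.choose_spec
        obtain ⟨n, hn1, hn2⟩ := (h1.and h2).exists
        exact hn2 hn1
      · intro hx z
        choose w hw using fun s (i : Fin (k s)) => h.surj s (z s i)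
        have hz' : z = fun s i => h.q s (w s i) := by
          funext s i
          exact (hw s i).symm
        rw [hz', key]
        exact hx.mono fun n hn => hn _

end IsUltra

/-- countable saturation, in terms of representatives -/
theorem sat {X : Type u} [Nonempty X] (U : Ultrafilter ℕ)
    (hU : ∀ k, ∀ᶠ n in (U : Filter ℕ), k ≤ n) (D : ℕ → ℕ → Set X)
    (h : ∀ J, ∀ᶠ n in (U : Filter ℕ), ∃ x, ∀ j < J, x ∈ D j n) :
    ∃ y : ℕ → X, ∀ j, ∀ᶠ n in (U : Filter ℕ), y n ∈ D j n := by
  classical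
  let P : ℕ → ℕ → Prop := fun n J => ∃ x, ∀ j < J, x ∈ D j n
  have hP : ∀ n, P n (Nat.findGreatest (P n) n) := by
    intro n
    refine Nat.findGreatest_spec (P := P n) (m := 0) (Nat.zero_le _) ?_
    exact ⟨Classical.arbitrary X, fun j hj => absurd hj (Nat.not_lt_zero j)⟩
  choose y hy using hP
  refine ⟨y, fun j => ?_⟩
  filter_upwards [hU (j + 1), h (j + 1)] with n h1 h2
  exact hy n j (Nat.lt_of_lt_of_le (Nat.lt_succ_self j) (Nat.le_findGreatest h1 h2))

/-- The assignments `a`, `b` of the same variables: each formula with the quantifier blocks `l`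
which holds in `M` under `a` holds in `N` under `b`. -/
def Good (l : List Bool) (M N : Str.{u} S) {ι : S.Srt → Type v} (a : ∀ s, ι s → M.A s)
    (b : ∀ s, ι s → N.A s) : Prop :=
  ∀ (m : S.Srt → ℕ) (φ : Pre S l m) (r : ∀ s, Fin (m s) → ι s),
    φ.Holds M (fun s i => a s (r s i)) → φ.Holds N (fun s i => b s (r s i))

/-- existential closure with respect to some of the variables -/
theorem exq {l : List Bool} {ι : S.Srt → Type v} {κ : S.Srt → Type w} {m : S.Srt → ℕ}
    (χ : Pre S (true :: l) m) (r : ∀ s, Fin (m s) → ι s ⊕ κ s) :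
    ∃ (m' : S.Srt → ℕ) (ψ : Pre S (true :: l) m') (r' : ∀ s, Fin (m' s) → ι s),
      ∀ (M : Str.{u} S) (_ : ∀ s, Nonempty (M.A s)) (e : ∀ s, ι s → M.A s),
        ψ.Holds M (fun s i => e s (r' s i)) ↔
          ∃ y : ∀ s, κ s → M.A s, χ.Holds M (fun s i => Sum.elim (e s) (y s) (r s i)) := by
  classical
  let T1 : S.Srt → Type v := fun s => {c : ι s // ∃ i, r s i = Sum.inl c}
  let T2 : S.Srt → Type w := fun s => {c : κ s // ∃ i, r s i = Sum.inr c}
  have f1 : ∀ s, Finite (T1 s) := by
    intro s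
    refine Finite.of_injective (fun c : T1 s => c.2.choose) ?_
    intro c d hcd
    have h1 := c.2.choose_spec
    have h2 := d.2.choose_spec
    simp only at hcd
    rw [hcd, h2] at h1
    exact Subtype.ext (Sum.inl.inj h1).symm
  have f2 : ∀ s, Finite (T2 s) := by
    intro s
    refine Finite.of_injective (fun c : T2 s => c.2.choose) ?_
    intro c d hcd
    have h1 := c.2.choose_spec
    have h2 := d.2.choose_spec
    simp only at hcd
    rw [hcd, h2] at h1
    exact Subtype.ext (Sum.inr.inj h1).symm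
  let E1 : ∀ s, T1 s ≃ Fin (Nat.card (T1 s)) := fun s => Finite.equivFin (T1 s)
  let E2 : ∀ s, T2 s ≃ Fin (Nat.card (T2 s)) := fun s => Finite.equivFin (T2 s)
  let g0 : ∀ s (i : Fin (m s)) (c : ι s ⊕ κ s), r s i = c →
      Fin (Nat.card (T1 s) + Nat.card (T2 s)) := fun s i c =>
    match c with
    | .inl c => fun hc => Fin.castAdd _ (E1 s ⟨c, i, hc⟩)
    | .inr c => fun hc => Fin.natAdd _ (E2 s ⟨c, i, hc⟩)
  let g : ∀ s, Fin (m s) → Fin (Nat.card (T1 s) + Nat.card (T2 s)) := fun s i => g0 s i _ rfl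
  have key : ∀ (M : Str.{u} S) (e : ∀ s, ι s → M.A s) (y : ∀ s, κ s → M.A s)
      (z : ∀ s, Fin (Nat.card (T2 s)) → M.A s) (_ : ∀ s (c : T2 s), z s (E2 s c) = y s c.1),
      (fun s i => app2 (fun s j => e s ((E1 s).symm j).1) z s (g s i)) =
        fun s i => Sum.elim (e s) (y s) (r s i) := by
    intro M e y z hz
    funext s i
    have h0 : ∀ (c : ι s ⊕ κ s) (hc : r s i = c),
        app2 (fun s j => e s ((E1 s).symm j).1) z s (g0 s i c hc) = Sum.elim (e s) (y s) c := by
      intro c hc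
      cases c with
      | inl c => simp [g0, app2]
      | inr c => simpa [g0, app2] using hz s ⟨c, i, hc⟩
    exact h0 _ rfl
  obtain ⟨ψ, hψ⟩ := exists_merge.{u} (χ.ren g)
  refine ⟨fun s => Nat.card (T1 s), ψ, fun s j => ((E1 s).symm j).1, fun M hM e => ?_⟩
  rw [hψ]
  constructor
  · rintro ⟨z, hz⟩
    refine ⟨fun s c => if hc : ∃ i, r s i = Sum.inr c then z s (E2 s ⟨c, hc⟩)
      else (hM s).some, ?_⟩
    rw [Pre.holds_ren] at hz
    rwa [key M e _ z] at hz
    intro s c
    rw [dif_pos c.2]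
  · rintro ⟨y, hy⟩
    refine ⟨fun s j => y s ((E2 s).symm j).1, ?_⟩
    rw [Pre.holds_ren, key M e y _ (by intro s c; simp)]
    exact hy

theorem exq_list {l : List Bool} {ι : S.Srt → Type v} {κ : S.Srt → Type w}
    (L : List (Σ m : S.Srt → ℕ, Pre S (true :: l) m × (∀ s, Fin (m s) → ι s ⊕ κ s))) :
    ∃ (m' : S.Srt → ℕ) (ψ : Pre S (true :: l) m') (r' : ∀ s, Fin (m' s) → ι s),
      ∀ (M : Str.{u} S) (_ : ∀ s, Nonempty (M.A s)) (e : ∀ s, ι s → M.A s),
        ψ.Holds M (fun s i => e s (r' s i)) ↔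
          ∃ y : ∀ s, κ s → M.A s, ∀ p ∈ L,
            p.2.1.Holds M (fun s i => Sum.elim (e s) (y s) (p.2.2 s i)) := by
  have hL : ∃ (m : S.Srt → ℕ) (χ : Pre S (true :: l) m) (r : ∀ s, Fin (m s) → ι s ⊕ κ s),
      ∀ (M : Str.{u} S) (_ : ∀ s, Nonempty (M.A s)) (e : ∀ s, ι s ⊕ κ s → M.A s),
        χ.Holds M (fun s i => e s (r s i)) ↔
          ∀ p ∈ L, p.2.1.Holds M (fun s i => e s (p.2.2 s i)) := by
    induction L with
    | nil =>
      obtain ⟨χ, hχ⟩ := exists_ofQF.{u} (true :: l) (QF.tru : QF S (fun _ => 0))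
      exact ⟨_, χ, fun s i => i.elim0, fun M _ e => (hχ M _).trans (by simp [QF.Holds])⟩
    | cons p L ih =>
      obtain ⟨m, χ, r, h⟩ := ih
      obtain ⟨m1, φ, r1⟩ := p
      obtain ⟨χ', h'⟩ := exists_conj.{u} (true :: l)
        (φ.ren (m' := fun s => m1 s + m s) fun s i => Fin.castAdd _ i)
        (χ.ren (m' := fun s => m1 s + m s) fun s i => Fin.natAdd _ i)
      refine ⟨_, χ', fun s => Fin.append (r1 s) (r s), fun M hM e => ?_⟩
      rw [h' M hM, Pre.holds_ren, Pre.holds_ren]
      simp only [Fin.append_left, Fin.append_right]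
      rw [h M hM]
      simp
  obtain ⟨m, χ, r, h⟩ := hL
  obtain ⟨m', ψ, r', h'⟩ := exq.{u} χ r
  refine ⟨m', ψ, r', fun M hM e => (h' M hM e).trans ?_⟩
  refine exists_congr fun y => ?_
  exact h M hM (fun s => Sum.elim (e s) (y s))

/-- **Extension lemma.** -/
theorem good_ext [Finite S.Srt] [Countable S.Fn] [Countable S.Rl] {l : List Bool}
    {U : Ultrafilter ℕ} (hU : ∀ k, ∀ᶠ n in (U : Filter ℕ), k ≤ n)
    {M B N : Str.{u} S} (hM : ∀ s, Nonempty (M.A s)) (hB : ∀ s, Nonempty (B.A s))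
    (h : IsUltra U B N) {ι κ : S.Srt → Type v} [∀ s, Countable (ι s)] [∀ s, Countable (κ s)]
    {a : ∀ s, ι s → M.A s} {b : ∀ s, ι s → N.A s} (hab : Good (true :: l) M N a b)
    (x : ∀ s, κ s → M.A s) :
    ∃ y : ∀ s, κ s → N.A s,
      Good (true :: l) M N (fun s => Sum.elim (a s) (x s)) (fun s => Sum.elim (b s) (y s)) := by
  classical
  choose b' hb' using fun s (i : ι s) => h.surj s (b s i)
  have hN : ∀ s, Nonempty (N.A s) := fun s => ⟨h.q s fun _ => (hB s).some⟩
  let J : Type v := {p : (Σ m : S.Srt → ℕ, Pre S (true :: l) m × (∀ s, Fin (m s) → ι s ⊕ κ s)) //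
    p.2.1.Holds M (fun s i => Sum.elim (a s) (x s) (p.2.2 s i))}
  have hcp : ∀ m : S.Srt → ℕ, Countable (Pre S (true :: l) m) := countable_pre (true :: l)
  have hJc : Countable J := inferInstance
  obtain ⟨χ0, hχ0⟩ := exists_ofQF.{u} (true :: l) (QF.tru : QF S (fun _ => 0))
  have hJn : Nonempty J := ⟨⟨⟨_, χ0, fun s i => i.elim0⟩, (hχ0 M _).2 trivial⟩⟩
  obtain ⟨F, hF⟩ := exists_surjective_nat J
  let D : ℕ → ℕ → Set (∀ s, κ s → B.A s) := fun j n =>
    {y | (F j).1.2.1.Holds B (fun s i => Sum.elim (fun c => b' s c n) (y s) ((F j).1.2.2 s i))}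
  have : Nonempty (∀ s, κ s → B.A s) := ⟨fun s _ => (hB s).some⟩
  obtain ⟨y, hy⟩ := sat U hU D (by
    intro J0
    obtain ⟨m', ψ, r', hψ⟩ := exq_list.{u} ((List.range J0).map fun j => (F j).1)
    have h1 : ψ.Holds M (fun s i => a s (r' s i)) := by
      rw [hψ M hM]
      refine ⟨x, fun p hp => ?_⟩
      obtain ⟨j, _, rfl⟩ := List.mem_map.1 hp
      exact (F j).2
    have h2 := hab m' ψ r' h1
    have h3 : (fun s i => b s (r' s i)) = fun s i => h.q s (b' s (r' s i)) := by
      funext s i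
      exact (hb' s (r' s i)).symm
    rw [h3, h.los hB ψ (fun s i => b' s (r' s i))] at h2
    refine h2.mono fun n hn => ?_
    rw [hψ B hB (fun s c => b' s c n)] at hn
    obtain ⟨y, hy⟩ := hn
    refine ⟨y, fun j hj => ?_⟩
    exact hy _ (List.mem_map.2 ⟨j, List.mem_range.2 hj, rfl⟩))
  refine ⟨fun s c => h.q s (fun n => y n s c), ?_⟩
  intro m φ r hφ
  obtain ⟨j, hj⟩ := hF ⟨⟨m, φ, r⟩, hφ⟩
  have h4 := hy j
  have h5 : (fun s i => Sum.elim (b s) (fun c => h.q s (fun n => y n s c)) (r s i)) =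
      fun s i => h.q s ((fun s i n => Sum.elim (fun c => b' s c n) (y n s) (r s i)) s i) := by
    funext s i
    show Sum.elim (b s) (fun c => h.q s (fun n => y n s c)) (r s i) =
      h.q s (fun n => Sum.elim (fun c => b' s c n) (y n s) (r s i))
    cases hri : r s i with
    | inl c => exact (hb' s c).symm
    | inr c => rfl
  show φ.Holds N (fun s i => Sum.elim (b s) (fun c => h.q s (fun n => y n s c)) (r s i))
  rw [h5, h.los hB φ (fun s i n => Sum.elim (fun c => b' s c n) (y n s) (r s i))]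
  refine h4.mono fun n hn => ?_
  have hn' : (F j).1.2.1.Holds B
    (fun s i => Sum.elim (fun c => b' s c n) (y n s) ((F j).1.2.2 s i)) := hn
  rw [hj] at hn'
  exact hn'

/-- the alternating pattern with `n` blocks which starts with an existential block -/
def alt : ℕ → List Bool
  | 0 => []
  | n + 1 => true :: (alt n).map (!·)

theorem Good.neg {l : List Bool} {M N : Str.{u} S} {ι : S.Srt → Type v} {a : ∀ s, ι s → M.A s}
    {b : ∀ s, ι s → N.A s} (h : Good l M N a b) : Good (l.map (!·)) N M b a := by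
  intro m φ r hφ
  obtain ⟨χ, hχ⟩ := exists_neg.{u} φ
  by_contra hcon
  have hll : (l.map (!·)).map (!·) = l := by simp [List.map_map, Function.comp_def]
  have h2 : Good ((l.map (!·)).map (!·)) M N a b := by rw [hll]; exact h
  exact (hχ N _).1 (h2 m χ r ((hχ M _).2 hcon)) hφ

theorem Good.tail {q : Bool} {l : List Bool} {M N : Str.{u} S} {ι : S.Srt → Type v}
    {a : ∀ s, ι s → M.A s} {b : ∀ s, ι s → N.A s} (h : Good (q :: l) M N a b) :
    Good l M N a b := by
  intro m φ r hφ
  obtain ⟨χ, hχ⟩ := exists_weaken.{u} q φ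
  exact (hχ N _).1 (h m χ r ((hχ M _).2 hφ))

theorem Good.swap {n : ℕ} {M N : Str.{u} S} {ι : S.Srt → Type v} {a : ∀ s, ι s → M.A s}
    {b : ∀ s, ι s → N.A s} (h : Good (alt (n + 1)) M N a b) : Good (alt n) N M b a := by
  have h1 : Good ((alt n).map (!·)) M N a b := Good.tail h
  have h2 := h1.neg
  simpa [List.map_map, Function.comp_def] using h2

theorem Good.qf {l : List Bool} {M N : Str.{u} S} {ι : S.Srt → Type v} {a : ∀ s, ι s → M.A s}
    {b : ∀ s, ι s → N.A s} (h : Good l M N a b) {m : S.Srt → ℕ} (φ : QF S m)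
    (r : ∀ s, Fin (m s) → ι s) :
    φ.Holds M (fun s i => a s (r s i)) ↔ φ.Holds N (fun s i => b s (r s i)) := by
  have h1 : ∀ φ : QF S m, φ.Holds M (fun s i => a s (r s i)) →
      φ.Holds N (fun s i => b s (r s i)) := by
    intro φ hφ
    obtain ⟨χ, hχ⟩ := exists_ofQF.{u} l φ
    exact (hχ N _).1 (h m χ r ((hχ M _).2 hφ))
  refine ⟨h1 φ, fun h2 => ?_⟩
  by_contra h3
  exact h1 (.not φ) h3 h2

theorem Good.comp {l : List Bool} {M N : Str.{u} S} {ι : S.Srt → Type v} {ι' : S.Srt → Type w}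
    {a : ∀ s, ι s → M.A s}
    {b : ∀ s, ι s → N.A s} (h : Good l M N a b) (g : ∀ s, ι' s → ι s) :
    Good l M N (fun s i => a s (g s i)) (fun s i => b s (g s i)) :=
  fun m φ r hφ => h m φ (fun s i => g s (r s i)) hφ

/-- partial isomorphisms, as relations -/
structure PIso (M N : Str.{u} S) (R : ∀ s, M.A s → N.A s → Prop) : Prop where
  fn : ∀ (f : S.Fn) x y, (∀ i, R _ (x i) (y i)) → R _ (M.fn f x) (N.fn f y)
  rl : ∀ (Q : S.Rl) x y, (∀ i, R _ (x i) (y i)) → (M.rl Q x ↔ N.rl Q y)
  eq : ∀ s x y x' y', R s x y → R s x' y' → (x = x' ↔ y = y')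

/-- the back-and-forth game with `n` moves, the first one in `M` -/
def Game : ℕ → (M N : Str.{u} S) → (∀ s, M.A s → N.A s → Prop) → Prop
  | 0, M, N, R => PIso M N R
  | n + 1, M, N, R => PIso M N R ∧ ∀ (k : S.Srt → ℕ) (x : ∀ s, Fin (k s) → M.A s),
      ∃ R' : ∀ s, M.A s → N.A s → Prop, (∀ s a b, R s a b → R' s a b) ∧
        (∀ s i, ∃ b, R' s (x s i) b) ∧ Game n N M (fun s b a => R' s a b)

theorem Game.piso {n : ℕ} {M N : Str.{u} S} {R : ∀ s, M.A s → N.A s → Prop}
    (h : Game n M N R) : PIso M N R := by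
  cases n with
  | zero => exact h
  | succ n => exact h.1

theorem PIso.tm {M N : Str.{u} S} {R : ∀ s, M.A s → N.A s → Prop} (h : PIso M N R)
    {m : S.Srt → ℕ} {e : ∀ s, Fin (m s) → M.A s} {e' : ∀ s, Fin (m s) → N.A s}
    (hR : ∀ s i, R s (e s i) (e' s i)) {s : S.Srt} (t : Tm S m s) :
    R s (t.ev M e) (t.ev N e') := by
  induction t with
  | var s i => exact hR s i
  | app f t ih => exact h.fn f _ _ ih

theorem PIso.qf {M N : Str.{u} S} {R : ∀ s, M.A s → N.A s → Prop} (h : PIso M N R)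
    {m : S.Srt → ℕ} {e : ∀ s, Fin (m s) → M.A s} {e' : ∀ s, Fin (m s) → N.A s}
    (hR : ∀ s i, R s (e s i) (e' s i)) (φ : QF S m) : φ.Holds M e ↔ φ.Holds N e' := by
  induction φ with
  | tru => exact Iff.rfl
  | eq s t u => exact h.eq s _ _ _ _ (h.tm hR t) (h.tm hR u)
  | rel Q t => exact h.rl Q _ _ fun i => h.tm hR (t i)
  | not φ ih => exact not_congr ih
  | and φ ψ ih1 ih2 => exact and_congr ih1 ih2

/-- A winning strategy for the game with `n` moves preserves the formulas with `n` blocks which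
start with an existential one. -/
theorem Game.holds {n : ℕ} : ∀ {M N : Str.{u} S} {R : ∀ s, M.A s → N.A s → Prop}
    (_ : Game n M N R) {m : S.Srt → ℕ} {e : ∀ s, Fin (m s) → M.A s}
    {e' : ∀ s, Fin (m s) → N.A s} (_ : ∀ s i, R s (e s i) (e' s i)) (φ : Pre S (alt n) m),
    φ.Holds M e → φ.Holds N e' := by
  induction n with
  | zero =>
    intro M N R h m e e' hR φ hφ
    cases φ with
    | qf φ => exact (PIso.qf h hR φ).1 hφ
  | succ n ih =>
    intro M N R h m e e' hR φ hφ
    cases φ with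
    | blk _ k ψ =>
      obtain ⟨x, hx⟩ := hφ
      obtain ⟨R', h1, h2, h3⟩ := h.2 k x
      choose y hy using h2
      refine ⟨y, ?_⟩
      by_contra hcon
      obtain ⟨χ, hχ⟩ := exists_neg.{u} ψ
      have hll : ((alt n).map (!·)).map (!·) = alt n := by
        simp [List.map_map, Function.comp_def]
      have hR' : ∀ s i, R' s (app2 e x s i) (app2 e' y s i) := by
        intro s i
        refine Fin.addCases (fun i => ?_) (fun j => ?_) i
        · simp only [app2, Fin.append_left]
          exact h1 _ _ _ (hR s i)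
        · simp only [app2, Fin.append_right]
          exact hy s j
      have key : ∀ (l' : List Bool) (hl : l' = alt n)
          (χ : Pre S l' (fun s => m s + k s)), χ.Holds N (app2 e' y) → χ.Holds M (app2 e x) := by
        intro l' hl χ hχ
        subst hl
        exact ih h3 hR' χ hχ
      exact (hχ M _).1 (key _ hll χ ((hχ N _).2 hcon)) hx

end Pool.Agent.Helper71.AKE
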