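import Pool.Agent.Helper71.AKE.Sub

/-!
# The languages of rings, ordered abelian groups, and valued fields
-/

set_option autoImplicit false

universe u v w

namespace Pool.Agent.Helper71.AKE

instance : Finite ringSig.Srt := inferInstanceAs (Finite Unit)

instance : Finite oagSig.Srt := inferInstanceAs (Finite Unit)

instance : Countable ringSig.Fn := by
  have : Function.Injective (fun f : RFn => match f with
    | .zero => (0 : ℕ)
    | .one => 1
    | .add => 2
    | .neg => 3
    | .mul => 4) := by
    intro a b h
    cases a <;> cases b <;> simp_all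
  exact this.countable

instance : Countable oagSig.Fn := by
  have : Function.Injective (fun f : OFn => match f with
    | .zero => (0 : ℕ)
    | .add => 2
    | .neg => 3) := by
    intro a b h
    cases a <;> cases b <;> simp_all
  exact this.countable

instance : Countable ringSig.Rl := inferInstanceAs (Countable Empty)

instance : Countable oagSig.Rl := inferInstanceAs (Countable Unit)

theorem nonempty_ring (k : Type u) [Ring k] : ∀ s, Nonempty ((ringStr k).A s) :=
  fun _ => ⟨(0 : k)⟩

theorem nonempty_oag (G : Type u) [AddCommGroup G] [LinearOrder G] :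
    ∀ s, Nonempty ((oagStr G).A s) := fun _ => ⟨(0 : G)⟩

theorem nonempty_val (M : ValField.{u}) : ∀ s, Nonempty ((valStr M).A s) := fun s =>
  match s with
  | .F => ⟨(0 : M.K)⟩
  | .R => ⟨(0 : M.k)⟩
  | .G => ⟨(0 : WithTop M.G)⟩

/-! ### Ultrapowers -/

namespace VU

variable {M N : ValField.{u}} (h : VU M N)

noncomputable def ringU : IsUltra UU (ringStr M.k) (ringStr N.k) where
  q := fun _ => h.k
  surj := fun _ => h.k_surj
  eq_iff := fun _ => h.k_eq
  fn := by
    intro f x
    cases f with
    | zero => exact (map_zero h.k).symm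
    | one => exact (map_one h.k).symm
    | add => exact (map_add h.k _ _).symm
    | neg => exact (map_neg h.k _).symm
    | mul => exact (map_mul h.k _ _).symm
  rl := fun R => nomatch R

noncomputable def oagU : IsUltra UU (oagStr M.G) (oagStr N.G) where
  q := fun _ => h.G
  surj := fun _ => h.G_surj
  eq_iff := fun _ => h.G_eq
  fn := by
    intro f x
    cases f with
    | zero => exact (map_zero h.G).symm
    | add => exact (map_add h.G _ _).symm
    | neg => exact (map_neg h.G _).symm
  rl := fun _ x => h.G_lt _ _

theorem T_neg (x : ℕ → WithTop M.G) : h.T (fun n => -(x n)) = -(h.T x) := by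
  rcases qT_cases x with hx | ⟨y, hy⟩
  · have h1 : h.T x = ⊤ := by
      rw [← h.T_top, h.T_eq]
      exact hx
    have h2 : h.T (fun n => -(x n)) = ⊤ := by
      rw [← h.T_top, h.T_eq]
      filter_upwards [hx] with n hn
      rw [hn]
      rfl
    rw [h1, h2]
    rfl
  · have h1 : h.T x = (h.G y : WithTop N.G) := by
      rw [← h.T_coe, h.T_eq]
      exact hy
    have h2 : h.T (fun n => -(x n)) = (h.G (-y) : WithTop N.G) := by
      rw [← h.T_coe, h.T_eq]
      filter_upwards [hy] with n hn
      rw [hn]
      rfl
    rw [h1, h2, map_neg]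
    rfl

/-- the maps of the three sorts -/
noncomputable def q3 : ∀ s, (ℕ → (valStr M).A s) → (valStr N).A s
  | .F => h.K
  | .R => h.k
  | .G => h.T

noncomputable def valU : IsUltra UU (valStr M) (valStr N) where
  q := h.q3
  surj := fun s => match s with
    | .F => h.K_surj
    | .R => h.k_surj
    | .G => h.T_surj
  eq_iff := fun s => match s with
    | .F => h.K_eq
    | .R => h.k_eq
    | .G => h.T_eq
  fn := by
    intro f x
    cases f with
    | fzero => exact (map_zero h.K).symm
    | fone => exact (map_one h.K).symm
    | fadd => exact (map_add h.K _ _).symm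
    | fneg => exact (map_neg h.K _).symm
    | fmul => exact (map_mul h.K _ _).symm
    | rzero => exact (map_zero h.k).symm
    | rone => exact (map_one h.k).symm
    | radd => exact (map_add h.k _ _).symm
    | rneg => exact (map_neg h.k _).symm
    | rmul => exact (map_mul h.k _ _).symm
    | gzero => exact h.T_zero.symm
    | ginf => exact h.T_top.symm
    | gadd => exact (h.T_add _ _).symm
    | gneg => exact (h.T_neg _).symm
    | v => exact h.v _
    | res => exact h.res _
  rl := fun _ x => h.T_lt _ _

end VU

/-! ### Families of elements and homomorphisms -/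

section Hom

/-- `x = y` -/
def eqF {S : Sig} (s : S.Srt) : QF S (fun _ => 2) := .eq s (.var s (0 : Fin 2)) (.var s (1 : Fin 2))

/-- `x + y = z` -/
def addF : QF ringSig (fun _ => 3) :=
  QF.eq (S := ringSig) ()
    (Tm.app (S := ringSig) RFn.add (fun (i : Fin 2) => Tm.var (S := ringSig) () i.castSucc))
    (Tm.var (S := ringSig) () (2 : Fin 3))

/-- `x * y = z` -/
def mulF : QF ringSig (fun _ => 3) :=
  QF.eq (S := ringSig) ()
    (Tm.app (S := ringSig) RFn.mul (fun (i : Fin 2) => Tm.var (S := ringSig) () i.castSucc))
    (Tm.var (S := ringSig) () (2 : Fin 3))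

/-- `1 = x` -/
def oneF : QF ringSig (fun _ => 1) :=
  QF.eq (S := ringSig) () (Tm.app (S := ringSig) RFn.one (fun (i : Fin 0) => i.elim0))
    (Tm.var (S := ringSig) () (0 : Fin 1))

/-- `x + y = z` -/
def addG : QF oagSig (fun _ => 3) :=
  QF.eq (S := oagSig) ()
    (Tm.app (S := oagSig) OFn.add (fun (i : Fin 2) => Tm.var (S := oagSig) () i.castSucc))
    (Tm.var (S := oagSig) () (2 : Fin 3))

/-- `x < y` -/
def ltG : QF oagSig (fun _ => 2) :=
  QF.rel (S := oagSig) () (fun (i : Fin 2) => Tm.var (S := oagSig) () i)

theorem good_ring {l : List Bool} {k k' : Type u} {E : Type v} [Ring k] [Ring k'] [Ring E]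
    (f : E →+* k) (y : E → k')
    (h : Good l (ringStr k) (ringStr k') (ι := fun _ => E) (fun _ a => f a) (fun _ a => y a)) :
    ∃ g : E →+* k', ∀ a, g a = y a := by
  have hadd : ∀ a b, y a + y b = y (a + b) := by
    intro a b
    exact (h.qf addF (fun _ => ![a, b, a + b])).1 (map_add f a b).symm
  have hmul : ∀ a b, y a * y b = y (a * b) := by
    intro a b
    exact (h.qf mulF (fun _ => ![a, b, a * b])).1 (map_mul f a b).symm
  have hone : 1 = y 1 := (h.qf oneF (fun _ => ![1])).1 (map_one f).symm
  have hzero : y 0 = 0 := by
    have := hadd 0 0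
    rw [add_zero] at this
    simpa using this
  exact ⟨{ toFun := y, map_one' := hone.symm, map_zero' := hzero,
           map_add' := fun a b => (hadd a b).symm, map_mul' := fun a b => (hmul a b).symm },
    fun a => rfl⟩

theorem good_oag {l : List Bool} {G G' : Type u} {E : Type v} [AddCommGroup G] [LinearOrder G]
    [AddCommGroup G'] [LinearOrder G'] [AddCommGroup E] [LinearOrder E]
    (f : E →+ G) (hf : StrictMono f) (y : E → G')
    (h : Good l (oagStr G) (oagStr G') (ι := fun _ => E) (fun _ a => f a) (fun _ a => y a)) :
    ∃ g : E →+ G', StrictMono g ∧ ∀ a, g a = y a := by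
  have hadd : ∀ a b, y a + y b = y (a + b) := by
    intro a b
    exact (h.qf addG (fun _ => ![a, b, a + b])).1 (map_add f a b).symm
  have hlt : ∀ a b, a < b → y a < y b := by
    intro a b hab
    exact (h.qf ltG (fun _ => ![a, b])).1 (hf hab)
  have hzero : y 0 = 0 := by
    have := hadd 0 0
    rw [add_zero] at this
    simpa using this
  exact ⟨{ toFun := y, map_zero' := hzero, map_add' := fun a b => (hadd a b).symm },
    fun a b hab => hlt a b hab, fun a => rfl⟩

end Hom

end Pool.Agent.Helper71.AKE
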