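import Pool.Agent.Helper71.AKE.CrossSec

/-!
# Countable subfields of a valued field
-/

set_option autoImplicit false

universe u v

namespace Pool.Agent.Helper71.AKE

open Polynomial

/-- countable sets have countable closures under countably many operations -/
theorem exists_closed {K : Type u} {J : Type v} [Countable J] (ar : J → ℕ)
    (op : ∀ j, (Fin (ar j) → K) → K) (X : Set K) (hX : X.Countable) :
    ∃ Y : Set K, X ⊆ Y ∧ Y.Countable ∧ ∀ j (w : Fin (ar j) → K), (∀ i, w i ∈ Y) → op j w ∈ Y := by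
  let C : ℕ → Set K := fun n => Nat.rec X
    (fun _ D => D ∪ ⋃ j : J, op j '' {w | ∀ i, w i ∈ D}) n
  have hC : ∀ n, (C n).Countable := by
    intro n
    induction n with
    | zero => exact hX
    | succ n ih =>
      refine ih.union (Set.countable_iUnion fun j => Set.Countable.image ?_ _)
      exact Set.countable_pi fun i => ih
  have hmono : ∀ n, C n ⊆ C (n + 1) := fun n => Set.subset_union_left
  have hmono' : ∀ a b, a ≤ b → C a ⊆ C b := by
    intro a b hab
    induction hab with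
    | refl => exact subset_rfl
    | step _ ih => exact ih.trans (hmono _)
  refine ⟨⋃ n, C n, Set.subset_iUnion C 0, Set.countable_iUnion hC, fun j w hw => ?_⟩
  choose g hg using fun i => Set.mem_iUnion.1 (hw i)
  refine Set.mem_iUnion.2 ⟨(Finset.univ.sup g) + 1, Or.inr (Set.mem_iUnion.2 ⟨j, w, fun i => ?_,
    rfl⟩)⟩
  exact hmono' _ _ (Finset.le_sup (Finset.mem_univ i)) (hg i)

section Closed

variable (N : ValField.{u}) (c : CS N)

open Classical in
/-- choice of Hensel roots -/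
noncomputable def hens (d : ℕ) (w : Fin (d + 1) → N.K) : N.K :=
  if h : ∃ b, 0 ≤ N.v b ∧ (X ^ d + ∑ i : Fin d, C (w i.castSucc) * X ^ (i : ℕ)).eval b = 0 ∧
    0 < N.v (b - w (Fin.last d)) then h.choose else 0

/-- the number of arguments of the operations -/
def opAr : ℕ → ℕ
  | 0 => 0
  | 1 => 2
  | 2 => 2
  | 3 => 1
  | 4 => 1
  | 5 => 1
  | (d + 6) => d + 1

/-- the operations -/
noncomputable def opK : (j : ℕ) → (Fin (opAr j) → N.K) → N.K
  | 0, _ => 1
  | 1, w => w (0 : Fin 2) + w (1 : Fin 2)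
  | 2, w => w (0 : Fin 2) * w (1 : Fin 2)
  | 3, w => -(w (0 : Fin 1))
  | 4, w => (w (0 : Fin 1))⁻¹
  | 5, w => c.s (N.vg (w (0 : Fin 1)))
  | (d + 6), w => hens N d w

/-- closed subfields -/
structure Closed (A : Subfield N.K) : Prop where
  cs : ∀ x ∈ A, c.s (N.vg x) ∈ A
  hens : ∀ (d : ℕ) (w : Fin (d + 1) → N.K), (∀ i, w i ∈ A) → hens N d w ∈ A

theorem exists_closed_subfield (X : Set N.K) (hX : X.Countable) :
    ∃ A : Subfield N.K, X ⊆ A ∧ (A : Set N.K).Countable ∧ Closed N c A := by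
  obtain ⟨Y, hXY, hY, hcl⟩ := exists_closed opAr (opK N c) X hX
  have h1 : (1 : N.K) ∈ Y := hcl 0 (fun i => i.elim0) (fun i => i.elim0)
  have hadd : ∀ x y, x ∈ Y → y ∈ Y → x + y ∈ Y := by
    intro x y hx hy
    exact hcl 1 ![x, y] (by
      intro i
      show (![x, y] : Fin 2 → N.K) i ∈ Y
      have : ∀ i : Fin 2, (![x, y] : Fin 2 → N.K) i ∈ Y := by
        intro i
        fin_cases i
        · exact hx
        · exact hy
      exact this i)
  have hmul : ∀ x y, x ∈ Y → y ∈ Y → x * y ∈ Y := by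
    intro x y hx hy
    exact hcl 2 ![x, y] (by
      intro i
      have : ∀ i : Fin 2, (![x, y] : Fin 2 → N.K) i ∈ Y := by
        intro i
        fin_cases i
        · exact hx
        · exact hy
      exact this i)
  have hneg : ∀ x, x ∈ Y → -x ∈ Y := fun x hx => hcl 3 (fun _ => x) (fun _ => hx)
  have hinv : ∀ x, x ∈ Y → x⁻¹ ∈ Y := fun x hx => hcl 4 (fun _ => x) (fun _ => hx)
  have hcs : ∀ x, x ∈ Y → c.s (N.vg x) ∈ Y := fun x hx => hcl 5 (fun _ => x) (fun _ => hx)
  have hhens : ∀ (d : ℕ) (w : Fin (d + 1) → N.K), (∀ i, w i ∈ Y) → AKE.hens N d w ∈ Y :=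
    fun d w hw => hcl (d + 6) w hw
  have h0 : (0 : N.K) ∈ Y := by
    have := hadd 1 (-1) h1 (hneg 1 h1)
    rwa [add_neg_cancel] at this
  let A : Subfield N.K :=
    { carrier := Y
      one_mem' := h1
      zero_mem' := h0
      mul_mem' := fun {a b} ha hb => hmul a b ha hb
      add_mem' := fun {a b} ha hb => hadd a b ha hb
      neg_mem' := fun {a} ha => hneg a ha
      inv_mem' := fun a ha => hinv a ha }
  exact ⟨A, hXY, hY, ⟨hcs, hhens⟩⟩

end Closed

section SubVF

variable (N : ValField.{u}) (A : Subfield N.K)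

/-- the residue field of a subfield -/
def resF : Subfield N.k where
  carrier := {a | ∃ t ∈ A, 0 ≤ N.v t ∧ N.res t = a}
  one_mem' := ⟨1, A.one_mem, N.v_one.ge, N.res_one⟩
  zero_mem' := ⟨0, A.zero_mem, by rw [N.v_zero]; exact le_top, N.res_zero⟩
  mul_mem' := by
    rintro _ _ ⟨t, ht, h1, rfl⟩ ⟨t', ht', h1', rfl⟩
    exact ⟨t * t', A.mul_mem ht ht', N.v_mul_nonneg h1 h1', N.res_mul _ _ h1 h1'⟩
  add_mem' := by
    rintro _ _ ⟨t, ht, h1, rfl⟩ ⟨t', ht', h1', rfl⟩
    exact ⟨t + t', A.add_mem ht ht', N.v_add_nonneg h1 h1', N.res_add _ _ h1 h1'⟩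
  neg_mem' := by
    rintro _ ⟨t, ht, h1, rfl⟩
    exact ⟨-t, A.neg_mem ht, by rw [N.v_neg]; exact h1, N.res_neg _⟩
  inv_mem' := by
    rintro _ ⟨t, ht, h1, rfl⟩
    by_cases h : N.res t = 0
    · exact ⟨0, A.zero_mem, by rw [N.v_zero]; exact le_top, by
        rw [h, inv_zero]; exact N.res_zero⟩
    · have h2 := (N.res_ne_zero_iff h1).1 h
      exact ⟨_, A.inv_mem ht, by rw [N.v_inv, h2, neg_zero], N.res_inv h2⟩

theorem vg_inv {x : N.K} (hx : x ≠ 0) : N.vg x⁻¹ = - N.vg x := by
  have h := N.vg_mul (inv_ne_zero hx) hx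
  rw [inv_mul_cancel₀ hx, N.vg_eq_of (g := 0) (by rw [N.v_one]; rfl)] at h
  exact eq_neg_of_add_eq_zero_left h.symm

/-- the value group of a subfield -/
def valG : AddSubgroup N.G where
  carrier := {g | ∃ t ∈ A, t ≠ 0 ∧ N.vg t = g}
  zero_mem' := ⟨1, A.one_mem, one_ne_zero, N.vg_eq_of (g := 0) (by rw [N.v_one]; rfl)⟩
  add_mem' := by
    rintro _ _ ⟨t, ht, h1, rfl⟩ ⟨t', ht', h1', rfl⟩
    exact ⟨t * t', A.mul_mem ht ht', mul_ne_zero h1 h1', N.vg_mul h1 h1'⟩
  neg_mem' := by
    rintro _ ⟨t, ht, h1, rfl⟩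
    exact ⟨t⁻¹, A.inv_mem ht, inv_ne_zero h1, vg_inv N h1⟩

open Classical in
/-- the valuation of a subfield -/
noncomputable def subv (x : ↥A) : WithTop ↥(valG N A) :=
  if h : x.1 = 0 then ⊤ else ((⟨N.vg x.1, x.1, x.2, h, rfl⟩ : ↥(valG N A)) : WithTop ↥(valG N A))

/-- the inclusion of the values -/
def wm (g : WithTop ↥(valG N A)) : WithTop N.G := WithTop.map Subtype.val g

theorem wm_add (g h : WithTop ↥(valG N A)) : wm N A (g + h) = wm N A g + wm N A h :=
  ((valG N A).subtype.withTopMap).map_add g h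

theorem wm_zero : wm N A 0 = 0 := rfl

theorem wm_strictMono : StrictMono (wm N A) := WithTop.strictMono_map_iff.2 fun _ _ h => h

theorem wm_le {g h : WithTop ↥(valG N A)} : wm N A g ≤ wm N A h ↔ g ≤ h :=
  (wm_strictMono N A).le_iff_le

theorem wm_lt {g h : WithTop ↥(valG N A)} : wm N A g < wm N A h ↔ g < h :=
  (wm_strictMono N A).lt_iff_lt

theorem wm_subv (x : ↥A) : wm N A (subv N A x) = N.v x.1 := by
  by_cases h : x.1 = 0
  · rw [subv, dif_pos h, h, N.v_zero]
    rfl
  · rw [subv, dif_neg h, ← N.coe_vg h]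
    rfl

theorem subv_nonneg (x : ↥A) : 0 ≤ subv N A x ↔ 0 ≤ N.v x.1 := by
  rw [← wm_subv, ← wm_zero N A, wm_le]

theorem subv_pos (x : ↥A) : 0 < subv N A x ↔ 0 < N.v x.1 := by
  rw [← wm_subv, ← wm_zero N A, wm_lt]

theorem subv_neg (x : ↥A) : subv N A x < 0 ↔ N.v x.1 < 0 := by
  rw [← wm_subv, ← wm_zero N A, wm_lt]

theorem res_mem (x : ↥A) : N.res x.1 ∈ resF N A := by
  by_cases h : 0 ≤ N.v x.1
  · exact ⟨x.1, x.2, h, rfl⟩
  · rw [N.res_out _ (not_le.1 h)]
    exact (resF N A).zero_mem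

/-- **Subfields of a valued field.** -/
noncomputable def subVF : ValField.{u} where
  K := ↥A
  k := ↥(resF N A)
  G := ↥(valG N A)
  v := subv N A
  res x := ⟨N.res x.1, res_mem N A x⟩
  v_top := by
    intro x
    rw [subv]
    split_ifs with h
    · exact iff_of_true rfl (Subtype.ext h)
    · exact iff_of_false WithTop.coe_ne_top fun h' => h (by rw [h']; rfl)
  v_mul := by
    intro x y
    apply (wm_strictMono N A).injective
    rw [wm_add, wm_subv, wm_subv, wm_subv]
    exact N.v_mul _ _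
  v_add := by
    intro x y
    rw [min_le_iff, ← wm_le, ← wm_le, wm_subv, wm_subv, wm_subv, ← min_le_iff]
    exact N.v_add _ _
  v_surj := by
    rintro ⟨g, x, hx, hx0, rfl⟩
    exact ⟨⟨x, hx⟩, by rw [subv, dif_neg hx0]⟩
  res_one := Subtype.ext N.res_one
  res_add := by
    intro x y hx hy
    exact Subtype.ext (N.res_add _ _ ((subv_nonneg N A x).1 hx) ((subv_nonneg N A y).1 hy))
  res_mul := by
    intro x y hx hy
    exact Subtype.ext (N.res_mul _ _ ((subv_nonneg N A x).1 hx) ((subv_nonneg N A y).1 hy))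
  res_surj := by
    rintro ⟨a, x, hx, h1, rfl⟩
    exact ⟨⟨x, hx⟩, (subv_nonneg N A _).2 h1, rfl⟩
  res_ker := by
    intro x hx
    rw [subv_pos, ← N.res_ker _ ((subv_nonneg N A x).1 hx)]
    exact Subtype.ext_iff
  res_out := by
    intro x hx
    exact Subtype.ext (N.res_out _ ((subv_neg N A x).1 hx))

/-- the inclusion maps -/
noncomputable def incK : (subVF N A).K →+* N.K := A.subtype

noncomputable def inck : (subVF N A).k →+* N.k := (resF N A).subtype

noncomputable def incG : (subVF N A).G →+ N.G := (valG N A).subtype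

theorem incK_inj : Function.Injective (incK N A) := Subtype.val_injective

theorem incK_mem (x : (subVF N A).K) : incK N A x ∈ A := x.2

theorem exists_incK {x : N.K} (hx : x ∈ A) : ∃ y, incK N A y = x := ⟨⟨x, hx⟩, rfl⟩

theorem incG_strictMono : StrictMono (incG N A) := fun _ _ h => h

theorem v_incK (x : (subVF N A).K) : N.v (incK N A x) = rh (incG N A) ((subVF N A).v x) :=
  (wm_subv N A x).symm

theorem res_incK (x : (subVF N A).K) : N.res (incK N A x) = inck N A ((subVF N A).res x) := rfl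

theorem vg_incK (x : (subVF N A).K) (hx : x ≠ 0) :
    N.vg (incK N A x) = incG N A ((subVF N A).vg x) := by
  apply N.vg_eq_of
  rw [v_incK, ← (subVF N A).coe_vg hx, rh_coe]

instance [CharZero N.k] : CharZero (subVF N A).k :=
  inferInstanceAs (CharZero ↥(resF N A))

variable {N A} {c : CS N}

/-- the induced cross-section -/
noncomputable def subCS (hA : Closed N c A) : CS (subVF N A) where
  s g := ⟨c.s g.1, by
    obtain ⟨x, hx, _, h2⟩ := g.2
    rw [← h2]
    exact hA.cs x hx⟩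
  v_s g := by
    apply (wm_strictMono N A).injective
    refine (wm_subv N A _).trans ?_
    rw [c.v_s]
    rfl
  s_add g h := Subtype.ext (c.s_add _ _)

theorem incK_s (hA : Closed N c A) (g : (subVF N A).G) :
    incK N A ((subCS hA).s g) = c.s (incG N A g) := rfl

theorem henselian_sub (hA : Closed N c A) (hN : N.Henselian) : (subVF N A).Henselian := by
  intro f hf hint a ha0 ha1 ha2
  have hnn : ∀ x : (subVF N A).K, 0 ≤ N.v (incK N A x) ↔ 0 ≤ (subVF N A).v x := by
    intro x
    rw [v_incK, rh_nonneg (incG_strictMono N A)]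
  have hp : ∀ x : (subVF N A).K, 0 < N.v (incK N A x) ↔ 0 < (subVF N A).v x := by
    intro x
    rw [v_incK, rh_pos (incG_strictMono N A)]
  have hz : ∀ x : (subVF N A).K, N.v (incK N A x) = 0 ↔ (subVF N A).v x = 0 := by
    intro x
    rw [v_incK, ← rh_zero (incG N A), rh_inj (incG_strictMono N A)]
  have hev : ∀ (p : (subVF N A).K[X]) (x : (subVF N A).K),
      (p.map (incK N A)).eval (incK N A x) = incK N A (p.eval x) := by
    intro p x
    rw [eval_map, eval₂_at_apply]
  have hex := hN (f.map (incK N A)) (hf.map _) (fun i => by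
      rw [coeff_map, hnn]; exact hint i) (incK N A a) ((hnn a).2 ha0)
    (by rw [hev, hp]; exact ha1) (by rw [derivative_map, hev, hz]; exact ha2)
  set d := f.natDegree with hd
  set w : Fin (d + 1) → N.K := Fin.snoc (fun i : Fin d => incK N A (f.coeff i)) (incK N A a)
    with hw
  have hw1 : ∀ i : Fin d, w i.castSucc = incK N A (f.coeff i) := by
    intro i
    rw [hw, Fin.snoc_castSucc]
  have hw2 : w (Fin.last d) = incK N A a := by rw [hw, Fin.snoc_last]
  have hpoly : (X ^ d + ∑ i : Fin d, C (w i.castSucc) * X ^ (i : ℕ)) = f.map (incK N A) := by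
    have h1 := (hf.map (incK N A)).as_sum
    rw [hf.natDegree_map, ← hd, ← Fin.sum_univ_eq_sum_range
      (fun i => C ((f.map (incK N A)).coeff i) * X ^ i)] at h1
    rw [h1]
    congr 1
    refine Finset.sum_congr rfl fun i _ => ?_
    rw [hw1, coeff_map]
  have hwA : ∀ i, w i ∈ A := by
    intro i
    refine Fin.lastCases ?_ (fun i => ?_) i
    · rw [hw2]; exact incK_mem N A a
    · rw [hw1]; exact incK_mem N A _
  have hex' : ∃ b, 0 ≤ N.v b ∧
      (X ^ d + ∑ i : Fin d, C (w i.castSucc) * X ^ (i : ℕ)).eval b = 0 ∧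
      0 < N.v (b - w (Fin.last d)) := by
    rw [hpoly, hw2]
    exact hex
  have hmem := hA.hens d w hwA
  have hval : hens N d w = hex'.choose := dif_pos hex'
  have hspec := hex'.choose_spec
  rw [← hval, hpoly, hw2] at hspec
  obtain ⟨y, hy⟩ := exists_incK N A hmem
  rw [← hy] at hspec
  obtain ⟨h1, h2, h3⟩ := hspec
  refine ⟨y, (hnn y).1 h1, ?_, ?_⟩
  · rw [hev] at h2
    exact incK_inj N A (h2.trans (map_zero _).symm)
  · rw [← map_sub, hp] at h3
    exact h3

end SubVF

end Pool.Agent.Helper71.AKE
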