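import Pool.Agent.Helper71.AKE.ExtI
import Pool.Agent.Helper71.AKE.Sat

/-!
# Ultrapowers of valued fields
-/

set_option autoImplicit false

universe u

namespace Pool.Agent.Helper71.AKE

open Filter Polynomial

/-- a nonprincipal ultrafilter on `ℕ` -/
noncomputable abbrev UU : Ultrafilter ℕ := hyperfilter ℕ

theorem hUU : ∀ k, ∀ᶠ n in (UU : Filter ℕ), k ≤ n := fun k => by
  have h : ∀ᶠ n in (cofinite : Filter ℕ), k ≤ n := by
    rw [Nat.cofinite_eq_atTop]
    exact eventually_ge_atTop k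
  exact hyperfilter_le_cofinite h

/-- germs -/
abbrev Gm (X : Type u) : Type u := Germ (UU : Filter ℕ) X

/-- the germ of a sequence -/
noncomputable def mk {X : Type u} (x : ℕ → X) : Gm X := Germ.ofFun x

section mk

variable {X : Type u}

theorem mk_eq {x y : ℕ → X} : mk x = mk y ↔ ∀ᶠ n in (UU : Filter ℕ), x n = y n := Germ.coe_eq

theorem mk_surj (z : Gm X) : ∃ x, mk x = z := by
  induction z using Germ.inductionOn with
  | h f => exact ⟨f, rfl⟩

theorem mk_add [Add X] (x y : ℕ → X) : mk (fun n => x n + y n) = mk x + mk y := rfl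

theorem mk_mul [Mul X] (x y : ℕ → X) : mk (fun n => x n * y n) = mk x * mk y := rfl

theorem mk_neg [Neg X] (x : ℕ → X) : mk (fun n => -x n) = - mk x := rfl

theorem mk_sub [Sub X] (x y : ℕ → X) : mk (fun n => x n - y n) = mk x - mk y := rfl

theorem mk_inv [Inv X] (x : ℕ → X) : mk (fun n => (x n)⁻¹) = (mk x)⁻¹ := rfl

theorem mk_zero [Zero X] : mk (fun _ => (0 : X)) = 0 := rfl

theorem mk_one [One X] : mk (fun _ => (1 : X)) = 1 := rfl

theorem mk_lt [Preorder X] {x y : ℕ → X} : mk x < mk y ↔ ∀ᶠ n in (UU : Filter ℕ), x n < y n :=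
  Germ.coe_lt

theorem mk_le [Preorder X] {x y : ℕ → X} : mk x ≤ mk y ↔ ∀ᶠ n in (UU : Filter ℕ), x n ≤ y n :=
  Germ.coe_le

theorem mk_zpow [DivInvMonoid X] (x : ℕ → X) (r : ℤ) : mk (fun n => x n ^ r) = mk x ^ r := rfl

end mk

section qT

variable {G : Type u}

open Classical in
/-- the germ of a sequence in `WithTop G` as an element of `WithTop` of the germs -/
noncomputable def qT (x : ℕ → WithTop G) [Inhabited G] : WithTop (Gm G) :=
  if ∀ᶠ n in (UU : Filter ℕ), x n = ⊤ then ⊤ else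
    ((mk (fun n => (x n).untopD default) : Gm G) : WithTop (Gm G))

variable [Inhabited G]

theorem qT_top {x : ℕ → WithTop G} (h : ∀ᶠ n in (UU : Filter ℕ), x n = ⊤) : qT x = ⊤ := if_pos h

theorem qT_coe {x : ℕ → WithTop G} {y : ℕ → G} (h : ∀ᶠ n in (UU : Filter ℕ), x n = y n) :
    qT x = ((mk y : Gm G) : WithTop (Gm G)) := by
  have h1 : ¬ ∀ᶠ n in (UU : Filter ℕ), x n = ⊤ := by
    intro h2
    obtain ⟨n, h3, h4⟩ := (h.and h2).exists
    rw [h3] at h4
    exact WithTop.coe_ne_top h4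
  rw [qT, if_neg h1, WithTop.coe_inj, mk_eq]
  filter_upwards [h] with n hn
  rw [hn]
  rfl

theorem qT_cases (x : ℕ → WithTop G) : (∀ᶠ n in (UU : Filter ℕ), x n = ⊤) ∨
    ∃ y : ℕ → G, ∀ᶠ n in (UU : Filter ℕ), x n = y n := by
  by_cases h : ∀ᶠ n in (UU : Filter ℕ), x n = ⊤
  · exact Or.inl h
  · right
    rw [← Ultrafilter.eventually_not] at h
    refine ⟨fun n => (x n).untopD default, ?_⟩
    filter_upwards [h] with n hn
    obtain ⟨g, hg⟩ := WithTop.ne_top_iff_exists.1 hn
    rw [← hg]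
    rfl

theorem qT_lt {x y : ℕ → WithTop G} [LinearOrder G] :
    qT x < qT y ↔ ∀ᶠ n in (UU : Filter ℕ), x n < y n := by
  rcases qT_cases x with hx | ⟨a, ha⟩
  · rw [qT_top hx]
    refine iff_of_false not_top_lt ?_
    intro h
    obtain ⟨n, h1, h2⟩ := (hx.and h).exists
    rw [h1] at h2
    exact not_top_lt h2
  · rcases qT_cases y with hy | ⟨b, hb⟩
    · rw [qT_top hy, qT_coe ha]
      refine iff_of_true (WithTop.coe_lt_top _) ?_
      filter_upwards [ha, hy] with n h1 h2
      rw [h1, h2]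
      exact WithTop.coe_lt_top _
    · rw [qT_coe ha, qT_coe hb, WithTop.coe_lt_coe, mk_lt]
      constructor
      · intro h
        filter_upwards [ha, hb, h] with n h1 h2 h3
        rw [h1, h2, WithTop.coe_lt_coe]
        exact h3
      · intro h
        filter_upwards [ha, hb, h] with n h1 h2 h3
        rw [h1, h2, WithTop.coe_lt_coe] at h3
        exact h3

theorem qT_le {x y : ℕ → WithTop G} [LinearOrder G] :
    qT x ≤ qT y ↔ ∀ᶠ n in (UU : Filter ℕ), x n ≤ y n := by
  rw [← not_lt, qT_lt, ← Ultrafilter.eventually_not]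
  simp only [not_lt]

theorem qT_eq {x y : ℕ → WithTop G} :
    qT x = qT y ↔ ∀ᶠ n in (UU : Filter ℕ), x n = y n := by
  rcases qT_cases x with hx | ⟨a, ha⟩
  · rcases qT_cases y with hy | ⟨b, hb⟩
    · rw [qT_top hy, qT_top hx]
      refine iff_of_true rfl ?_
      filter_upwards [hx, hy] with n h1 h2
      rw [h1, h2]
    · rw [qT_top hx, qT_coe hb]
      refine iff_of_false WithTop.top_ne_coe ?_
      intro h
      obtain ⟨n, ⟨h1, h2⟩, h3⟩ := ((hx.and hb).and h).exists
      rw [h1, h2] at h3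
      exact WithTop.top_ne_coe h3
  · rcases qT_cases y with hy | ⟨b, hb⟩
    · rw [qT_top hy, qT_coe ha]
      refine iff_of_false WithTop.coe_ne_top ?_
      intro h
      obtain ⟨n, ⟨h1, h2⟩, h3⟩ := ((hy.and ha).and h).exists
      rw [h1, h2] at h3
      exact WithTop.top_ne_coe h3.symm
    · rw [qT_coe ha, qT_coe hb, WithTop.coe_inj, mk_eq]
      constructor
      · intro h
        filter_upwards [ha, hb, h] with n h1 h2 h3
        rw [h1, h2, h3]
      · intro h
        filter_upwards [ha, hb, h] with n h1 h2 h3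
        rw [h1, h2, WithTop.coe_inj] at h3
        exact h3

theorem qT_surj (z : WithTop (Gm G)) : ∃ x, qT x = z := by
  cases z with
  | top => exact ⟨fun _ => ⊤, qT_top (Eventually.of_forall fun _ => rfl)⟩
  | coe z =>
    obtain ⟨x, rfl⟩ := mk_surj z
    exact ⟨fun n => x n, qT_coe (Eventually.of_forall fun _ => rfl)⟩

theorem qT_add {x y : ℕ → WithTop G} [Add G] :
    qT (fun n => x n + y n) = qT x + qT y := by
  rcases qT_cases x with hx | ⟨a, ha⟩
  · rw [qT_top hx, WithTop.top_add, qT_top]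
    filter_upwards [hx] with n hn
    rw [hn, WithTop.top_add]
  · rcases qT_cases y with hy | ⟨b, hb⟩
    · rw [qT_top hy, WithTop.add_top, qT_top]
      filter_upwards [hy] with n hn
      rw [hn, WithTop.add_top]
    · rw [qT_coe ha, qT_coe hb, ← WithTop.coe_add, ← mk_add, qT_coe]
      filter_upwards [ha, hb] with n h1 h2
      rw [h1, h2, WithTop.coe_add]

theorem qT_zero [Zero G] : qT (fun _ => (0 : WithTop G)) = 0 :=
  qT_coe (y := fun _ => (0 : G)) (Eventually.of_forall fun _ => rfl)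

end qT

instance (M : ValField.{u}) : Inhabited M.G := ⟨0⟩

/-- the valuation of the ultrapower -/
noncomputable def uv (M : ValField.{u}) (x : Gm M.K) : WithTop (Gm M.G) :=
  Germ.liftOn x (fun f => qT (fun n => M.v (f n))) (by
    intro f g hfg
    refine qT_eq.2 ?_
    filter_upwards [hfg] with n hn
    rw [hn])

theorem uv_mk (M : ValField.{u}) (x : ℕ → M.K) : uv M (mk x) = qT (fun n => M.v (x n)) := rfl

/-- the residue map of the ultrapower -/
noncomputable def ures (M : ValField.{u}) (x : Gm M.K) : Gm M.k := Germ.map M.res x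

theorem ures_mk (M : ValField.{u}) (x : ℕ → M.K) : ures M (mk x) = mk (fun n => M.res (x n)) := rfl

/-- **The ultrapower of a valued field.** -/
noncomputable def ultra (M : ValField.{u}) : ValField.{u} where
  K := Gm M.K
  k := Gm M.k
  G := Gm M.G
  v := uv M
  res := ures M
  v_top := by
    intro x
    obtain ⟨x, rfl⟩ := mk_surj x
    rw [uv_mk, ← mk_zero, mk_eq]
    have h : (⊤ : WithTop (Gm M.G)) = qT (fun _ => (⊤ : WithTop M.G)) :=
      (qT_top (Eventually.of_forall fun _ => rfl)).symm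
    rw [h, qT_eq]
    simp only [M.v_top]
  v_mul := by
    intro x y
    obtain ⟨x, rfl⟩ := mk_surj x
    obtain ⟨y, rfl⟩ := mk_surj y
    rw [← mk_mul, uv_mk, uv_mk, uv_mk, ← qT_add]
    simp only [M.v_mul]
  v_add := by
    intro x y
    obtain ⟨x, rfl⟩ := mk_surj x
    obtain ⟨y, rfl⟩ := mk_surj y
    rw [← mk_add, uv_mk, uv_mk, uv_mk, min_le_iff, qT_le, qT_le,
      ← Ultrafilter.eventually_or]
    exact Eventually.of_forall fun n => min_le_iff.1 (M.v_add (x n) (y n))
  v_surj := by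
    intro g
    obtain ⟨g, rfl⟩ := mk_surj g
    choose x hx using fun n => M.v_surj (g n)
    exact ⟨mk x, by rw [uv_mk]; exact qT_coe (Eventually.of_forall hx)⟩
  res_one := by
    rw [← mk_one, ures_mk]
    simp only [M.res_one, mk_one]
  res_add := by
    intro x y
    obtain ⟨x, rfl⟩ := mk_surj x
    obtain ⟨y, rfl⟩ := mk_surj y
    rw [uv_mk, uv_mk, ← qT_zero, qT_le, qT_le]
    intro hx hy
    rw [← mk_add, ures_mk, ures_mk, ures_mk, ← mk_add, mk_eq]
    filter_upwards [hx, hy] with n h1 h2 using M.res_add _ _ h1 h2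
  res_mul := by
    intro x y
    obtain ⟨x, rfl⟩ := mk_surj x
    obtain ⟨y, rfl⟩ := mk_surj y
    rw [uv_mk, uv_mk, ← qT_zero, qT_le, qT_le]
    intro hx hy
    rw [← mk_mul, ures_mk, ures_mk, ures_mk, ← mk_mul, mk_eq]
    filter_upwards [hx, hy] with n h1 h2 using M.res_mul _ _ h1 h2
  res_surj := by
    intro a
    obtain ⟨a, rfl⟩ := mk_surj a
    choose x hx hx' using fun n => M.res_surj (a n)
    refine ⟨mk x, ?_, ?_⟩
    · rw [uv_mk, ← qT_zero, qT_le]
      exact Eventually.of_forall hx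
    · rw [ures_mk]
      exact congrArg mk (funext hx')
  res_ker := by
    intro x
    obtain ⟨x, rfl⟩ := mk_surj x
    rw [uv_mk, ← qT_zero, qT_le, qT_lt, ures_mk, ← mk_zero, mk_eq]
    intro hx
    constructor
    · intro h
      filter_upwards [hx, h] with n h1 h2 using (M.res_ker _ h1).1 h2
    · intro h
      filter_upwards [hx, h] with n h1 h2 using (M.res_ker _ h1).2 h2
  res_out := by
    intro x
    obtain ⟨x, rfl⟩ := mk_surj x
    rw [uv_mk, ← qT_zero, qT_lt, ures_mk, ← mk_zero, mk_eq]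
    intro h
    filter_upwards [h] with n h1 using M.res_out _ h1

/-- `N` is (isomorphic to) the ultrapower of `M` -/
structure VU (M N : ValField.{u}) where
  K : (ℕ → M.K) →+* N.K
  k : (ℕ → M.k) →+* N.k
  G : (ℕ → M.G) →+ N.G
  T : (ℕ → WithTop M.G) → WithTop N.G
  K_surj : ∀ z, ∃ x, K x = z
  K_eq : ∀ x y, K x = K y ↔ ∀ᶠ n in (UU : Filter ℕ), x n = y n
  k_surj : ∀ z, ∃ x, k x = z
  k_eq : ∀ x y, k x = k y ↔ ∀ᶠ n in (UU : Filter ℕ), x n = y n
  G_surj : ∀ z, ∃ x, G x = z
  G_eq : ∀ x y, G x = G y ↔ ∀ᶠ n in (UU : Filter ℕ), x n = y n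
  G_lt : ∀ x y, G x < G y ↔ ∀ᶠ n in (UU : Filter ℕ), x n < y n
  T_surj : ∀ z, ∃ x, T x = z
  T_eq : ∀ x y, T x = T y ↔ ∀ᶠ n in (UU : Filter ℕ), x n = y n
  T_lt : ∀ x y, T x < T y ↔ ∀ᶠ n in (UU : Filter ℕ), x n < y n
  T_add : ∀ x y, T (fun n => x n + y n) = T x + T y
  T_top : T (fun _ => ⊤) = ⊤
  T_coe : ∀ x : ℕ → M.G, T (fun n => x n) = G x
  v : ∀ x, N.v (K x) = T (fun n => M.v (x n))
  res : ∀ x, N.res (K x) = k (fun n => M.res (x n))

/-- the ultrapower is an ultrapower -/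
noncomputable def ultraVU (M : ValField.{u}) : VU M (ultra M) where
  K := Germ.coeRingHom (UU : Filter ℕ)
  k := Germ.coeRingHom (UU : Filter ℕ)
  G := Germ.coeAddHom (UU : Filter ℕ)
  T := fun x => (qT x : WithTop (Gm M.G))
  K_surj := mk_surj
  K_eq := fun _ _ => mk_eq
  k_surj := mk_surj
  k_eq := fun _ _ => mk_eq
  G_surj := mk_surj
  G_eq := fun _ _ => mk_eq
  G_lt := fun _ _ => mk_lt
  T_surj := fun z => qT_surj (G := M.G) z
  T_eq := fun _ _ => qT_eq
  T_lt := fun _ _ => qT_lt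
  T_add := fun _ _ => qT_add
  T_top := qT_top (Eventually.of_forall fun _ => rfl)
  T_coe := fun _ => qT_coe (Eventually.of_forall fun _ => rfl)
  v := fun _ => rfl
  res := fun _ => rfl

namespace VU

variable {M N : ValField.{u}} (h : VU M N)

include h

theorem T_zero : h.T (fun _ => 0) = 0 := by
  have h1 := h.T_coe (fun _ => (0 : M.G))
  have h2 : h.G (fun _ => (0 : M.G)) = 0 := map_zero h.G
  rw [h2] at h1
  exact h1

theorem T_le (x y : ℕ → WithTop M.G) : h.T x ≤ h.T y ↔ ∀ᶠ n in (UU : Filter ℕ), x n ≤ y n := by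
  rw [← not_lt, h.T_lt, ← Ultrafilter.eventually_not]
  simp only [not_lt]

theorem T_nonneg (x : ℕ → WithTop M.G) : 0 ≤ h.T x ↔ ∀ᶠ n in (UU : Filter ℕ), 0 ≤ x n := by
  rw [← h.T_zero, h.T_le]

theorem T_pos (x : ℕ → WithTop M.G) : 0 < h.T x ↔ ∀ᶠ n in (UU : Filter ℕ), 0 < x n := by
  rw [← h.T_zero, h.T_lt]

theorem T_eq_zero (x : ℕ → WithTop M.G) : h.T x = 0 ↔ ∀ᶠ n in (UU : Filter ℕ), x n = 0 := by
  rw [← h.T_zero, h.T_eq]

theorem charZero [CharZero M.k] : CharZero N.k := by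
  refine charZero_of_inj_zero fun n hn => ?_
  have h1 : h.k ((n : ℕ) : ℕ → M.k) = h.k 0 := by rw [map_natCast, map_zero, hn]
  rw [h.k_eq] at h1
  obtain ⟨i, h3⟩ := h1.exists
  have h4 : (n : M.k) = 0 := h3
  exact_mod_cast h4

theorem ballSat : BallSat N := by
  intro b d hbd
  choose b' hb' using fun i => h.K_surj (b i)
  choose d' hd' using fun i => h.K_surj (d i)
  have key : ∀ (y : ℕ → M.K) (i : ℕ), N.v (h.K y - b i) = N.v (d i) ↔
      ∀ᶠ n in (UU : Filter ℕ), M.v (y n - b' i n) = M.v (d' i n) := by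
    intro y i
    rw [← hb', ← hd', ← map_sub, h.v, h.v, h.T_eq]
    rfl
  obtain ⟨y, hy⟩ := sat (X := M.K) UU hUU
    (fun i n => {x | M.v (x - b' i n) = M.v (d' i n)}) (by
      intro J
      obtain ⟨y, hy⟩ := hbd J
      obtain ⟨y, rfl⟩ := h.K_surj y
      have h1 : ∀ᶠ n in (UU : Filter ℕ), ∀ i ∈ Finset.range J,
          M.v (y n - b' i n) = M.v (d' i n) := by
        rw [Filter.eventually_all_finset]
        exact fun i hi => (key y i).1 (hy i (Finset.mem_range.1 hi).le)
      filter_upwards [h1] with n hn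
      exact ⟨y n, fun j hj => hn j (Finset.mem_range.2 hj)⟩)
  exact ⟨h.K y, fun i => (key y i).2 (hy i)⟩

theorem henselian (hM : M.Henselian) : N.Henselian := by
  classical
  intro f hf hint a ha0 ha1 ha2
  obtain ⟨F, hF, hdeg, hmon⟩ : ∃ F : (ℕ → M.K)[X], F.map h.K = f ∧ F.natDegree = f.natDegree ∧
      F.Monic := by
    have hl : f ∈ lifts h.K := by
      rw [lifts_iff_coeff_lifts]
      intro i
      exact h.K_surj (f.coeff i)
    exact lifts_and_natDegree_eq_and_monic hl hf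
  obtain ⟨a, rfl⟩ := h.K_surj a
  let ev : ∀ n : ℕ, (ℕ → M.K) →+* M.K := fun n => Pi.evalRingHom (fun _ => M.K) n
  have hev : ∀ n x, ev n x = x n := fun _ _ => rfl
  have heval : ∀ (P : (ℕ → M.K)[X]) (b : ℕ → M.K),
      (P.map h.K).eval (h.K b) = h.K (fun n => (P.map (ev n)).eval (b n)) := by
    intro P b
    have h1 : (P.map h.K).eval (h.K b) = h.K (P.eval b) := by
      rw [eval_map, eval₂_at_apply]
    have h2 : ∀ n, (P.map (ev n)).eval (b n) = (P.eval b) n := by
      intro n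
      rw [eval_map]
      exact eval₂_at_apply (ev n) b
    rw [h1]
    simp only [h2]
  have hint' : ∀ᶠ n in (UU : Filter ℕ), ∀ i, 0 ≤ M.v ((F.map (ev n)).coeff i) := by
    have h1 : ∀ᶠ n in (UU : Filter ℕ), ∀ i ∈ Finset.range (F.natDegree + 1),
        0 ≤ M.v ((F.map (ev n)).coeff i) := by
      rw [Filter.eventually_all_finset]
      intro i _
      have h2 := hint i
      rw [← hF, coeff_map, h.v, h.T_nonneg] at h2
      filter_upwards [h2] with n hn
      rw [coeff_map]
      exact hn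
    filter_upwards [h1] with n hn i
    by_cases hi : i < F.natDegree + 1
    · exact hn i (Finset.mem_range.2 hi)
    · rw [coeff_map, coeff_eq_zero_of_natDegree_lt (by omega), map_zero, M.v_zero]
      exact le_top
  rw [h.v, h.T_nonneg] at ha0
  rw [← hF, heval, h.v, h.T_pos] at ha1
  rw [← hF, derivative_map, heval, h.v, h.T_eq_zero] at ha2
  let b : ℕ → M.K := fun n =>
    if h : ∃ b : M.K, 0 ≤ M.v b ∧ (F.map (ev n)).eval b = 0 ∧ 0 < M.v (b - a n) then h.choose else 0
  have hb : ∀ᶠ n in (UU : Filter ℕ), 0 ≤ M.v (b n) ∧ (F.map (ev n)).eval (b n) = 0 ∧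
      0 < M.v (b n - a n) := by
    filter_upwards [hint', ha0, ha1, ha2] with n h1 h2 h3 h4
    rw [← derivative_map] at h4
    have h := hM (F.map (ev n)) (hmon.map _) h1 (a n) h2 h3 h4
    have hbn : b n = h.choose := dif_pos h
    rw [hbn]
    exact h.choose_spec
  refine ⟨h.K b, ?_, ?_, ?_⟩
  · rw [h.v, h.T_nonneg]
    exact hb.mono fun n hn => hn.1
  · rw [← hF, heval, ← map_zero h.K, h.K_eq]
    exact hb.mono fun n hn => hn.2.1
  · rw [← map_sub, h.v, h.T_pos]
    exact hb.mono fun n hn => hn.2.2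

end VU

end Pool.Agent.Helper71.AKE
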