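import Pool.Agent.Helper71.AKE.Defs

/-!
# Valued fields as three-sorted structures: basic facts
-/

set_option autoImplicit false

universe u

namespace Pool.Agent.Helper71.AKE

open Polynomial

namespace ValField

variable (M : ValField.{u})

theorem v_zero : M.v 0 = ⊤ := (M.v_top 0).2 rfl

theorem v_one : M.v 1 = 0 := by
  have h : M.v 1 = M.v 1 + M.v 1 := by
    conv_lhs => rw [← mul_one (1 : M.K)]
    exact M.v_mul 1 1
  have h1 : M.v 1 ≠ ⊤ := fun h2 => one_ne_zero ((M.v_top 1).1 h2)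
  obtain ⟨g, hg⟩ := WithTop.ne_top_iff_exists.1 h1
  rw [← hg] at h ⊢
  norm_cast at h ⊢
  simpa using h

/-- the valuation as in Mathlib -/
noncomputable def av : AddValuation M.K (WithTop M.G) :=
  AddValuation.of M.v M.v_zero M.v_one M.v_add M.v_mul

theorem av_apply (x : M.K) : M.av x = M.v x := rfl

theorem v_neg (x : M.K) : M.v (-x) = M.v x := M.av.map_neg x

theorem v_sub_swap (x y : M.K) : M.v (x - y) = M.v (y - x) := M.av.map_sub_swap x y

theorem v_sub (x y : M.K) : min (M.v x) (M.v y) ≤ M.v (x - y) := M.av.map_sub x y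

theorem v_pow (x : M.K) (n : ℕ) : M.v (x ^ n) = n • M.v x := M.av.map_pow x n

theorem v_inv (x : M.K) : M.v x⁻¹ = -(M.v x) := M.av.map_inv

theorem v_div (x y : M.K) : M.v (x / y) = M.v x - M.v y := M.av.map_div

theorem v_ne_top {x : M.K} : M.v x ≠ ⊤ ↔ x ≠ 0 := not_congr (M.v_top x)

theorem v_add_left {x y : M.K} (h : M.v x < M.v y) : M.v (x + y) = M.v x :=
  M.av.map_add_eq_of_lt_left h

theorem v_add_right {x y : M.K} (h : M.v y < M.v x) : M.v (x + y) = M.v y :=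
  M.av.map_add_eq_of_lt_right h

theorem v_sub_left {x y : M.K} (h : M.v x < M.v y) : M.v (x - y) = M.v x :=
  M.av.map_sub_eq_of_lt_left h

theorem v_sub_right {x y : M.K} (h : M.v y < M.v x) : M.v (x - y) = M.v y :=
  M.av.map_sub_eq_of_lt_right h

theorem v_sum_ge {ι : Type*} {s : Finset ι} {f : ι → M.K} {g : WithTop M.G}
    (h : ∀ i ∈ s, g ≤ M.v (f i)) : g ≤ M.v (∑ i ∈ s, f i) := M.av.map_le_sum h

theorem v_sum_gt {ι : Type*} {s : Finset ι} {f : ι → M.K} {g : WithTop M.G} (hg : g ≠ ⊤)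
    (h : ∀ i ∈ s, g < M.v (f i)) : g < M.v (∑ i ∈ s, f i) := M.av.map_lt_sum hg h

theorem v_sum_min {ι : Type*} [DecidableEq ι] {s : Finset ι} {f : ι → M.K} {i : ι} (hi : i ∈ s)
    (h : ∀ j ∈ s, j ≠ i → M.v (f i) < M.v (f j)) : M.v (∑ j ∈ s, f j) = M.v (f i) := by
  rw [← Finset.add_sum_erase s f hi]
  by_cases h1 : (s.erase i) = ∅
  · rw [h1, Finset.sum_empty, add_zero]
  · obtain ⟨j, hj⟩ := Finset.nonempty_iff_ne_empty.2 h1
    have h2 : M.v (f i) ≠ ⊤ :=
      ((h j (Finset.mem_of_mem_erase hj) (Finset.ne_of_mem_erase hj)).trans_le le_top).ne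
    exact M.v_add_left (M.v_sum_gt h2 fun j hj =>
      h j (Finset.mem_of_mem_erase hj) (Finset.ne_of_mem_erase hj))

/-- the value of a nonzero element -/
noncomputable def vg (x : M.K) : M.G := (M.v x).untopD 0

theorem coe_vg {x : M.K} (hx : x ≠ 0) : ((M.vg x : M.G) : WithTop M.G) = M.v x := by
  obtain ⟨g, hg⟩ := WithTop.ne_top_iff_exists.1 (M.v_ne_top.2 hx)
  rw [vg, ← hg]
  rfl

theorem vg_mul {x y : M.K} (hx : x ≠ 0) (hy : y ≠ 0) : M.vg (x * y) = M.vg x + M.vg y := by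
  have : ((M.vg (x * y) : M.G) : WithTop M.G) = ((M.vg x + M.vg y : M.G) : WithTop M.G) := by
    rw [WithTop.coe_add, M.coe_vg hx, M.coe_vg hy, M.coe_vg (mul_ne_zero hx hy), M.v_mul]
  exact_mod_cast this

theorem vg_eq_of {x : M.K} {g : M.G} (h : M.v x = g) : M.vg x = g := by
  rw [vg, h]
  rfl

/-! ### the residue map -/

theorem res_zero : M.res 0 = 0 := (M.res_ker 0 (by rw [v_zero]; exact le_top)).2
  (by rw [v_zero]; exact WithTop.coe_lt_top 0)

theorem res_neg (x : M.K) : M.res (-x) = - M.res x := by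
  by_cases hx : 0 ≤ M.v x
  · have h := M.res_add x (-x) hx (by rwa [v_neg])
    rw [add_neg_cancel, res_zero] at h
    exact (neg_eq_of_add_eq_zero_right h.symm).symm
  · push Not at hx
    rw [M.res_out x hx, M.res_out (-x) (by rwa [v_neg]), neg_zero]

theorem res_sub {x y : M.K} (hx : 0 ≤ M.v x) (hy : 0 ≤ M.v y) :
    M.res (x - y) = M.res x - M.res y := by
  rw [sub_eq_add_neg, M.res_add x (-y) hx (by rwa [v_neg]), res_neg, sub_eq_add_neg]

theorem v_add_nonneg {x y : M.K} (hx : 0 ≤ M.v x) (hy : 0 ≤ M.v y) : 0 ≤ M.v (x + y) :=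
  le_trans (le_min hx hy) (M.v_add x y)

theorem v_sub_nonneg {x y : M.K} (hx : 0 ≤ M.v x) (hy : 0 ≤ M.v y) : 0 ≤ M.v (x - y) :=
  le_trans (le_min hx hy) (M.v_sub x y)

theorem v_mul_nonneg {x y : M.K} (hx : 0 ≤ M.v x) (hy : 0 ≤ M.v y) : 0 ≤ M.v (x * y) := by
  rw [M.v_mul]
  exact add_nonneg hx hy

theorem v_pow_nonneg {x : M.K} (hx : 0 ≤ M.v x) (n : ℕ) : 0 ≤ M.v (x ^ n) := by
  rw [M.v_pow]
  exact nsmul_nonneg hx n

theorem res_eq_iff {x y : M.K} (hx : 0 ≤ M.v x) (hy : 0 ≤ M.v y) :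
    M.res x = M.res y ↔ 0 < M.v (x - y) := by
  rw [← M.res_ker _ (M.v_sub_nonneg hx hy), M.res_sub hx hy, sub_eq_zero]

theorem res_ne_zero_iff {x : M.K} (hx : 0 ≤ M.v x) : M.res x ≠ 0 ↔ M.v x = 0 := by
  rw [ne_eq, M.res_ker x hx, not_lt]
  exact ⟨fun h => le_antisymm h hx, fun h => h.le⟩

theorem res_pow {x : M.K} (hx : 0 ≤ M.v x) (n : ℕ) : M.res (x ^ n) = M.res x ^ n := by
  induction n with
  | zero => rw [pow_zero, pow_zero, M.res_one]
  | succ n ih => rw [pow_succ, pow_succ, M.res_mul _ _ (M.v_pow_nonneg hx n) hx, ih]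

theorem res_sum {ι : Type*} (s : Finset ι) (f : ι → M.K) (h : ∀ i ∈ s, 0 ≤ M.v (f i)) :
    M.res (∑ i ∈ s, f i) = ∑ i ∈ s, M.res (f i) := by
  classical
  induction s using Finset.induction_on with
  | empty => simp [M.res_zero]
  | insert i s hi ih =>
    rw [Finset.sum_insert hi, Finset.sum_insert hi,
      M.res_add _ _ (h i (Finset.mem_insert_self i s))
        (M.v_sum_ge fun j hj => h j (Finset.mem_insert_of_mem hj)),
      ih fun j hj => h j (Finset.mem_insert_of_mem hj)]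

theorem res_inv {x : M.K} (hx : M.v x = 0) : M.res x⁻¹ = (M.res x)⁻¹ := by
  have hx0 : x ≠ 0 := by
    rintro rfl
    rw [M.v_zero] at hx
    exact absurd hx.symm (WithTop.coe_ne_top)
  have h1 : M.v x⁻¹ = 0 := by rw [M.v_inv, hx, neg_zero]
  have h2 := M.res_mul x x⁻¹ hx.ge h1.ge
  rw [mul_inv_cancel₀ hx0, M.res_one] at h2
  exact eq_inv_of_mul_eq_one_right h2.symm

theorem res_div {x y : M.K} (hx : 0 ≤ M.v x) (hy : M.v y = 0) :
    M.res (x / y) = M.res x / M.res y := by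
  rw [div_eq_mul_inv, M.res_mul x _ hx (by rw [M.v_inv, hy, neg_zero]), M.res_inv hy,
    div_eq_mul_inv]

theorem v_natCast_nonneg (n : ℕ) : 0 ≤ M.v (n : M.K) := by
  induction n with
  | zero => rw [Nat.cast_zero, v_zero]; exact le_top
  | succ n ih => rw [Nat.cast_succ]; exact M.v_add_nonneg ih M.v_one.ge

theorem res_natCast (n : ℕ) : M.res (n : M.K) = n := by
  induction n with
  | zero => rw [Nat.cast_zero, res_zero, Nat.cast_zero]
  | succ n ih => rw [Nat.cast_succ, M.res_add _ _ (M.v_natCast_nonneg n) M.v_one.ge, ih,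
      M.res_one, Nat.cast_succ]

theorem v_natCast [CharZero M.k] {n : ℕ} (hn : n ≠ 0) : M.v (n : M.K) = 0 := by
  rw [← M.res_ne_zero_iff (M.v_natCast_nonneg n), res_natCast]
  exact_mod_cast hn

/-! ### residues of polynomials -/

/-- the residue polynomial -/
noncomputable def rp (p : M.K[X]) : M.k[X] := ∑ i ∈ p.support, monomial i (M.res (p.coeff i))

theorem coeff_rp (p : M.K[X]) (i : ℕ) : (M.rp p).coeff i = M.res (p.coeff i) := by
  rw [rp, finset_sum_coeff]
  simp only [coeff_monomial]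
  rw [Finset.sum_ite_eq']
  split_ifs with h
  · rfl
  · rw [notMem_support_iff.1 h, M.res_zero]

theorem v_eval_nonneg {p : M.K[X]} (hp : ∀ i, 0 ≤ M.v (p.coeff i)) {x : M.K} (hx : 0 ≤ M.v x) :
    0 ≤ M.v (p.eval x) := by
  rw [eval_eq_sum, sum_def]
  exact M.v_sum_ge fun i _ => M.v_mul_nonneg (hp i) (M.v_pow_nonneg hx i)

theorem res_eval {p : M.K[X]} (hp : ∀ i, 0 ≤ M.v (p.coeff i)) {x : M.K} (hx : 0 ≤ M.v x) :
    M.res (p.eval x) = (M.rp p).eval (M.res x) := by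
  rw [eval_eq_sum, sum_def, M.res_sum _ _ fun i _ => M.v_mul_nonneg (hp i) (M.v_pow_nonneg hx i),
    rp, eval_finset_sum]
  refine Finset.sum_congr rfl fun i _ => ?_
  rw [M.res_mul _ _ (hp i) (M.v_pow_nonneg hx i), M.res_pow hx, eval_monomial]

theorem rp_derivative {p : M.K[X]} (hp : ∀ i, 0 ≤ M.v (p.coeff i)) :
    M.rp (derivative p) = derivative (M.rp p) := by
  ext i
  rw [coeff_rp, coeff_derivative, coeff_derivative, coeff_rp]
  have h : ((i : M.K) + 1) = ((i + 1 : ℕ) : M.K) := by push_cast; rfl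
  rw [h, M.res_mul _ _ (hp _) (M.v_natCast_nonneg _), res_natCast]
  push_cast
  rfl

theorem v_coeff_derivative {p : M.K[X]} (hp : ∀ i, 0 ≤ M.v (p.coeff i)) (i : ℕ) :
    0 ≤ M.v ((derivative p).coeff i) := by
  rw [coeff_derivative]
  have h : ((i : M.K) + 1) = ((i + 1 : ℕ) : M.K) := by push_cast; rfl
  rw [h]
  exact M.v_mul_nonneg (hp _) (M.v_natCast_nonneg _)

end ValField

end Pool.Agent.Helper71.AKE
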